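import Pool.Agent.H662.CK.Stm

/-!
# APX: primitive recursive approximation
-/

set_option autoImplicit false

namespace Pool.Agent.H662.CK

open Pool.Agent.H662.TR (Str strs)

namespace XAPX

open Nat.Partrec (Code)

/-- the strings with code below `s` -/
def low (s : ℕ) : List Str := (List.range s).filterMap fun k => Encodable.decode (α := Str) k

theorem mem_low {s : ℕ} {p : Str} : p ∈ low s ↔ ∃ k < s, Encodable.decode (α := Str) k = some p := by
  unfold low
  rw [List.mem_filterMap]
  constructor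
  · rintro ⟨k, hk, h⟩
    exact ⟨k, List.mem_range.1 hk, h⟩
  · rintro ⟨k, hk, h⟩
    exact ⟨k, List.mem_range.2 hk, h⟩

theorem primrec_low : Primrec low :=
  Primrec.listFilterMap Primrec.list_range (Primrec.decode.comp Primrec.snd).to₂

theorem primrec_rel (c : Code) : PrimrecRel (fun (p : Str) (y : (ℕ × Str) × ℕ) =>
    p.length ≤ y.1.1 ∧
      Code.evaln y.2 c (Encodable.encode p) = some (Encodable.encode y.1.2)) := by
  have h1 : PrimrecPred (fun q : Str × ((ℕ × Str) × ℕ) => q.1.length ≤ q.2.1.1) :=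
    Primrec.nat_le.comp (Primrec.list_length.comp Primrec.fst)
      (Primrec.fst.comp (Primrec.fst.comp Primrec.snd))
  have h2 : PrimrecPred (fun q : Str × ((ℕ × Str) × ℕ) =>
      Code.evaln q.2.2 c (Encodable.encode q.1) = some (Encodable.encode q.2.1.2)) :=
    Primrec.eq.comp
      (Code.primrec_evaln.comp (((Primrec.snd.comp Primrec.snd).pair (Primrec.const c)).pair
        (Primrec.encode.comp Primrec.fst)))
      (Primrec.option_some.comp (Primrec.encode.comp
        (Primrec.snd.comp (Primrec.fst.comp Primrec.snd))))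
  exact h1.and h2

theorem primrec_ex (c : Code) : PrimrecPred (fun y : (ℕ × Str) × ℕ => ∃ p ∈ low y.2,
    p.length ≤ y.1.1 ∧
      Code.evaln y.2 c (Encodable.encode p) = some (Encodable.encode y.1.2)) :=
  (primrec_rel c).exists_mem_list.comp (primrec_low.comp Primrec.snd) Primrec.id

theorem eval_iff {W : Str →. Str} {c : Code}
    (hc : Code.eval c = fun n => Part.bind ↑(Encodable.decode (α := Str) n) fun a =>
      (W a).map Encodable.encode) (p x : Str) :
    Encodable.encode x ∈ Code.eval c (Encodable.encode p) ↔ x ∈ W p := by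
  rw [hc]
  simp only [Encodable.encodek, Part.coe_some, Part.bind_some, Part.mem_map_iff]
  constructor
  · rintro ⟨z, hz, h⟩
    rw [← Encodable.encode_injective h]
    exact hz
  · intro h
    exact ⟨x, h, rfl⟩

end XAPX

/-- **APX.** -/
theorem t_APX : S_APX := by
  intro W hW
  obtain ⟨c, hc⟩ := Nat.Partrec.Code.exists_code.1 hW
  obtain ⟨inst, hP⟩ := XAPX.primrec_ex c
  refine ⟨fun y => @decide _ (inst y), hP, ?_, ?_⟩
  · intro n n' x s s' hn hs h
    have h1 := @of_decide_eq_true _ (inst ((n, x), s)) h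
    obtain ⟨p, hp, hl, he⟩ := h1
    obtain ⟨k, hk, hd⟩ := XAPX.mem_low.1 hp
    refine @decide_eq_true _ (inst ((n', x), s')) ⟨p, XAPX.mem_low.2 ⟨k, lt_of_lt_of_le hk hs, hd⟩,
      le_trans hl hn, ?_⟩
    exact Nat.Partrec.Code.evaln_mono hs he
  · intro n x
    constructor
    · rintro ⟨s, h⟩
      obtain ⟨p, -, hl, he⟩ := @of_decide_eq_true _ (inst ((n, x), s)) h
      exact ⟨p, hl, (XAPX.eval_iff hc p x).1 (Nat.Partrec.Code.evaln_sound he)⟩
    · rintro ⟨p, hl, hx⟩
      obtain ⟨k, hk⟩ := Nat.Partrec.Code.evaln_complete.1 ((XAPX.eval_iff hc p x).2 hx)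
      refine ⟨max k (Encodable.encode p + 1), @decide_eq_true _ (inst _) ⟨p,
        XAPX.mem_low.2 ⟨Encodable.encode p, ?_, Encodable.encodek p⟩, hl, ?_⟩⟩
      · exact lt_of_lt_of_le (Nat.lt_succ_self _) (le_max_right _ _)
      · exact Nat.Partrec.Code.evaln_mono (le_max_left _ _) hk

end Pool.Agent.H662.CK
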