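import Pool.Agent.H662.CK.Stm

/-!
Project CK (helper662), task CAP (helper501): the capacity bound for abandoned rounds.
-/

set_option autoImplicit false

namespace Pool.Agent.H662.CK

open Pool.Agent.H662.TR (Str strs)

namespace XCAP

theorem gg_anti (m a r : ℕ) {t t' : ℕ} (h : t ≤ t') : gg m a r t' ≤ gg m a r t := by
  unfold gg
  exact Nat.sub_le_sub_left (Nat.mul_le_mul_right _ h) _

theorem sum_bound {α : Type} (f : α → ℕ) (K q : ℕ) :
    ∀ B : List α, (∀ e ∈ B, K ≤ f e * q) → B.length * K ≤ (B.map f).sum * q := by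
  intro B
  induction B with
  | nil => intro _; simp
  | cons e B ih =>
    intro h
    have h1 := h e (List.mem_cons_self)
    have h2 := ih (fun e' he' => h e' (List.mem_cons_of_mem _ he'))
    simp only [List.length_cons, List.map_cons, List.sum_cons]
    calc (B.length + 1) * K = B.length * K + K := by ring
      _ ≤ (B.map f).sum * q + f e * q := Nat.add_le_add h2 h1
      _ = (f e + (B.map f).sum) * q := by ring

end XCAP

theorem t_CAP (hCNT : S_CNT) (hGRP : S_GRP) : S_CAP := by
  intro c W V h a s A hA hnd r t ht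
  obtain ⟨B, hB⟩ : ∃ B, B = A.filter (fun e => decide (e.1.1 = r ∧ t ≤ e.1.2.2)) := ⟨_, rfl⟩
  rw [← hB]
  have hBA : ∀ e ∈ B, e ∈ A ∧ e.1.1 = r ∧ t ≤ e.1.2.2 := by
    intro e he
    rw [hB, List.mem_filter] at he
    exact ⟨he.1, by simpa using he.2⟩
  have hLn : ((B.map (fun e => e.2)).flatten).Nodup := by
    rw [List.nodup_flatten]
    constructor
    · intro l hl
      obtain ⟨e, he, rfl⟩ := List.mem_map.1 hl
      exact (hA e (hBA e he).1).2.2.1.nodup ((hGRP c.m a).1 _ _).1
    · rw [List.pairwise_map]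
      have h1 : (B.map (fun e => (e.1.1, e.1.2.1))).Nodup := by
        rw [hB]
        exact hnd.sublist (List.filter_sublist.map _)
      rw [List.Nodup, List.pairwise_map] at h1
      refine h1.imp_of_mem ?_
      intro e e' he he' hne x hx hx'
      apply hne
      have k1 := hA e (hBA e he).1
      have k2 := hA e' (hBA e' he').1
      have k3 := (hGRP c.m a).2 e.1.1 e.1.2.1 e'.1.1 e'.1.2.1 k1.2.1 k2.2.1 x
        (k1.2.2.1.subset hx) (k2.2.2.1.subset hx')
      exact Prod.ext k3.1 k3.2
  have hcard := hCNT W (gg c.m a r (t + 1)) ((B.map (fun e => e.2)).flatten).toFinset (by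
    intro x hx
    rw [List.mem_toFinset, List.mem_flatten] at hx
    obtain ⟨l, hl, hxl⟩ := hx
    obtain ⟨e, he, rfl⟩ := List.mem_map.1 hl
    obtain ⟨he1, he2, he3⟩ := hBA e he
    have k1 := (hA e he1).2.2.2.2 x hxl
    obtain ⟨p, hp, hpx⟩ := (h.iffW _ _).1 ⟨s, k1⟩
    refine ⟨p, hp.trans ?_, hpx⟩
    rw [he2]
    exact XCAP.gg_anti _ _ _ (Nat.succ_le_succ he3))
  rw [List.toFinset_card_of_nodup hLn, List.length_flatten, List.map_map] at hcard
  have hsum := XCAP.sum_bound (fun e : (ℕ × ℕ × ℕ) × List Str => e.2.length) (2 ^ jj c.m a r)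
    (2 * TT c.m a) B (fun e he => by
      obtain ⟨he1, he2, -⟩ := hBA e he
      have := (hA e he1).2.2.2.1
      rwa [he2] at this)
  refine hsum.trans ?_
  rw [mul_comm]
  exact Nat.mul_le_mul_left _ hcard.le

end Pool.Agent.H662.CK
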