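import Pool.Agent.H662.CK.Stm

set_option autoImplicit false

namespace Pool.Agent.H662.CK

open Pool.Agent.H662.TR (Str strs)

namespace XCNT

/-- the number of a string -/
def code : Str → ℕ
  | [] => 1
  | b :: l => 2 * code l + b.toNat

theorem code_pos (l : Str) : 1 ≤ code l := by
  induction l with
  | nil => exact le_rfl
  | cons b l ih =>
    unfold code
    omega

theorem code_lt (l : Str) : code l < 2 ^ (l.length + 1) := by
  induction l with
  | nil => decide
  | cons b l ih =>
    have hb : b.toNat ≤ 1 := Bool.toNat_le b
    rw [List.length_cons, pow_succ]
    unfold code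
    omega

theorem code_inj : ∀ l l' : Str, code l = code l' → l = l' := by
  intro l
  induction l with
  | nil =>
    intro l' h
    cases l' with
    | nil => rfl
    | cons b l' =>
      have h1 := code_pos l'
      unfold code at h
      omega
  | cons b l ih =>
    intro l' h
    cases l' with
    | nil =>
      have h1 := code_pos l
      unfold code at h
      omega
    | cons b' l' =>
      have hb : b.toNat ≤ 1 := Bool.toNat_le b
      have hb' : b'.toNat ≤ 1 := Bool.toNat_le b'
      unfold code at h
      have h1 : code l = code l' := by omega
      have h2 : b.toNat = b'.toNat := by omega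
      have h3 : b = b' := by
        cases b <;> cases b' <;> simp_all
      rw [ih l' h1, h3]

end XCNT

open XCNT in
theorem t_CNT : S_CNT := by
  intro W n F hF
  choose! p hp using hF
  have h1 : F.card ≤ (Finset.Ico 1 (2 ^ (n + 1))).card := by
    refine Finset.card_le_card_of_injOn (fun x => code (p x)) ?_ ?_
    · intro x hx
      rw [Finset.mem_coe] at hx
      rw [Finset.mem_coe, Finset.mem_Ico]
      refine ⟨code_pos _, (code_lt _).trans_le ?_⟩
      exact Nat.pow_le_pow_right (by norm_num) (by have := (hp x hx).1; omega)
    · intro x hx y hy hxy
      rw [Finset.mem_coe] at hx hy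
      have h2 : p x = p y := code_inj _ _ hxy
      have h3 := (hp x hx).2
      have h4 := (hp y hy).2
      rw [← h2] at h4
      exact Part.mem_unique h3 h4
  rw [Nat.card_Ico] at h1
  have h2 : 0 < 2 ^ (n + 1) := by positivity
  omega

end Pool.Agent.H662.CK
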