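import Pool.Agent.H662.CK.Stm

/-!
Project CK, task CORE: the core theorem from the leaves.
-/

set_option autoImplicit false

namespace Pool.Agent.H662.CK

open Pool.Agent.H662.TR (Str strs)

theorem t_CORE (hAPX : S_APX) (hPLN : S_PLN) (hKC : S_KC) (hPR : S_PR) (hPX : S_PX)
    (hMB : S_MB) (hNB : S_NB) (hFZ : S_FZ) (hFC : S_FC) : S_CORE := by
  intro W V hWp hWo hVp hVf hVo lam m hlp hlm hlc
  by_contra hcon
  push Not at hcon
  obtain ⟨PW, hPW1, hPW2, hPW3⟩ := hAPX W hWp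
  obtain ⟨PV, hPV1, hPV2, hPV3⟩ := hAPX V hVp
  obtain ⟨c, hc⟩ : ∃ c : Ctx, c = ⟨PW, PV, lam, m⟩ := ⟨_, rfl⟩
  have hyp : Hyp c W V := by
    subst hc
    exact ⟨hPW2, hPV2, hPW3, hPV3, hlm, hlc⟩
  have hpr : Primrec (fun x : ℕ × ℕ => st c x.1 x.2) := by
    subst hc
    exact hPR _ hPW1 hPV1 hlp
  have hpM : Primrec (fun x : ℕ × ℕ => zM (st c x.1 x.2)) :=
    Primrec.fst.comp (Primrec.fst.comp (Primrec.snd.comp (Primrec.snd.comp hpr)))
  have hpN : Primrec (fun x : ℕ × ℕ => zN (st c x.1 x.2)) :=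
    Primrec.snd.comp (Primrec.fst.comp (Primrec.snd.comp (Primrec.snd.comp hpr)))
  obtain ⟨c1, hc1⟩ := hPLN W hWo _ hpM (fun a s => (hPX c a s).1)
    (fun a s n => hMB c W V hyp a s n)
  obtain ⟨c2, hc2⟩ := hKC V hVo _ hpN (fun a s => (hPX c a s).2) (fun a s => hNB c W V hyp a s)
  have hval : Valid c W V (max c1 c2) := by
    constructor
    · intro s n x hx
      obtain ⟨q, hq1, hq2⟩ := hc1 (max c1 c2) s n x hx
      refine ⟨q, ?_, hq2⟩
      unfold oo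
      omega
    · intro s n x hx
      obtain ⟨q, hq1, hq2⟩ := hc2 (max c1 c2) s n x hx
      refine ⟨q, ?_, hq2⟩
      unfold oo
      omega
  have hlam : ∀ x, ∃ s, Cx W x ∈ c.lam ((x, Cx V x), s) := by
    subst hc
    exact hcon
  obtain ⟨s, hs1, hs2, hs3⟩ := hFZ c W V hyp (max c1 c2) hval hlam
  exact hFC c W V hyp hVf (max c1 c2) s hs1 hs2 hs3

end Pool.Agent.H662.CK
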