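import Pool.Agent.H662.CK.Stm

/-!
# An optimal conditional machine
-/

set_option autoImplicit false

namespace Pool.Agent.H662.CK

namespace XEXC

open Pool.Agent.H662.TR (Str)
open Nat.Partrec (Code)

/-- number of leading `true`s -/
def hd (q : Str) : ℕ := q.findIdx (fun b => !b)

/-- the rest after the first `false` -/
def rs (q : Str) : Str := List.tail^[hd q + 1] q

theorem hd_prim : Primrec hd :=
  Primrec.list_findIdx Primrec.id (Primrec.not.comp Primrec.snd)

theorem rs_prim : Primrec rs :=
  Primrec.nat_iterate (Primrec.succ.comp hd_prim) Primrec.id (Primrec.list_tail.comp Primrec.snd)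

theorem hd_eq (e : ℕ) (p : Str) : hd (List.replicate e true ++ false :: p) = e := by
  unfold hd
  induction e with
  | zero => simp [List.findIdx_cons]
  | succ e ih =>
    rw [List.replicate_succ, List.cons_append, List.findIdx_cons, ih]
    rfl

theorem tail_it (e : ℕ) (p : Str) :
    List.tail^[e + 1] (List.replicate e true ++ false :: p) = p := by
  induction e with
  | zero => rfl
  | succ e ih =>
    rw [Function.iterate_succ_apply, List.replicate_succ, List.cons_append, List.tail_cons, ih]

theorem rs_eq (e : ℕ) (p : Str) : rs (List.replicate e true ++ false :: p) = p := by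
  unfold rs
  rw [hd_eq, tail_it]

/-- the machine -/
def U (q : Str) (y : Str × ℕ) : Part ℕ :=
  (Denumerable.ofNat Code (hd q)).eval (Encodable.encode (rs q, y))

theorem U_part : Partrec₂ U := by
  have h1 : Computable (fun x : Str × (Str × ℕ) => Denumerable.ofNat Code (hd x.1)) :=
    ((Primrec.ofNat Code).comp (hd_prim.comp Primrec.fst)).to_comp
  have h2 : Computable (fun x : Str × (Str × ℕ) => Encodable.encode (rs x.1, x.2)) :=
    (Primrec.encode.comp ((rs_prim.comp Primrec.fst).pair Primrec.snd)).to_comp
  exact Nat.Partrec.Code.eval_part.comp h1 h2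

end XEXC

open Pool.Agent.H662.TR (Str)
open XEXC

theorem t_EXC : S_EXC := by
  refine ⟨U, U_part, ?_⟩
  intro M hM
  obtain ⟨cM, hc⟩ := Nat.Partrec.Code.exists_code.1 hM
  refine ⟨Encodable.encode cM + 1, ?_⟩
  intro p y z hz
  refine ⟨List.replicate (Encodable.encode cM) true ++ false :: p, ?_, ?_⟩
  · rw [List.length_append, List.length_replicate, List.length_cons]
    omega
  · unfold U
    rw [hd_eq, rs_eq, Denumerable.ofNat_encode, hc]
    refine Part.mem_bind_iff.2 ⟨(p, y), ?_, ?_⟩
    · rw [Encodable.encodek]
      exact Part.mem_some _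
    · exact Part.mem_map Encodable.encode hz

end Pool.Agent.H662.CK
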