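import Pool.Agent.H662.CK.Stm

/-! # Project CK (helper662), task EXF: an optimal prefix-free machine (by helper539) -/

set_option autoImplicit false

namespace Pool.Agent.H662.CK

open Pool.Agent.H662.TR (Str strs)

namespace XEXF

open Nat.Partrec (Code)
open Encodable Denumerable

/-- one observation: with `t = (s, n)` and `p` the string coded by `n`, the pair `(p, z)` if the code
number `e` outputs `z` on `p` within `s` steps -/
def F (e t : ℕ) : Option (Str × Str) :=
  (decode (α := Str) t.unpair.2).bind fun p =>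
    ((Code.evaln t.unpair.1 (ofNat Code e) (encode p)).bind fun v => decode (α := Str) v).map fun z => (p, z)

theorem prF : Primrec₂ F := by
  unfold F
  refine Primrec.option_bind (Primrec.decode.comp (Primrec.snd.comp (Primrec.unpair.comp Primrec.snd))) ?_
  refine Primrec.option_map (Primrec.option_bind ?_ (Primrec.decode.comp Primrec.snd).to₂) ?_
  · refine Code.primrec_evaln.comp (Primrec.pair (Primrec.pair ?_ ?_) (Primrec.encode.comp Primrec.snd))
    · exact Primrec.fst.comp (Primrec.unpair.comp (Primrec.snd.comp Primrec.fst))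
    · exact (Primrec.ofNat Code).comp (Primrec.fst.comp Primrec.fst)
  · exact Primrec.pair (Primrec.snd.comp Primrec.fst) Primrec.snd

/-- the string observed -/
def D (e t : ℕ) : Str := ((F e t).map Prod.fst).getD []

theorem prD : Primrec₂ D := by
  unfold D
  exact Primrec.option_getD.comp (Primrec.option_map prF (Primrec.fst.comp Primrec.snd).to₂)
    (Primrec.const [])

/-- the observation `t` does not forbid `p` -/
def Ok (t : ℕ) (y : ℕ × Str) : Prop :=
  F y.1 t = none ∨ (¬ (y.2.take (D y.1 t).length = D y.1 t ∨ (D y.1 t).take y.2.length = y.2)) ∨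
    D y.1 t = y.2

theorem prOk : PrimrecRel Ok := by
  unfold Ok
  have hF : Primrec fun x : ℕ × (ℕ × Str) => F x.2.1 x.1 :=
    prF.comp (Primrec.fst.comp Primrec.snd) Primrec.fst
  have hD : Primrec fun x : ℕ × (ℕ × Str) => D x.2.1 x.1 :=
    prD.comp (Primrec.fst.comp Primrec.snd) Primrec.fst
  have h2 : Primrec fun x : ℕ × (ℕ × Str) => x.2.2 := Primrec.snd.comp Primrec.snd
  refine PrimrecPred.or (Primrec.eq.comp hF (Primrec.const none)) (PrimrecPred.or (PrimrecPred.not
    (PrimrecPred.or ?_ ?_)) (Primrec.eq.comp hD h2))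
  · exact Primrec.eq.comp (Primrec.list_take.comp (Primrec.list_length.comp hD) h2) hD
  · exact Primrec.eq.comp (Primrec.list_take.comp (Primrec.list_length.comp h2) hD) h2

theorem prAll : PrimrecRel fun (n : ℕ) (y : ℕ × Str) => ∀ t < n, Ok t y := by
  have h := (PrimrecRel.forall_mem_list prOk).comp (Primrec.list_range.comp (Primrec.fst (α := ℕ) (β := ℕ × Str)))
    (Primrec.snd (α := ℕ) (β := ℕ × Str))
  exact h.of_eq (fun x => by simp)

/-- parse `true^e false p` -/
def parse : Str → Option (ℕ × Str)
  | [] => none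
  | false :: l => some (0, l)
  | true :: l => (parse l).map fun x => (x.1 + 1, x.2)

theorem prParse : Primrec parse := by
  have h := Primrec.list_rec (f := fun l : Str => l) (g := fun _ => (none : Option (ℕ × Str)))
      (h := fun _ x => cond x.1 (x.2.2.map fun y : ℕ × Str => (y.1 + 1, y.2)) (some (0, x.2.1)))
      Primrec.id (Primrec.const none) (by
        refine Primrec.cond (Primrec.fst.comp Primrec.snd) ?_ ?_
        · refine Primrec.option_map (Primrec.snd.comp (Primrec.snd.comp Primrec.snd)) ?_
          exact Primrec.pair (Primrec.succ.comp (Primrec.fst.comp Primrec.snd)) (Primrec.snd.comp Primrec.snd)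
        · exact Primrec.option_some.comp (Primrec.pair (Primrec.const 0)
            (Primrec.fst.comp (Primrec.snd.comp Primrec.snd))))
  refine h.of_eq fun l => ?_
  induction l with
  | nil => rfl
  | cons b l ih =>
    cases b
    · rfl
    · rw [parse, ← ih]
      rfl

theorem parse_eq (e : ℕ) (p : Str) : parse (List.replicate e true ++ false :: p) = some (e, p) := by
  induction e with
  | zero => rfl
  | succ e ih => simp [List.replicate_succ, parse, ih]

theorem of_parse : ∀ (x : Str) (e : ℕ) (p : Str), parse x = some (e, p) →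
    x = List.replicate e true ++ false :: p
  | [], e, p, h => by simp [parse] at h
  | false :: l, e, p, h => by
    simp only [parse, Option.some.injEq, Prod.mk.injEq] at h
    obtain ⟨rfl, rfl⟩ := h
    rfl
  | true :: l, e, p, h => by
    simp only [parse, Option.map_eq_some_iff, Prod.mk.injEq, Prod.exists] at h
    obtain ⟨e', p', h1, rfl, rfl⟩ := h
    rw [of_parse l e' p' h1, List.replicate_succ]
    rfl

theorem parse_prefix (x y : Str) (e : ℕ) (p : Str) (h : parse x = some (e, p)) (hxy : x <+: y) :
    ∃ r, parse y = some (e, p ++ r) ∧ y = x ++ r := by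
  obtain ⟨r, rfl⟩ := hxy
  refine ⟨r, ?_, rfl⟩
  rw [of_parse x e p h, List.append_assoc, List.cons_append, parse_eq]

open Classical in
/-- the search -/
noncomputable def G (x : Str) (t : ℕ) : Option Str :=
  (parse x).bind fun y => (F y.1 t).bind fun z => if z.1 = y.2 ∧ ∀ t' < t, Ok t' y then some z.2 else none

theorem prG : Primrec₂ G := by
  classical
  unfold G
  refine Primrec.option_bind (prParse.comp Primrec.fst) ?_
  refine Primrec.option_bind (prF.comp (Primrec.fst.comp Primrec.snd) (Primrec.snd.comp Primrec.fst)) ?_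
  refine Primrec.ite ?_ ?_ (Primrec.const none)
  · refine PrimrecPred.and ?_ ?_
    · exact Primrec.eq.comp (Primrec.fst.comp Primrec.snd) (Primrec.snd.comp (Primrec.snd.comp Primrec.fst))
    · exact prAll.comp (Primrec.snd.comp (Primrec.fst.comp Primrec.fst)) (Primrec.snd.comp Primrec.fst)
  · exact Primrec.option_some.comp (Primrec.snd.comp Primrec.snd)

theorem mem_G {x : Str} {t : ℕ} {z : Str} : z ∈ G x t ↔
    ∃ e p, parse x = some (e, p) ∧ F e t = some (p, z) ∧ ∀ t' < t, Ok t' (e, p) := by
  classical
  unfold G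
  simp only [Option.mem_def, Option.bind_eq_some_iff, Prod.exists]
  constructor
  · rintro ⟨e, p, h1, p', z', h2, h3⟩
    split_ifs at h3 with h4
    · simp only [Option.some.injEq] at h3
      obtain ⟨h5, h6⟩ := h4
      subst h5
      subst h3
      exact ⟨e, p', h1, h2, h6⟩
  · rintro ⟨e, p, h1, h2, h3⟩
    refine ⟨e, p, h1, p, z, h2, ?_⟩
    rw [if_pos ⟨rfl, h3⟩]

/-- the machine -/
noncomputable def V (x : Str) : Part Str := Nat.rfindOpt (G x)

theorem V_partrec : Partrec V := Partrec.rfindOpt prG.to_comp

theorem ok_eq {e t t' : ℕ} {p q z : Str} (h : F e t = some (q, z)) (ho : ∀ s < t', Ok s (e, p)) (ht : t < t')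
    (hc : q <+: p ∨ p <+: q) : q = p := by
  have hD : D e t = q := by simp [D, h]
  rcases ho t ht with h1 | h1 | h1
  · simp [h] at h1
  · exfalso
    apply h1
    simp only [hD]
    rcases hc with h2 | h2
    · exact Or.inl (List.prefix_iff_eq_take.1 h2).symm
    · exact Or.inr (List.prefix_iff_eq_take.1 h2).symm
  · simpa [hD] using h1

theorem V_pf : PF V := by
  intro x y hx hy hxy
  obtain ⟨t1, z1, h1⟩ := Nat.rfindOpt_dom.1 hx
  obtain ⟨t2, z2, h2⟩ := Nat.rfindOpt_dom.1 hy
  obtain ⟨e, p, hp, hF, ho⟩ := mem_G.1 h1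
  obtain ⟨e', p', hp', hF', ho'⟩ := mem_G.1 h2
  obtain ⟨r, hr, hyr⟩ := parse_prefix x y e p hp hxy
  rw [hp'] at hr
  simp only [Option.some.injEq, Prod.mk.injEq] at hr
  obtain ⟨rfl, rfl⟩ := hr
  have key : p = p ++ r := by
    rcases lt_trichotomy t1 t2 with h | h | h
    · exact ok_eq hF ho' h (Or.inl (List.prefix_append _ _))
    · subst h
      rw [hF] at hF'
      simp only [Option.some.injEq, Prod.mk.injEq] at hF'
      exact hF'.1
    · exact (ok_eq hF' ho h (Or.inr (List.prefix_append _ _))).symm
  have hr0 : r = [] := by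
    have := congrArg List.length key
    rw [List.length_append] at this
    exact List.eq_nil_of_length_eq_zero (by omega)
  rw [hyr, hr0, List.append_nil]

theorem code_of (M : Str →. Str) (hM : Partrec M) : ∃ c : Code, ∀ p : Str,
    c.eval (encode p) = (M p).map encode := by
  obtain ⟨c, hc⟩ := Code.exists_code.1 hM
  refine ⟨c, fun p => ?_⟩
  rw [hc]
  simp [encodek]

theorem F_of {M : Str →. Str} {c : Code} (hc : ∀ p : Str, c.eval (encode p) = (M p).map encode)
    {t : ℕ} {p z : Str} (h : F (encode c) t = some (p, z)) : z ∈ M p := by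
  unfold F at h
  simp only [Option.bind_eq_some_iff, Option.map_eq_some_iff, Prod.mk.injEq, Denumerable.ofNat_encode] at h
  obtain ⟨p', -, z', ⟨v, hv, hz⟩, rfl, rfl⟩ := h
  have hv' := Code.evaln_sound hv
  rw [hc, Part.mem_map_iff] at hv'
  obtain ⟨w, hw, rfl⟩ := hv'
  rw [encodek] at hz
  simp only [Option.some.injEq] at hz
  rw [← hz]
  exact hw

theorem V_opt : OptF V := by
  intro M hM hPF
  obtain ⟨c, hc⟩ := code_of M hM
  refine ⟨encode c + 1, fun p z hz => ⟨List.replicate (encode c) true ++ false :: p, ?_, ?_⟩⟩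
  · simp only [List.length_append, List.length_replicate, List.length_cons]
    omega
  · have h0 : encode z ∈ c.eval (encode p) := by
      rw [hc]
      exact Part.mem_map _ hz
    obtain ⟨s, hs⟩ := Code.evaln_complete.1 h0
    have hF : F (encode c) (Nat.pair s (encode p)) = some (p, z) := by
      unfold F
      rw [Nat.unpair_pair]
      simp only [encodek, Denumerable.ofNat_encode]
      rw [Option.mem_def] at hs
      simp [hs, encodek]
    have hdom : (Nat.rfindOpt (G (List.replicate (encode c) true ++ false :: p))).Dom := by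
      rw [Nat.rfindOpt_dom]
      refine ⟨Nat.pair s (encode p), z, mem_G.2 ⟨encode c, p, parse_eq _ _, hF, fun t' _ => ?_⟩⟩
      unfold Ok
      simp only
      by_cases h1 : F (encode c) t' = none
      · exact Or.inl h1
      · obtain ⟨⟨q, w⟩, hq⟩ := Option.ne_none_iff_exists'.1 h1
        have hD : D (encode c) t' = q := by simp [D, hq]
        right
        rw [hD]
        by_cases h2 : p.take q.length = q ∨ q.take p.length = p
        · right
          have hwd : (M q).Dom := Part.dom_iff_mem.2 ⟨w, F_of hc hq⟩
          have hpd : (M p).Dom := Part.dom_iff_mem.2 ⟨z, hz⟩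
          rcases h2 with h3 | h3
          · exact hPF q p hwd hpd (by rw [← h3]; exact List.take_prefix _ _)
          · exact (hPF p q hpd hwd (by rw [← h3]; exact List.take_prefix _ _)).symm
        · exact Or.inl h2
    obtain ⟨n, hn⟩ := Nat.rfindOpt_spec ⟨hdom, rfl⟩
    obtain ⟨e, p', hp', hF', -⟩ := mem_G.1 hn
    rw [parse_eq] at hp'
    simp only [Option.some.injEq, Prod.mk.injEq] at hp'
    obtain ⟨rfl, rfl⟩ := hp'
    have hz' := F_of hc hF'
    have heq := Part.mem_unique hz hz'
    rw [heq]
    exact ⟨hdom, rfl⟩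

end XEXF

/-- EXF -/
theorem t_EXF : S_EXF := ⟨XEXF.V, XEXF.V_partrec, XEXF.V_pf, XEXF.V_opt⟩

end Pool.Agent.H662.CK
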