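import Pool.Agent.H662.CK.Stm

/-! # Existence of an optimal plain machine -/

set_option autoImplicit false

namespace Pool.Agent.H662.CK

open Pool.Agent.H662.TR (Str strs)

namespace XEXP

open Nat.Partrec

/-- the universal machine: on input `true^e false p` it runs the `e`-th code on `p` -/
noncomputable def W (x : Str) : Part Str :=
  (Code.eval (Denumerable.ofNat Code (x.idxOf false))
    (Encodable.encode (x.drop (x.idxOf false + 1)))).bind
    (fun n => ((Encodable.decode (α := Str) n : Option Str) : Part Str))

lemma W_partrec : Partrec W := by
  have h1 : Computable (fun x : Str => x.idxOf false) :=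
    (Primrec.list_idxOf.comp (Primrec.const false) Primrec.id).to_comp
  have h2 : Computable (fun x : Str => Denumerable.ofNat Code (x.idxOf false)) :=
    (Primrec.ofNat Code).to_comp.comp h1
  have h3 : Computable (fun x : Str => Encodable.encode (x.drop (x.idxOf false + 1))) :=
    (Primrec.encode.comp (Primrec.list_drop.comp
      (Primrec.succ.comp (Primrec.list_idxOf.comp (Primrec.const false) Primrec.id))
      Primrec.id)).to_comp
  have h4 : Partrec (fun x : Str => Code.eval (Denumerable.ofNat Code (x.idxOf false))
    (Encodable.encode (x.drop (x.idxOf false + 1)))) := Code.eval_part.comp h2 h3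
  have h5 : Partrec (fun n : ℕ => ((Encodable.decode (α := Str) n : Option Str) : Part Str)) :=
    Primrec.decode.to_comp.ofOption
  exact h4.bind (h5.comp Computable.snd)

lemma W_apply (e : ℕ) (p : Str) : W (List.replicate e true ++ false :: p) =
    (Code.eval (Denumerable.ofNat Code e) (Encodable.encode p)).bind
      (fun n => ((Encodable.decode (α := Str) n : Option Str) : Part Str)) := by
  have h1 : (List.replicate e true ++ false :: p).idxOf false = e := by
    induction e with
    | zero => simp
    | succ e ih => rw [List.replicate_succ, List.cons_append, List.idxOf_cons_ne _ (by simp), ih]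
  have h2 : (List.replicate e true ++ false :: p).drop (e + 1) = p := by
    clear h1
    induction e with
    | zero => simp
    | succ e ih => rw [List.replicate_succ, List.cons_append, List.drop_succ_cons]; exact ih
  unfold W
  rw [h1, h2]

end XEXP

theorem t_EXP : S_EXP := by
  refine ⟨XEXP.W, XEXP.W_partrec, ?_⟩
  intro M hM
  obtain ⟨c, hc⟩ := Nat.Partrec.Code.exists_code.1 hM
  refine ⟨Encodable.encode c + 1, ?_⟩
  intro p z hz
  refine ⟨List.replicate (Encodable.encode c) true ++ false :: p, ?_, ?_⟩
  · simp
    omega
  · rw [XEXP.W_apply, Denumerable.ofNat_encode, hc]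
    rw [Part.mem_bind_iff]
    refine ⟨Encodable.encode z, ?_, ?_⟩
    · simpa using hz
    · simp

end Pool.Agent.H662.CK
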