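import Pool.Agent.H662.CK.Stm

/-!
# FC: the final contradiction by weight, by helper550
-/

set_option autoImplicit false

namespace Pool.Agent.H662.CK

open Pool.Agent.H662.TR (Str strs)

namespace XFC

/-- length of the programs of the strings of a successful round -/
def kap (m a : ℕ) (e : (ℕ × ℕ) × List Str) : ℕ := uu m a e.1.1 e.1.2 + oo a - SS a

theorem jj_ge (m a r : ℕ) : 4 ≤ jj m a r := by
  have h : 4 ≤ qq m a + 1 := by
    unfold qq oo
    omega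
  unfold jj
  calc 4 = 1 * 4 := rfl
    _ ≤ (r + 1) * (qq m a + 1) := Nat.mul_le_mul (by omega) h

theorem kap_add (m a : ℕ) (e : (ℕ × ℕ) × List Str) (hi : e.1.2 ≤ RR m a) :
    kap m a e + 5 + e.1.2 = jj m a e.1.1 + L0 m a := by
  have h := jj_ge m a e.1.1
  unfold kap uu SS L0
  omega

theorem low (m a : ℕ) (e : (ℕ × ℕ) × List Str) (hi : e.1.2 ≤ RR m a)
    (hl : 2 ^ jj m a e.1.1 ≤ 2 * e.2.length) :
    8 / (2 : ℝ) ^ L0 m a * 2 ^ (e.1.2 + 1) ≤ (e.2.length : ℝ) * (1 / 2) ^ kap m a e := by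
  have h := kap_add m a e hi
  have h2 : (2 : ℝ) * (8 * 2 ^ (e.1.2 + 1) * 2 ^ kap m a e) =
      2 ^ jj m a e.1.1 * 2 ^ L0 m a := by
    rw [← pow_add, ← h]
    ring
  have h3 : (2 : ℝ) ^ jj m a e.1.1 ≤ 2 * (e.2.length : ℝ) := by exact_mod_cast hl
  have h4 : (0 : ℝ) < 2 ^ L0 m a := by positivity
  have h5 : (0 : ℝ) < 2 ^ kap m a e := by positivity
  rw [one_div, inv_pow, ← div_eq_mul_inv, div_mul_eq_mul_div, div_le_div_iff₀ h4 h5]
  have h6 := mul_le_mul_of_nonneg_right h3 h4.le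
  linarith

theorem kraft (hKRF : S_KRF) (hGRP : S_GRP) {c : Ctx} {W V : Str →. Str} (hc : Hyp c W V)
    (hPF : PF V) {a s : ℕ} {B : List ((ℕ × ℕ) × List Str)}
    (hB : ∀ e ∈ B, e.1.2 ≤ RR c.m a ∧ e.2.Sublist (Gp c.m a e.1.1 e.1.2) ∧
      ∀ x ∈ e.2, c.PV ((kap c.m a e, x), s) = true)
    (hn : (B.map (fun e => e.1)).Nodup) :
    (B.map (fun e => (e.2.length : ℝ) * (1 / 2) ^ kap c.m a e)).sum ≤ 1 := by
  classical
  have hBn : B.Nodup := List.Nodup.of_map _ hn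
  have huniq : ∀ e ∈ B, ∀ e' ∈ B, ∀ x, x ∈ e.2 → x ∈ e'.2 → e = e' := by
    intro e he e' he' x hx hx'
    have h1 := (hGRP c.m a).2 e.1.1 e.1.2 e'.1.1 e'.1.2 (hB e he).1 (hB e' he').1 x
      ((hB e he).2.1.subset hx) ((hB e' he').2.1.subset hx')
    exact List.inj_on_of_nodup_map hn he he' (Prod.ext h1.1 h1.2)
  have hk : ∃ k : Str → ℕ, ∀ e ∈ B, ∀ x ∈ e.2, k x = kap c.m a e := by
    refine ⟨fun x => if h : ∃ e ∈ B, x ∈ e.2 then kap c.m a h.choose else 0, ?_⟩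
    intro e he x hx
    have h : ∃ e ∈ B, x ∈ e.2 := ⟨e, he, hx⟩
    have h2 : h.choose = e := huniq _ h.choose_spec.1 e he x h.choose_spec.2 hx
    show (if h : ∃ e ∈ B, x ∈ e.2 then kap c.m a h.choose else 0) = _
    rw [dif_pos h, h2]
  obtain ⟨k, hk⟩ := hk
  have h1 := hKRF V hPF (B.toFinset.biUnion fun e => e.2.toFinset) k (by
    intro x hx
    obtain ⟨e, he, hx⟩ := Finset.mem_biUnion.1 hx
    rw [List.mem_toFinset] at he hx
    rw [hk e he x hx]
    exact (hc.iffV _ _).1 ⟨s, (hB e he).2.2 x hx⟩)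
  rw [Finset.sum_biUnion] at h1
  · rw [← List.sum_toFinset _ hBn]
    refine le_trans (le_of_eq ?_) h1
    refine Finset.sum_congr rfl fun e he => ?_
    rw [List.mem_toFinset] at he
    have h2 : ∀ x ∈ e.2.toFinset, ((1 : ℝ) / 2) ^ k x = (1 / 2) ^ kap c.m a e := by
      intro x hx
      rw [hk e he x (List.mem_toFinset.1 hx)]
    rw [Finset.sum_congr rfl h2, Finset.sum_const, nsmul_eq_mul, List.toFinset_card_of_nodup]
    exact ((hGRP c.m a).1 e.1.1 e.1.2).1.sublist (hB e he).2.1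
  · intro e he e' he' hne
    rw [Finset.mem_coe, List.mem_toFinset] at he he'
    show Disjoint e.2.toFinset e'.2.toFinset
    rw [Finset.disjoint_left]
    intro x hx hx'
    rw [List.mem_toFinset] at hx hx'
    exact hne (huniq e he e' he' x hx hx')

theorem sum_low {c : Ctx} {a : ℕ} {B : List ((ℕ × ℕ) × List Str)}
    (hB : ∀ e ∈ B, e.1.2 ≤ RR c.m a ∧ 2 ^ jj c.m a e.1.1 ≤ 2 * e.2.length) :
    8 / (2 : ℝ) ^ L0 c.m a * (((B.map (fun e => 2 ^ (e.1.2 + 1))).sum : ℕ) : ℝ) ≤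
      (B.map (fun e => (e.2.length : ℝ) * (1 / 2) ^ kap c.m a e)).sum := by
  induction B with
  | nil => simp
  | cons e B ih =>
    have h1 := low c.m a e (hB e List.mem_cons_self).1 (hB e List.mem_cons_self).2
    have h2 := ih fun e' he' => hB e' (List.mem_cons_of_mem _ he')
    rw [List.map_cons, List.map_cons, List.sum_cons, List.sum_cons]
    push_cast at h2 ⊢
    rw [mul_add]
    exact add_le_add h1 h2

end XFC

/-- FC -/
theorem t_FC (hII : S_II) (hKD : S_KD) (hKRF : S_KRF) (hGRP : S_GRP) : S_FC := by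
  intro c W V hc hPF a s hr ht hZ
  obtain ⟨A, B, hI⟩ := hII c W V hc a s
  obtain ⟨z, hz⟩ : ∃ z, z = st c a s := ⟨_, rfl⟩
  rw [← hz] at hI hr ht hZ
  have hT : 0 < TT c.m a := by
    unfold TT
    exact Nat.mul_pos (Nat.succ_pos _) (Nat.succ_pos _)
  have hB : ∀ e ∈ ((zr z, zi z), zact z) :: B, e.1.2 ≤ RR c.m a ∧
      e.2.Sublist (Gp c.m a e.1.1 e.1.2) ∧ 2 ^ jj c.m a e.1.1 ≤ 2 * e.2.length ∧
      ∀ x ∈ e.2, c.PV ((XFC.kap c.m a e, x), s) = true := by
    intro e he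
    rcases List.mem_cons.1 he with rfl | he
    · refine ⟨hI.iR, hI.asub, ?_, hKD c W V hc a s z A B hI hr ht⟩
      have h1 := hI.abig
      rw [ht] at h1
      have h2 : TT c.m a * 2 ^ jj c.m a (zr z) ≤ TT c.m a * (2 * (zact z).length) := by
        have h3 : 2 * TT c.m a * 2 ^ jj c.m a (zr z) =
          TT c.m a * 2 ^ jj c.m a (zr z) + TT c.m a * 2 ^ jj c.m a (zr z) := by ring
        have h4 : 2 * TT c.m a * (zact z).length = TT c.m a * (2 * (zact z).length) := by ring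
        omega
      exact Nat.le_of_mul_le_mul_left h2 hT
    · obtain ⟨-, h1, h2, h3, h4⟩ := hI.B1 e he
      exact ⟨h1, h2, h3, h4⟩
  have hn : ((((zr z, zi z), zact z) :: B).map (fun e => e.1)).Nodup := by
    rw [List.map_cons, List.nodup_cons]
    refine ⟨fun h => ?_, hI.B2⟩
    obtain ⟨e, he, h1⟩ := List.mem_map.1 h
    have h2 := (hI.B1 e he).1
    rw [h1] at h2
    exact lt_irrefl _ h2
  have h1 := XFC.kraft hKRF hGRP hc hPF (fun e he => ⟨(hB e he).1, (hB e he).2.1, (hB e he).2.2.2⟩) hn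
  have h2 := XFC.sum_low (c := c) (a := a) fun e he => ⟨(hB e he).1, (hB e he).2.2.1⟩
  have h3 : zZ z ≤ ((((zr z, zi z), zact z) :: B).map (fun e => 2 ^ (e.1.2 + 1))).sum := by
    rw [List.map_cons, List.sum_cons, add_comm]
    exact hI.Z1
  have h4 : 2 ^ (L0 c.m a - 2) ≤
      ((((zr z, zi z), zact z) :: B).map (fun e => 2 ^ (e.1.2 + 1))).sum := hZ.trans h3
  have h5 : (2 : ℝ) ^ (L0 c.m a - 2) ≤
      (((((zr z, zi z), zact z) :: B).map (fun e => 2 ^ (e.1.2 + 1))).sum : ℕ) := by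
    exact_mod_cast h4
  have h6 : (0 : ℝ) < 2 ^ L0 c.m a := by positivity
  have h7 : (2 : ℝ) ^ L0 c.m a = 2 ^ (L0 c.m a - 2) * 4 := by
    have : L0 c.m a = L0 c.m a - 2 + 2 := by
      unfold L0
      omega
    rw [this, pow_add]
    norm_num
  have h8 := mul_le_mul_of_nonneg_left h5 (div_pos (by norm_num : (0 : ℝ) < 8) h6).le
  have h9 : 8 / (2 : ℝ) ^ L0 c.m a * 2 ^ (L0 c.m a - 2) = 2 := by
    have h10 : (0 : ℝ) < 2 ^ (L0 c.m a - 2) := by positivity
    rw [h7]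
    field_simp
    norm_num
  rw [h9] at h8
  linarith [h8.trans (h2.trans h1)]

end Pool.Agent.H662.CK
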