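import Pool.Agent.H662.CK.Stm

/-!
# FZ: the process stops
-/

set_option autoImplicit false

namespace Pool.Agent.H662.CK

open Pool.Agent.H662.TR (Str strs)

namespace XFZ

/-- the measure which increases at every change of the state -/
def mu (c : Ctx) (a : ℕ) (z : Stt) : ℕ := zZ z * (TT c.m a + 1) + zt z

theorem mu_newr (c : Ctx) (a r i : ℕ) (z : Stt) (M N : List (ℕ × Str)) (h : zt z ≤ TT c.m a) :
    mu c a z + 1 ≤ mu c a (newr c.m a r i M N (zZ z)) := by
  have h1 : zZ (newr c.m a r i M N (zZ z)) = zZ z + 2 ^ i := rfl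
  have h2 : zt (newr c.m a r i M N (zZ z)) = 0 := rfl
  have h3 : 1 ≤ 2 ^ i := Nat.one_le_two_pow
  have h4 : (zZ z + 1) * (TT c.m a + 1) ≤ (zZ z + 2 ^ i) * (TT c.m a + 1) :=
    Nat.mul_le_mul_right _ (Nat.add_le_add_left h3 _)
  have h5 : (zZ z + 1) * (TT c.m a + 1) = zZ z * (TT c.m a + 1) + (TT c.m a + 1) := by ring
  unfold mu
  rw [h1, h2]
  omega

theorem mu_adv (c : Ctx) (a s : ℕ) (z : Stt) : mu c a (adv c a s z) = mu c a z + 1 := rfl

theorem step (c : Ctx) (a s : ℕ) (z : Stt) (h : zt z ≤ TT c.m a) (hr : rdy c a s z = true)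
    (hn : zt z = TT c.m a → ¬ 2 ^ (L0 c.m a - 2) ≤ zZ z) :
    mu c a z + 1 ≤ mu c a (nxt c a s z) := by
  unfold nxt
  rw [if_pos hr]
  split_ifs with h1 h2 h3
  · exact mu_newr c a _ _ z _ _ h
  · exact (mu_adv c a s z).ge
  · exact absurd h3 (hn (le_antisymm h (not_lt.1 h1)))
  · exact mu_newr c a _ _ z _ _ h

end XFZ

open XFZ

theorem t_FZ (hRD : S_RD) (hII : S_II) : S_FZ := by
  intro c W V hH a hV hlam
  by_contra hno
  have hno' : ∀ s, rdy c a s (st c a s) = true → zt (st c a s) = TT c.m a →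
      ¬ 2 ^ (L0 c.m a - 2) ≤ zZ (st c a s) := fun s h1 h2 h3 => hno ⟨s, h1, h2, h3⟩
  have hT : ∀ s, zt (st c a s) ≤ TT c.m a := fun s => by
    obtain ⟨A, B, h⟩ := hII c W V hH a s
    exact h.tT
  have hstep : ∀ s, rdy c a s (st c a s) = true →
      mu c a (st c a s) + 1 ≤ mu c a (st c a (s + 1)) := fun s hr =>
    step c a s _ (hT s) hr (hno' s hr)
  have halt : ∀ s k, st c a (s + k) = st c a s ∨
      mu c a (st c a s) + 1 ≤ mu c a (st c a (s + k)) := by
    intro s k
    induction k with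
    | zero => exact Or.inl rfl
    | succ k ih =>
      by_cases hr : rdy c a (s + k) (st c a (s + k)) = true
      · right
        have h1 := hstep (s + k) hr
        rcases ih with ih | ih
        · rw [ih] at h1
          exact h1
        · exact (ih.trans (Nat.le_succ _)).trans h1
      · have h2 : st c a (s + (k + 1)) = st c a (s + k) := by
          show nxt c a (s + k) (st c a (s + k)) = st c a (s + k)
          unfold nxt
          rw [if_neg hr]
        rw [h2]
        exact ih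
  have hinc : ∀ s, ∃ s', mu c a (st c a s) + 1 ≤ mu c a (st c a s') := by
    intro s
    obtain ⟨s0, hs0⟩ := hRD c W V hH a hV hlam s
    rcases halt s s0 with h | h
    · have hr : rdy c a (s + s0) (st c a (s + s0)) = true := by
        rw [h]
        exact hs0 _ (Nat.le_add_left _ _)
      have h1 := hstep _ hr
      rw [h] at h1
      exact ⟨_, h1⟩
    · exact ⟨_, h⟩
  have hunb : ∀ n, ∃ s, n ≤ mu c a (st c a s) := by
    intro n
    induction n with
    | zero => exact ⟨0, Nat.zero_le _⟩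
    | succ n ih =>
      obtain ⟨s, hs⟩ := ih
      obtain ⟨s', hs'⟩ := hinc s
      exact ⟨s', (Nat.add_le_add_right hs 1).trans hs'⟩
  obtain ⟨s, hs⟩ := hunb ((2 ^ (L0 c.m a - 2) + 2 ^ (RR c.m a + 1)) * (TT c.m a + 1) +
    TT c.m a + 1)
  obtain ⟨A, B, h⟩ := hII c W V hH a s
  have h1 : zZ (st c a s) ≤ 2 ^ (L0 c.m a - 2) + 2 ^ (RR c.m a + 1) :=
    h.Z2.trans (Nat.add_le_add_left (Nat.pow_le_pow_right (by norm_num)
      (Nat.add_le_add_right h.iR 1)) _)
  have h3 : mu c a (st c a s) ≤ (2 ^ (L0 c.m a - 2) + 2 ^ (RR c.m a + 1)) * (TT c.m a + 1) +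
      TT c.m a := Nat.add_le_add (Nat.mul_le_mul_right _ h1) h.tT
  exact absurd (hs.trans h3) (Nat.not_succ_le_self _)

end Pool.Agent.H662.CK
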