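import Pool.Agent.H662.CK.Stm

/-!
# GRP: disjoint groups of strings (helper897 for helper662)
-/

set_option autoImplicit false

namespace Pool.Agent.H662.CK

open Pool.Agent.H662.TR (Str strs)

namespace XGRP

theorem len_of_mem {m a r i : ℕ} {x : Str} (hx : x ∈ Gp m a r i) :
    x.length = jj m a r + (r * (RR m a + 1) + i) := by
  unfold Gp at hx
  rw [List.mem_map] at hx
  obtain ⟨σ, hσ, rfl⟩ := hx
  rw [List.length_append, List.length_replicate, Pool.Agent.H662.TR.mem_strs.1 hσ]

theorem aux {R q r i r' i' : ℕ} (hi : i ≤ R) (h : r < r')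
    (he : (r + 1) * q + (r * (R + 1) + i) = (r' + 1) * q + (r' * (R + 1) + i')) : False := by
  obtain ⟨d, rfl⟩ : ∃ d, r' = r + d + 1 := ⟨r' - r - 1, by omega⟩
  have h1 : (r + d + 1 + 1) * q = (r + 1) * q + (d + 1) * q := by ring
  have h2 : (r + d + 1) * (R + 1) = r * (R + 1) + d * (R + 1) + (R + 1) := by ring
  rw [h1, h2] at he
  omega

end XGRP

theorem t_GRP : S_GRP := by
  intro m a
  refine ⟨fun r i => ⟨?_, ?_⟩, fun r i r' i' hi hi' x hx hx' => ?_⟩
  · unfold Gp
    exact (Pool.Agent.H662.TR.nodup_strs _).map (List.append_left_injective _)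
  · unfold Gp
    rw [List.length_map, Pool.Agent.H662.TR.length_strs]
  · have h1 := XGRP.len_of_mem hx
    have h2 := XGRP.len_of_mem hx'
    have he : (r + 1) * (qq m a + 1) + (r * (RR m a + 1) + i) =
        (r' + 1) * (qq m a + 1) + (r' * (RR m a + 1) + i') := h1.symm.trans h2
    have hr : r = r' := by
      rcases lt_trichotomy r r' with h | h | h
      · exact (XGRP.aux hi h he).elim
      · exact h
      · exact (XGRP.aux hi' h he.symm).elim
    subst hr
    exact ⟨rfl, by omega⟩

end Pool.Agent.H662.CK
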