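import Pool.Agent.H662.CK.Stm

/-!
# I0: the invariant holds in the initial state
-/

set_option autoImplicit false

namespace Pool.Agent.H662.CK

open Pool.Agent.H662.TR (Str strs)

namespace XI0

theorem sum_const {α : Type} (k : ℕ) (l : List α) :
    ((l.map (fun x => ((k, x) : ℕ × α))).map (fun e => ((1:ℝ) / 2) ^ e.1)).sum =
      (l.length : ℝ) * ((1:ℝ) / 2) ^ k := by
  induction l with
  | nil => simp
  | cons x l ih =>
    rw [List.map_cons, List.map_cons, List.sum_cons, ih, List.length_cons]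
    push_cast
    ring

end XI0

theorem t_I0 (hGRP : S_GRP) (hNUM : S_NUM) : S_I0 := by
  intro c W V _ a
  obtain ⟨hG1, -⟩ := hGRP c.m a
  obtain ⟨-, -, -, hN4, -, -, hT⟩ := hNUM c.m a
  have hlen : (Gp c.m a 0 0).length = 2 ^ jj c.m a 0 := (hG1 0 0).2
  have e : st c a 0 = newr c.m a 0 0 [] [] 0 := rfl
  rw [e]
  refine
    { iR := Nat.zero_le _
      tT := Nat.zero_le _
      asub := List.Sublist.refl _
      abig := ?_
      A1 := fun e he => absurd he List.not_mem_nil
      A4 := fun e he => absurd he List.not_mem_nil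
      A2 := List.nodup_nil
      A3 := rfl
      B1 := fun e he => absurd he List.not_mem_nil
      B2 := List.nodup_nil
      Z1 := ?_
      Z2 := ?_
      K1 := fun x _ h => absurd h (by show ¬ 1 ≤ 0; omega)
      K2 := fun x _ => Nat.zero_le _
      M1 := ?_
      M2 := ?_
      N1 := ?_
      R1 := ?_ }
  · show 2 * TT c.m a * 2 ^ jj c.m a 0 ≤
      2 * TT c.m a * (Gp c.m a 0 0).length + 0 * 2 ^ jj c.m a 0
    rw [hlen]
    omega
  · show 0 + 2 ^ 0 ≤ 0 + 2 ^ (0 + 1)
    norm_num
  · show 0 + 2 ^ 0 ≤ 2 ^ (L0 c.m a - 2) + 2 ^ (0 + 1)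
    have : 0 < 2 ^ (L0 c.m a - 2) := by positivity
    omega
  · intro e he
    have he' : e ∈ [] ++ (Gp c.m a 0 0).map (fun x => (gg c.m a 0 0 - oo a, x)) := he
    rw [List.nil_append, List.mem_map] at he'
    obtain ⟨x, _, rfl⟩ := he'
    exact ⟨0, 0, Nat.zero_le _, Nat.zero_le _, rfl⟩
  · intro r t ht
    show (([] ++ (Gp c.m a 0 0).map (fun x => (gg c.m a 0 0 - oo a, x))).filter
      (fun e : ℕ × Str => decide (e.1 = gg c.m a r t - oo a))).length ≤ 2 ^ jj c.m a r *
      ((([] : List ((ℕ × ℕ × ℕ) × List Str)).filter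
          (fun e => decide (e.1.1 = r ∧ t ≤ e.1.2.2))).length +
        (if r < 0 ∨ r = 0 ∧ t ≤ 0 then 1 else 0))
    rw [List.nil_append, List.filter_nil, List.length_nil]
    by_cases h : r = 0 ∧ t ≤ 0
    · rw [if_pos (Or.inr h), h.1]
      refine le_trans (List.length_filter_le _ _) ?_
      rw [List.length_map, hlen]
      omega
    · have h0 : ((Gp c.m a 0 0).map (fun x => (gg c.m a 0 0 - oo a, x))).filter
          (fun e => decide (e.1 = gg c.m a r t - oo a)) = [] := by
        rw [List.filter_eq_nil_iff]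
        intro e he
        rw [List.mem_map] at he
        obtain ⟨x, _, rfl⟩ := he
        intro h1
        have h2 : gg c.m a 0 0 - oo a = gg c.m a r t - oo a := of_decide_eq_true h1
        obtain ⟨h3, h4⟩ := hN4 0 0 r t (Nat.zero_le _) ht h2
        exact h ⟨h3.symm, by omega⟩
      rw [h0]
      exact Nat.zero_le _
  · have hz : zZ (newr c.m a 0 0 [] [] 0) = 1 := rfl
    have hn : zN (newr c.m a 0 0 [] [] 0) =
        (Gp c.m a 0 0).map (fun x => ((uu c.m a 0 0, x) : ℕ × Str)) := rfl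
    rw [hz, hn, XI0.sum_const, hlen]
    have hu : uu c.m a 0 0 = jj c.m a 0 + L0 c.m a := rfl
    rw [hu, pow_add, one_div, inv_pow, inv_pow]
    have h1 : ((2:ℝ) ^ jj c.m a 0) ≠ 0 := by positivity
    have h2 : ((2:ℝ) ^ L0 c.m a) ≠ 0 := by positivity
    push_cast
    field_simp
  · intro x hx
    have hx' : x ∈ Gp c.m a 0 0 := hx
    constructor
    · show (gg c.m a 0 0 - oo a, x) ∈ [] ++ (Gp c.m a 0 0).map (fun x => (gg c.m a 0 0 - oo a, x))
      rw [List.nil_append]
      exact List.mem_map.2 ⟨x, hx', rfl⟩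
    · show (uu c.m a 0 0, x) ∈ [] ++ (Gp c.m a 0 0).map (fun x => (uu c.m a 0 0, x))
      rw [List.nil_append]
      exact List.mem_map.2 ⟨x, hx', rfl⟩

end Pool.Agent.H662.CK
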