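import Pool.Agent.H662.CK.Stm

/-!
# CK IA: the invariant is preserved by an advance step
-/

set_option autoImplicit false

namespace Pool.Agent.H662.CK

open Pool.Agent.H662.TR (Str strs)

namespace XIA

theorem rdy_mem {c : Ctx} {a s : ℕ} {z : Stt} (h : rdy c a s z = true) {x : Str}
    (hx : x ∈ zact z) :
    c.PW ((gg c.m a (zr z) (zt z), x), s) = true ∧
    c.PV ((uu c.m a (zr z) (zi z) + oo a, x), s) = true ∧
    lst c.PW (gg c.m a (zr z) (zt z)) x s ∈
      c.lam ((x, lst c.PV (uu c.m a (zr z) (zi z) + oo a) x s), s) := by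
  have h1 := (List.all_eq_true.1 h) x hx
  simpa [rdy1] using h1

theorem kps_mem {c : Ctx} {a s : ℕ} {z : Stt} {x : Str} (hx : x ∈ kps c a s z) :
    x ∈ zact z ∧ c.PW ((gg c.m a (zr z) (zt z + 1), x), s) = false := by
  simpa [kps] using hx

theorem len_add (c : Ctx) (a s : ℕ) (z : Stt) :
    (zact z).length = (lps c a s z).length + (kps c a s z).length := by
  unfold lps kps
  exact List.length_eq_length_filter_add _

/-- the count for K2 -/
theorem card_step {c : Ctx} {W V : Str →. Str} (hc : Hyp c W V) (hLST : S_LST) {a s : ℕ} {z : Stt}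
    (hr : rdy c a s z = true) (hlt : gg c.m a (zr z) (zt z + 1) < gg c.m a (zr z) (zt z))
    {x : Str} (hx : x ∈ kps c a s z) :
    ((c.lam ((x, lst c.PV (uu c.m a (zr z) (zi z) + oo a) x s), s)).toFinset.filter
      (fun v => gg c.m a (zr z) (zt z) < v)).card + 1 ≤
    ((c.lam ((x, lst c.PV (uu c.m a (zr z) (zi z) + oo a) x s), s)).toFinset.filter
      (fun v => gg c.m a (zr z) (zt z + 1) < v)).card := by
  obtain ⟨hxa, hxf⟩ := kps_mem hx
  obtain ⟨h1, -, h3⟩ := rdy_mem hr hxa
  obtain ⟨l1, -, l3, -⟩ := hLST c.PW hc.monoW (gg c.m a (zr z) (zt z)) x s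
  have hv : gg c.m a (zr z) (zt z + 1) < lst c.PW (gg c.m a (zr z) (zt z)) x s := by
    by_contra hcon
    have h4 := hc.monoW _ (gg c.m a (zr z) (zt z + 1)) x s s (not_lt.1 hcon) le_rfl (l3 h1)
    rw [hxf] at h4
    exact Bool.noConfusion h4
  have hnot : lst c.PW (gg c.m a (zr z) (zt z)) x s ∉
      (c.lam ((x, lst c.PV (uu c.m a (zr z) (zi z) + oo a) x s), s)).toFinset.filter
      (fun v => gg c.m a (zr z) (zt z) < v) := by
    intro hm
    exact absurd (Finset.mem_filter.1 hm).2 (not_lt.2 l1)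
  rw [← Finset.card_insert_of_notMem hnot]
  apply Finset.card_le_card
  intro y hy
  rcases Finset.mem_insert.1 hy with rfl | hy
  · exact Finset.mem_filter.2 ⟨List.mem_toFinset.2 h3, hv⟩
  · exact Finset.mem_filter.2 ⟨(Finset.mem_filter.1 hy).1, lt_trans hlt (Finset.mem_filter.1 hy).2⟩

end XIA

open XIA

theorem t_IA (hGRP : S_GRP) (hNUM : S_NUM) (hLST : S_LST) : S_IA := by
  intro c W V hc a s z A B hI hr htT hlp
  obtain ⟨-, -, n3, n4, -, -, -⟩ := hNUM c.m a
  have hkl : (kps c a s z).length ≤ 2 ^ jj c.m a (zr z) := by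
    have h1 : (kps c a s z).length ≤ (zact z).length := List.length_filter_le _ _
    have h2 := hI.asub.length_le
    rw [((hGRP c.m a).1 (zr z) (zi z)).2] at h2
    exact h1.trans h2
  refine ⟨hI.iR, ?_, ?_, ?_, hI.A1, hI.A4, hI.A2, hI.A3, hI.B1, hI.B2, hI.Z1, hI.Z2, ?_, ?_, ?_, ?_,
    hI.N1, ?_⟩
  · change zt z + 1 ≤ TT c.m a
    omega
  · change (kps c a s z).Sublist (Gp c.m a (zr z) (zi z))
    exact List.filter_sublist.trans hI.asub
  · change 2 * TT c.m a * 2 ^ jj c.m a (zr z) ≤
      2 * TT c.m a * (kps c a s z).length + (zt z + 1) * 2 ^ jj c.m a (zr z)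
    have h1 := hI.abig
    rw [len_add c a s z] at h1
    have h2 := not_le.1 hlp
    nlinarith [h1, h2]
  · intro x hx _
    change x ∈ kps c a s z at hx
    exact (rdy_mem hr (kps_mem hx).1).2.1
  · intro x hx
    change x ∈ kps c a s z at hx
    have h1 := hI.K2 x (kps_mem hx).1
    have h2 := card_step hc hLST hr (n3 (zr z) (zt z) htT) hx
    change zt z + 1 ≤ (c.m + 1) * (uu c.m a (zr z) (zi z) + oo a -
      lst c.PV (uu c.m a (zr z) (zi z) + oo a) x s) +
      ((c.lam ((x, lst c.PV (uu c.m a (zr z) (zi z) + oo a) x s), s)).toFinset.filter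
        (fun v => gg c.m a (zr z) (zt z + 1) < v)).card
    omega
  · intro e he
    change e ∈ zM z ++ (kps c a s z).map
      (fun x => (gg c.m a (zr z) (zt z + 1) - oo a, x)) at he
    rcases List.mem_append.1 he with he | he
    · exact hI.M1 e he
    · obtain ⟨x, -, rfl⟩ := List.mem_map.1 he
      exact ⟨zr z, zt z + 1, le_rfl, htT, rfl⟩
  · intro r t ht
    have h1 := hI.M2 r t ht
    change ((zM z ++ (kps c a s z).map
      (fun x => (gg c.m a (zr z) (zt z + 1) - oo a, x))).filter
        (fun e => decide (e.1 = gg c.m a r t - oo a))).length ≤ 2 ^ jj c.m a r *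
      ((A.filter (fun e => decide (e.1.1 = r ∧ t ≤ e.1.2.2))).length +
        (if r < zr z ∨ r = zr z ∧ t ≤ zt z + 1 then 1 else 0))
    rw [List.filter_append, List.length_append]
    by_cases hrt : r = zr z ∧ t = zt z + 1
    · obtain ⟨rfl, rfl⟩ := hrt
      have h2 : (((kps c a s z).map
          (fun x => (gg c.m a (zr z) (zt z + 1) - oo a, x))).filter
          (fun e => decide (e.1 = gg c.m a (zr z) (zt z + 1) - oo a))).length ≤
          2 ^ jj c.m a (zr z) := by
        refine (List.length_filter_le _ _).trans ?_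
        rw [List.length_map]
        exact hkl
      rw [if_neg (by omega)] at h1
      rw [if_pos (Or.inr ⟨rfl, le_rfl⟩)]
      rw [Nat.mul_add]
      rw [Nat.mul_add] at h1
      omega
    · have h2 : (((kps c a s z).map
          (fun x => (gg c.m a (zr z) (zt z + 1) - oo a, x))).filter
          (fun e => decide (e.1 = gg c.m a r t - oo a))) = [] := by
        rw [List.filter_eq_nil_iff]
        intro e he
        obtain ⟨x, -, rfl⟩ := List.mem_map.1 he
        intro hd
        have hd' := of_decide_eq_true hd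
        obtain ⟨q1, q2⟩ := n4 (zr z) (zt z + 1) r t htT ht hd'
        exact hrt ⟨q1.symm, q2.symm⟩
      rw [h2, List.length_nil, Nat.add_zero]
      refine h1.trans (Nat.mul_le_mul_left _ (Nat.add_le_add_left ?_ _))
      split_ifs with p1 p2
      · exact le_rfl
      · exfalso
        apply p2
        rcases p1 with p1 | p1
        · exact Or.inl p1
        · exact Or.inr ⟨p1.1, by omega⟩
      · exact Nat.zero_le _
      · exact le_rfl
  · intro x hx
    change x ∈ kps c a s z at hx
    refine ⟨?_, (hI.R1 x (kps_mem hx).1).2⟩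
    change (gg c.m a (zr z) (zt z + 1) - oo a, x) ∈ zM z ++ (kps c a s z).map
      (fun x => (gg c.m a (zr z) (zt z + 1) - oo a, x))
    exact List.mem_append.2 (Or.inr (List.mem_map.2 ⟨x, hx, rfl⟩))

end Pool.Agent.H662.CK
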