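import Pool.Agent.H662.CK.Stm

/-!
# The invariant after an abandoned round (IB)
-/

set_option autoImplicit false

namespace Pool.Agent.H662.CK

open Pool.Agent.H662.TR (Str strs)

namespace XIB

theorem length_filter_const (l : List Str) (v w : ℕ) :
    ((l.map (fun x => (v, x))).filter (fun e : ℕ × Str => decide (e.1 = w))).length =
      if v = w then l.length else 0 := by
  induction l with
  | nil => simp
  | cons x l ih =>
    rw [List.map_cons, List.filter_cons]
    by_cases h : v = w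
    · rw [if_pos h] at ih ⊢
      rw [if_pos (decide_eq_true h), List.length_cons, ih, List.length_cons]
    · rw [if_neg h] at ih ⊢
      rw [if_neg (by rw [decide_eq_true_eq]; exact h), ih]

theorem sum_const (l : List Str) (v : ℕ) :
    ((l.map (fun x => (v, x))).map (fun e : ℕ × Str => ((1:ℝ) / 2) ^ e.1)).sum =
      (l.length : ℝ) * (1 / 2) ^ v := by
  induction l with
  | nil => simp
  | cons x l ih =>
    rw [List.map_cons, List.map_cons, List.sum_cons, ih, List.length_cons]
    push_cast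
    ring

theorem filter_cons_len {α : Type} (p : α → Bool) (e : α) (A : List α) :
    ((e :: A).filter p).length = (A.filter p).length + (if p e = true then 1 else 0) := by
  rw [List.filter_cons]
  by_cases h : p e = true
  · rw [if_pos h, if_pos h, List.length_cons]
  · rw [if_neg h, if_neg h, Nat.add_zero]

end XIB

open XIB

theorem t_IB (hGRP : S_GRP) (hNUM : S_NUM) (hCAP : S_CAP) : S_IB := by
  intro c W V hc a s z A B hI _ ht hl
  obtain ⟨hG1, hG2⟩ := hGRP c.m a
  obtain ⟨-, -, -, hN4, hN5, -, hN7⟩ := hNUM c.m a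
  obtain ⟨iR, tT, asub, abig, A1, A4, A2, A3, B1, B2, Z1, Z2, K1, K2, M1, M2, N1, R1⟩ := hI
  have hsub : (lps c a s z).Sublist (Gp c.m a (zr z) (zi z)) :=
    (List.filter_sublist).trans asub
  have hlp : ∀ x ∈ lps c a s z, c.PW ((gg c.m a (zr z) (zt z + 1), x), s) = true := by
    intro x hx
    exact (List.mem_filter.1 hx).2
  -- the list of the abandoned rounds
  have A1' : ∀ e ∈ ((zr z, zi z, zt z), lps c a s z) :: A,
      e.1.2.2 < TT c.m a ∧ e.1.2.1 ≤ RR c.m a ∧ e.2.Sublist (Gp c.m a e.1.1 e.1.2.1) ∧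
      2 ^ jj c.m a e.1.1 ≤ e.2.length * (2 * TT c.m a) ∧
      (∀ x ∈ e.2, c.PW ((gg c.m a e.1.1 (e.1.2.2 + 1), x), s) = true) := by
    intro e he
    rcases List.mem_cons.1 he with rfl | he
    · exact ⟨ht, iR, hsub, hl, hlp⟩
    · exact A1 e he
  have A2' : ((((zr z, zi z, zt z), lps c a s z) :: A).map (fun e => (e.1.1, e.1.2.1))).Nodup := by
    rw [List.map_cons, List.nodup_cons]
    refine ⟨fun hmem => ?_, A2⟩
    obtain ⟨e, he, heq⟩ := List.mem_map.1 hmem
    have h1 : e.1.1 = zr z := (Prod.mk.inj heq).1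
    have h2 : e.1.2.1 = zi z := (Prod.mk.inj heq).2
    rcases A4 e he with h3 | ⟨-, h3⟩
    · omega
    · omega
  have A3' : ((((zr z, zi z, zt z), lps c a s z) :: A).filter
      (fun e => decide (e.1.1 = zr z))).length = zi z + 1 := by
    rw [filter_cons_len, A3, if_pos (decide_eq_true rfl)]
  have hiR : zi z + 1 ≤ RR c.m a := by
    have h1 := hCAP c W V hc a s _ A1' A2' (zr z) 0 hN7
    have h2 : (((((zr z, zi z, zt z), lps c a s z) :: A).filter
        (fun e => decide (e.1.1 = zr z ∧ 0 ≤ e.1.2.2))).length) = zi z + 1 := by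
      rw [← A3']
      congr 1
      refine List.filter_congr fun e _ => ?_
      simp
    rw [h2] at h1
    have h3 := hN5 (zr z) 0 (zi z + 1) hN7 h1
    have h4 : 2 ^ (qq c.m a - 0 * LL c.m a - oo a) ≤ 2 ^ qq c.m a :=
      Nat.pow_le_pow_right (by norm_num) (by omega)
    unfold RR
    omega
  have hGl := (hG1 (zr z) (zi z + 1)).2
  refine ⟨hiR, Nat.zero_le _, List.Sublist.refl _, ?_, A1', ?_, A2', A3', B1, B2, ?_, ?_, ?_, ?_,
    ?_, ?_, ?_, ?_⟩
  · -- abig
    change 2 * TT c.m a * 2 ^ jj c.m a (zr z) ≤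
      2 * TT c.m a * (Gp c.m a (zr z) (zi z + 1)).length + 0 * 2 ^ jj c.m a (zr z)
    rw [hGl]
    omega
  · -- A4
    intro e he
    change e.1.1 < zr z ∨ e.1.1 = zr z ∧ e.1.2.1 < zi z + 1
    rcases List.mem_cons.1 he with rfl | he
    · exact Or.inr ⟨rfl, Nat.lt_succ_self _⟩
    · rcases A4 e he with h | ⟨h, h'⟩
      · exact Or.inl h
      · exact Or.inr ⟨h, by omega⟩
  · -- Z1
    change zZ z + 2 ^ (zi z + 1) ≤ (B.map (fun e => 2 ^ (e.1.2 + 1))).sum + 2 ^ (zi z + 1 + 1)
    rw [pow_succ 2 (zi z + 1)]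
    omega
  · -- Z2
    change zZ z + 2 ^ (zi z + 1) ≤ 2 ^ (L0 c.m a - 2) + 2 ^ (zi z + 1 + 1)
    rw [pow_succ 2 (zi z + 1)]
    omega
  · -- K1
    intro x _ h
    exact absurd h (by change ¬ 1 ≤ 0; omega)
  · -- K2
    intro x _
    exact Nat.zero_le _
  · -- M1
    intro e he
    change e ∈ zM z ++ (Gp c.m a (zr z) (zi z + 1)).map
      (fun x => (gg c.m a (zr z) 0 - oo a, x)) at he
    rcases List.mem_append.1 he with he | he
    · exact M1 e he
    · obtain ⟨x, -, rfl⟩ := List.mem_map.1 he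
      exact ⟨zr z, 0, le_rfl, Nat.zero_le _, rfl⟩
  · -- M2
    intro r' t' ht'
    change ((zM z ++ (Gp c.m a (zr z) (zi z + 1)).map
      (fun x => (gg c.m a (zr z) 0 - oo a, x))).filter
        (fun e => decide (e.1 = gg c.m a r' t' - oo a))).length ≤ 2 ^ jj c.m a r' *
      ((((((zr z, zi z, zt z), lps c a s z) :: A)).filter
        (fun e => decide (e.1.1 = r' ∧ t' ≤ e.1.2.2))).length +
        (if r' < zr z ∨ r' = zr z ∧ t' ≤ 0 then 1 else 0))
    have hM := M2 r' t' ht'
    rw [List.filter_append, List.length_append, length_filter_const, hGl, filter_cons_len]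
    obtain ⟨X, hX⟩ : ∃ X, X = ((zM z).filter
      (fun e => decide (e.1 = gg c.m a r' t' - oo a))).length := ⟨_, rfl⟩
    obtain ⟨Y, hY⟩ : ∃ Y, Y = (A.filter (fun e => decide (e.1.1 = r' ∧ t' ≤ e.1.2.2))).length :=
      ⟨_, rfl⟩
    rw [← hX, ← hY] at hM ⊢
    simp only [decide_eq_true_eq]
    by_cases hr : r' = zr z
    · by_cases htt : t' ≤ zt z
      · have c1 : r' < zr z ∨ r' = zr z ∧ t' ≤ zt z := Or.inr ⟨hr, htt⟩
        have c2 : zr z = r' ∧ t' ≤ zt z := ⟨hr.symm, htt⟩
        rw [if_pos c1] at hM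
        rw [if_pos c2]
        by_cases h0 : t' = 0
        · have c3 : gg c.m a (zr z) 0 - oo a = gg c.m a r' t' - oo a := by rw [hr, h0]
          have c4 : r' < zr z ∨ r' = zr z ∧ t' ≤ 0 := Or.inr ⟨hr, by omega⟩
          rw [if_pos c3, if_pos c4, ← hr]
          calc X + 2 ^ jj c.m a r' ≤ 2 ^ jj c.m a r' * (Y + 1) + 2 ^ jj c.m a r' := by omega
            _ = _ := by ring
        · have h1 : ¬ gg c.m a (zr z) 0 - oo a = gg c.m a r' t' - oo a := by
            intro h
            exact h0 (hN4 _ _ _ _ (Nat.zero_le _) ht' h).2.symm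
          have c4 : ¬ (r' < zr z ∨ r' = zr z ∧ t' ≤ 0) := by omega
          rw [if_neg h1, if_neg c4]
          omega
      · have c1 : ¬ (r' < zr z ∨ r' = zr z ∧ t' ≤ zt z) := by omega
        have c2 : ¬ (zr z = r' ∧ t' ≤ zt z) := by omega
        have c4 : ¬ (r' < zr z ∨ r' = zr z ∧ t' ≤ 0) := by omega
        rw [if_neg c1] at hM
        have h1 : ¬ gg c.m a (zr z) 0 - oo a = gg c.m a r' t' - oo a := by
          intro h
          have := (hN4 _ _ _ _ (Nat.zero_le _) ht' h).2
          omega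
        rw [if_neg h1, if_neg c2, if_neg c4]
        omega
    · have h1 : ¬ gg c.m a (zr z) 0 - oo a = gg c.m a r' t' - oo a := by
        intro h
        exact hr (hN4 _ _ _ _ (Nat.zero_le _) ht' h).1.symm
      have c2 : ¬ (zr z = r' ∧ t' ≤ zt z) := fun h => hr h.1.symm
      rw [if_neg h1, if_neg c2, Nat.add_zero, Nat.add_zero]
      have h2 : (r' < zr z ∨ r' = zr z ∧ t' ≤ zt z) ↔ (r' < zr z ∨ r' = zr z ∧ t' ≤ 0) := by
        constructor
        · rintro (h | h)
          · exact Or.inl h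
          · exact absurd h.1 hr
        · rintro (h | h)
          · exact Or.inl h
          · exact absurd h.1 hr
      simp only [h2] at hM
      exact hM
  · -- N1
    change ((zN z ++ (Gp c.m a (zr z) (zi z + 1)).map
      (fun x => (uu c.m a (zr z) (zi z + 1), x))).map (fun e => ((1:ℝ) / 2) ^ e.1)).sum =
        ((zZ z + 2 ^ (zi z + 1) : ℕ) : ℝ) / 2 ^ L0 c.m a
    rw [List.map_append, List.sum_append, N1, sum_const, hGl]
    push_cast
    rw [add_div]
    congr 1
    have h1 : uu c.m a (zr z) (zi z + 1) = jj c.m a (zr z) + (L0 c.m a - (zi z + 1)) := by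
      unfold uu L0
      omega
    have h2 : L0 c.m a = (zi z + 1) + (L0 c.m a - (zi z + 1)) := by
      unfold L0
      omega
    rw [h1, pow_add]
    obtain ⟨k, hk⟩ : ∃ k, k = L0 c.m a - (zi z + 1) := ⟨_, rfl⟩
    rw [← hk] at h2 ⊢
    rw [h2, one_div, inv_pow, inv_pow]
    field_simp
    ring
  · -- R1
    intro x hx
    exact ⟨List.mem_append_right _ (List.mem_map.2 ⟨x, hx, rfl⟩),
      List.mem_append_right _ (List.mem_map.2 ⟨x, hx, rfl⟩)⟩

end Pool.Agent.H662.CK
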