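import Pool.Agent.H662.CK.Stm

/-!
# CK IC: the invariant at a successful round (helper322 for helper662)
-/

set_option autoImplicit false

namespace Pool.Agent.H662.CK

open Pool.Agent.H662.TR (Str strs)

namespace XIC

theorem len_filter_map (G : List Str) (n k : ℕ) :
    ((G.map (fun x => (n, x))).filter (fun e : ℕ × Str => decide (e.1 = k))).length =
      if n = k then G.length else 0 := by
  rw [List.filter_map, List.length_map]
  by_cases h : n = k
  · rw [if_pos h]
    congr 1
    refine List.filter_eq_self.2 fun x _ => ?_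
    simpa using h
  · rw [if_neg h, List.length_eq_zero_iff]
    refine List.filter_eq_nil_iff.2 fun x _ => ?_
    simpa using h

theorem sum_map_const (G : List Str) (n : ℕ) :
    ((G.map (fun x => (n, x))).map (fun e : ℕ × Str => ((1:ℝ) / 2) ^ e.1)).sum =
      (G.length : ℝ) * ((1:ℝ) / 2) ^ n := by
  induction G with
  | nil => simp
  | cons x G ih =>
    rw [List.map_cons, List.map_cons, List.sum_cons, ih, List.length_cons]
    push_cast
    ring

end XIC

theorem t_IC (hGRP : S_GRP) (hNUM : S_NUM) (hKD : S_KD) : S_IC := by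
  intro c W V hyp a s z A B inv hr ht hZ
  obtain ⟨hG1, hG2⟩ := hGRP c.m a
  obtain ⟨-, -, -, hN4, -, -, hTpos⟩ := hNUM c.m a
  have hlen : (Gp c.m a (zr z + 1) 0).length = 2 ^ jj c.m a (zr z + 1) := (hG1 _ _).2
  refine
    { iR := Nat.zero_le _
      tT := Nat.zero_le _
      asub := List.Sublist.refl _
      abig := ?_
      A1 := inv.A1
      A4 := ?_
      A2 := inv.A2
      A3 := ?_
      B1 := ?_
      B2 := ?_
      Z1 := ?_
      Z2 := ?_
      K1 := ?_
      K2 := ?_
      M1 := ?_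
      M2 := ?_
      N1 := ?_
      R1 := ?_ }
  · change 2 * TT c.m a * 2 ^ jj c.m a (zr z + 1) ≤
      2 * TT c.m a * (Gp c.m a (zr z + 1) 0).length + 0 * 2 ^ jj c.m a (zr z + 1)
    rw [hlen]
    exact Nat.le_add_right _ _
  · intro e he
    change e.1.1 < zr z + 1 ∨ e.1.1 = zr z + 1 ∧ e.1.2.1 < 0
    left
    rcases inv.A4 e he with h | h
    · omega
    · omega
  · change (A.filter (fun e => decide (e.1.1 = zr z + 1))).length = 0
    rw [List.length_eq_zero_iff]
    refine List.filter_eq_nil_iff.2 fun e he => ?_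
    have h1 : e.1.1 ≠ zr z + 1 := by
      rcases inv.A4 e he with h | h
      · omega
      · omega
    simpa using h1
  · intro e he
    rcases List.mem_cons.1 he with rfl | he
    · refine ⟨Nat.lt_succ_self _, inv.iR, inv.asub, ?_, ?_⟩
      · have h1 := inv.abig
        rw [ht] at h1
        change 2 ^ jj c.m a (zr z) ≤ 2 * (zact z).length
        have h2 : TT c.m a * 2 ^ jj c.m a (zr z) ≤ TT c.m a * (2 * (zact z).length) := by
          have e1 : 2 * TT c.m a * 2 ^ jj c.m a (zr z) =
              TT c.m a * 2 ^ jj c.m a (zr z) + TT c.m a * 2 ^ jj c.m a (zr z) := by ring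
          have e2 : TT c.m a * (2 * (zact z).length) = 2 * TT c.m a * (zact z).length := by ring
          rw [e2]
          omega
        exact Nat.le_of_mul_le_mul_left h2 hTpos
      · exact hKD c W V hyp a s z A B inv hr ht
    · obtain ⟨h1, h2⟩ := inv.B1 e he
      exact ⟨Nat.lt_succ_of_lt h1, h2⟩
  · rw [List.map_cons, List.nodup_cons]
    refine ⟨fun h => ?_, inv.B2⟩
    obtain ⟨e, he, he'⟩ := List.mem_map.1 h
    have h1 := (inv.B1 e he).1
    rw [he'] at h1
    exact lt_irrefl _ h1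
  · change zZ z + 2 ^ 0 ≤ (((((zr z, zi z), zact z) :: B).map (fun e => 2 ^ (e.1.2 + 1))).sum) +
      2 ^ (0 + 1)
    rw [List.map_cons, List.sum_cons]
    have h1 := inv.Z1
    change zZ z + 2 ^ 0 ≤ (2 ^ (zi z + 1) + (B.map (fun e => 2 ^ (e.1.2 + 1))).sum) + 2 ^ (0 + 1)
    omega
  · change zZ z + 2 ^ 0 ≤ 2 ^ (L0 c.m a - 2) + 2 ^ (0 + 1)
    omega
  · intro x _ h
    have h' : 1 ≤ 0 := h
    omega
  · intro x _
    exact Nat.zero_le _
  · intro e he
    rcases List.mem_append.1 he with he | he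
    · obtain ⟨r, t, h1, h2, h3⟩ := inv.M1 e he
      exact ⟨r, t, Nat.le_succ_of_le h1, h2, h3⟩
    · obtain ⟨x, _, rfl⟩ := List.mem_map.1 he
      exact ⟨zr z + 1, 0, le_refl _, Nat.zero_le _, rfl⟩
  · intro r t htT
    change ((zM z ++ (Gp c.m a (zr z + 1) 0).map (fun x => (gg c.m a (zr z + 1) 0 - oo a, x))).filter
        (fun e => decide (e.1 = gg c.m a r t - oo a))).length ≤ 2 ^ jj c.m a r *
      ((A.filter (fun e => decide (e.1.1 = r ∧ t ≤ e.1.2.2))).length +
        (if r < zr z + 1 ∨ r = zr z + 1 ∧ t ≤ 0 then 1 else 0))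
    rw [List.filter_append, List.length_append, XIC.len_filter_map]
    have h1 := inv.M2 r t htT
    rw [ht] at h1
    by_cases hrt : gg c.m a (zr z + 1) 0 - oo a = gg c.m a r t - oo a
    · obtain ⟨rfl, rfl⟩ := hN4 (zr z + 1) 0 r t (Nat.zero_le _) htT hrt
      rw [if_pos hrt, if_pos (Or.inr ⟨rfl, le_refl _⟩), hlen]
      rw [if_neg (by omega)] at h1
      rw [Nat.mul_add, Nat.mul_one]
      rw [Nat.add_zero] at h1
      exact Nat.add_le_add_right h1 _
    · rw [if_neg hrt, Nat.add_zero]
      refine h1.trans (Nat.mul_le_mul_left _ (Nat.add_le_add_left ?_ _))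
      by_cases h2 : r < zr z ∨ r = zr z ∧ t ≤ TT c.m a
      · rw [if_pos h2, if_pos (Or.inl (by omega))]
      · rw [if_neg h2]
        exact Nat.zero_le _
  · change ((zN z ++ (Gp c.m a (zr z + 1) 0).map (fun x => (uu c.m a (zr z + 1) 0, x))).map
        (fun e => ((1:ℝ) / 2) ^ e.1)).sum = ((zZ z + 2 ^ 0 : ℕ) : ℝ) / 2 ^ L0 c.m a
    rw [List.map_append, List.sum_append, inv.N1, XIC.sum_map_const, hlen]
    have h1 : uu c.m a (zr z + 1) 0 = jj c.m a (zr z + 1) + L0 c.m a := by
      unfold uu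
      omega
    rw [h1]
    push_cast
    rw [pow_add, one_div, inv_pow, inv_pow]
    have h2 : (2:ℝ) ^ jj c.m a (zr z + 1) ≠ 0 := by positivity
    field_simp
  · intro x hx
    refine ⟨List.mem_append_right _ (List.mem_map.2 ⟨x, hx, rfl⟩),
      List.mem_append_right _ (List.mem_map.2 ⟨x, hx, rfl⟩)⟩

end Pool.Agent.H662.CK
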