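import Pool.Agent.H662.CK.Stm

/-! # CK/II (helper333 for helper662): the invariant holds at all stages -/

set_option autoImplicit false

namespace Pool.Agent.H662.CK

theorem t_II (hI0 : S_I0) (hIW : S_IW) (hIA : S_IA) (hIB : S_IB) (hIC : S_IC) : S_II := by
  intro c W V h a s
  induction s with
  | zero => exact ⟨[], [], hI0 c W V h a⟩
  | succ s ih =>
    obtain ⟨A, B, hI⟩ := ih
    have key : ∃ A B, Inv c a s (nxt c a s (st c a s)) A B := by
      unfold nxt
      by_cases h1 : rdy c a s (st c a s) = true
      · rw [if_pos h1]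
        by_cases h2 : zt (st c a s) < TT c.m a
        · rw [if_pos h2]
          by_cases h3 : 2 ^ jj c.m a (zr (st c a s)) ≤
              (lps c a s (st c a s)).length * (2 * TT c.m a)
          · rw [if_pos h3]
            exact ⟨_, _, hIB c W V h a s _ A B hI h1 h2 h3⟩
          · rw [if_neg h3]
            exact ⟨_, _, hIA c W V h a s _ A B hI h1 h2 h3⟩
        · rw [if_neg h2]
          have h4 : zt (st c a s) = TT c.m a := le_antisymm hI.tT (not_lt.1 h2)
          by_cases h5 : 2 ^ (L0 c.m a - 2) ≤ zZ (st c a s)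
          · rw [if_pos h5]
            exact ⟨A, B, hI⟩
          · rw [if_neg h5]
            exact ⟨_, _, hIC c W V h a s _ A B hI h1 h4 h5⟩
      · rw [if_neg h1]
        exact ⟨A, B, hI⟩
    obtain ⟨A', B', hI'⟩ := key
    exact ⟨A', B', hIW c W V h a s _ A' B' hI'⟩

end Pool.Agent.H662.CK
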