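import Pool.Agent.H662.CK.Stm

/-!
Invariant: waiting.
-/

set_option autoImplicit false

namespace Pool.Agent.H662.CK

open Pool.Agent.H662.TR (Str strs)

namespace XIW

theorem arith (m b k k' : ℕ) (hk : k' < k) (hb : k ≤ b) :
    (m + 1) * (b - k) + m ≤ (m + 1) * (b - k') := by
  have h1 : b - k + 1 ≤ b - k' := by omega
  have h2 : (m + 1) * (b - k + 1) ≤ (m + 1) * (b - k') := Nat.mul_le_mul_left _ h1
  rw [Nat.mul_add, Nat.mul_one] at h2
  omega

end XIW

theorem t_IW (hLST : S_LST) : S_IW := by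
  intro c W V hH a s z A B h
  have hW : ∀ n x, c.PW ((n, x), s) = true → c.PW ((n, x), s + 1) = true :=
    fun n x hx => hH.monoW n n x s (s + 1) le_rfl (Nat.le_succ s) hx
  have hV : ∀ n x, c.PV ((n, x), s) = true → c.PV ((n, x), s + 1) = true :=
    fun n x hx => hH.monoV n n x s (s + 1) le_rfl (Nat.le_succ s) hx
  refine ⟨h.iR, h.tT, h.asub, h.abig, ?_, h.A4, h.A2, h.A3, ?_, h.B2, h.Z1, h.Z2, ?_, ?_, h.M1, h.M2,
    h.N1, h.R1⟩
  · intro e he
    obtain ⟨h1, h2, h3, h4, h5⟩ := h.A1 e he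
    exact ⟨h1, h2, h3, h4, fun x hx => hW _ x (h5 x hx)⟩
  · intro e he
    obtain ⟨h1, h2, h3, h4, h5⟩ := h.B1 e he
    exact ⟨h1, h2, h3, h4, fun x hx => hV _ x (h5 x hx)⟩
  · intro x hx ht
    exact hV _ x (h.K1 x hx ht)
  · intro x hx
    have h1 := h.K2 x hx
    obtain ⟨h2, -, -, h3⟩ := hLST c.PV hH.monoV (uu c.m a (zr z) (zi z) + oo a) x s
    have h4 := h3 (s + 1) (Nat.le_succ s)
    rcases Nat.eq_or_lt_of_le h4 with h5 | h5
    · rw [h5]
      refine h1.trans (Nat.add_le_add_left (Finset.card_le_card ?_) _)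
      apply Finset.filter_subset_filter
      intro v hv
      rw [List.mem_toFinset] at hv ⊢
      exact hH.lmono _ s (s + 1) (Nat.le_succ s) v hv
    · have h6 := (Finset.card_filter_le (c.lam ((x, lst c.PV (uu c.m a (zr z) (zi z) + oo a) x s),
        s)).toFinset (fun v => gg c.m a (zr z) (zt z) < v)).trans (hH.lcard _ _)
      have h7 := XIW.arith c.m _ _ _ h5 h2
      exact (h1.trans (Nat.add_le_add_left h6 _)).trans (h7.trans (Nat.le_add_right _ _))

end Pool.Agent.H662.CK
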