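import Pool.Agent.H662.CK.Stm

/-!
# Task KC1: online allocation of dyadic intervals (helper116, for helper662)
-/

set_option autoImplicit false

namespace Pool.Agent.H662.CK

namespace XKC1

/-- the right end of the last interval -/
noncomputable def e (l : List ℕ) : ℝ := ((alst l).1 : ℝ) / 2 ^ (alst l).2

/-- the integer part of `e l * 2 ^ n` -/
def fl (l : List ℕ) (n : ℕ) : ℕ :=
  ((alst l).1 * 2 ^ (max (alst l).2 n - (alst l).2)) / 2 ^ (max (alst l).2 n - n)

theorem alidx_eq (l : List ℕ) (n : ℕ) : alidx l n = fl l n + 1 := rfl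

theorem alst_snoc (l : List ℕ) (n : ℕ) :
    alst (l ++ [n]) = ((fl l n + 2) * 2 ^ (max (alst l).2 n - n), max (alst l).2 n) := by
  unfold alst
  rw [List.foldl_append]
  rfl

theorem e_nil : e [] = 0 := by
  simp [e, alst]

theorem e_snoc (l : List ℕ) (n : ℕ) : e (l ++ [n]) = ((fl l n : ℝ) + 2) / 2 ^ n := by
  rw [e, alst_snoc]
  push_cast
  have h1 : n ≤ max (alst l).2 n := le_max_right _ _
  generalize max (alst l).2 n = E at *
  rw [div_eq_div_iff (by positivity) (by positivity), mul_assoc, ← pow_add,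
    Nat.sub_add_cancel h1]

theorem key (l : List ℕ) (n : ℕ) :
    ((alst l).1 : ℝ) * 2 ^ (max (alst l).2 n - (alst l).2) =
      e l * 2 ^ n * 2 ^ (max (alst l).2 n - n) := by
  have h1 : n ≤ max (alst l).2 n := le_max_right _ _
  have h2 : (alst l).2 ≤ max (alst l).2 n := le_max_left _ _
  rw [e]
  generalize max (alst l).2 n = E at *
  rw [mul_assoc, ← pow_add, Nat.add_sub_cancel' h1, div_mul_eq_mul_div, eq_div_iff (by positivity),
    mul_assoc, ← pow_add, Nat.sub_add_cancel h2]

theorem fl_le (l : List ℕ) (n : ℕ) : (fl l n : ℝ) ≤ e l * 2 ^ n := by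
  have h1 := Nat.div_mul_le_self ((alst l).1 * 2 ^ (max (alst l).2 n - (alst l).2))
    (2 ^ (max (alst l).2 n - n))
  have h2 : (fl l n : ℝ) * 2 ^ (max (alst l).2 n - n) ≤
      ((alst l).1 : ℝ) * 2 ^ (max (alst l).2 n - (alst l).2) := by
    exact_mod_cast h1
  rw [key] at h2
  exact le_of_mul_le_mul_right h2 (by positivity)

theorem lt_fl (l : List ℕ) (n : ℕ) : e l * 2 ^ n < (fl l n : ℝ) + 1 := by
  have h1 := Nat.lt_div_mul_add (a := (alst l).1 * 2 ^ (max (alst l).2 n - (alst l).2))
    (b := 2 ^ (max (alst l).2 n - n)) (by positivity)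
  have h2 : ((alst l).1 : ℝ) * 2 ^ (max (alst l).2 n - (alst l).2) <
      (fl l n : ℝ) * 2 ^ (max (alst l).2 n - n) + 2 ^ (max (alst l).2 n - n) := by
    exact_mod_cast h1
  rw [key, ← add_one_mul] at h2
  exact lt_of_mul_lt_mul_right h2 (by positivity)

theorem e_step (l : List ℕ) (n : ℕ) : e l ≤ e (l ++ [n]) := by
  rw [e_snoc, le_div_iff₀ (by positivity)]
  have := lt_fl l n
  linarith

theorem e_step' (l : List ℕ) (n : ℕ) : e (l ++ [n]) ≤ e l + 2 * (1 / 2) ^ n := by
  have h1 := fl_le l n
  rw [e_snoc, div_le_iff₀ (by positivity), add_mul, mul_assoc, ← mul_pow]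
  norm_num
  linarith

theorem e_le (l : List ℕ) : e l ≤ 2 * (l.map (fun n => ((1:ℝ) / 2) ^ n)).sum := by
  induction l using List.reverseRecOn with
  | nil => rw [e_nil]; simp
  | append_singleton l n ih =>
    refine (e_step' l n).trans ?_
    rw [List.map_append, List.sum_append, List.map_singleton, List.sum_singleton]
    linarith

theorem take_succ' (l : List ℕ) (k : ℕ) (hk : k < l.length) :
    l.take (k + 1) = l.take k ++ [l[k]] := by
  rw [List.take_append_getElem]

theorem e_mono (l : List ℕ) (k k' : ℕ) (h : k ≤ k') (hk : k' ≤ l.length) :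
    e (l.take k) ≤ e (l.take k') := by
  induction k', h using Nat.le_induction with
  | base => exact le_refl _
  | succ k' _ ih =>
    refine (ih (by omega)).trans ?_
    rw [take_succ' l k' (by omega)]
    exact e_step _ _

end XKC1

open XKC1 in
/-- Task KC1. -/
theorem t_KC1 : S_KC1 := by
  intro l hl
  constructor
  · intro k hk
    have h1 : e (l.take (k + 1)) ≤ 1 := by
      have h2 := e_mono l (k + 1) l.length (by omega) le_rfl
      rw [List.take_length] at h2
      have h3 := e_le l
      linarith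
    rw [take_succ' l k hk, e_snoc, div_le_iff₀ (by positivity), one_mul] at h1
    rw [alidx_eq]
    have h2 : fl (l.take k) l[k] + 2 ≤ 2 ^ l[k] := by exact_mod_cast h1
    omega
  · intro k k' hk hk' hkk
    have h1 := e_mono l (k + 1) k' (by omega) (by omega)
    have h2 := lt_fl (l.take k') l[k']
    rw [take_succ' l k hk, e_snoc, div_le_iff₀ (by positivity)] at h1
    rw [alidx_eq, alidx_eq]
    have h3 : ((fl (l.take k) l[k] : ℝ) + 1 + 1) * 2 ^ l[k'] ≤
        ((fl (l.take k') l[k'] : ℝ) + 1) * 2 ^ l[k] := by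
      calc ((fl (l.take k) l[k] : ℝ) + 1 + 1) * 2 ^ l[k']
          ≤ (e (l.take k') * 2 ^ l[k]) * 2 ^ l[k'] := by
            refine mul_le_mul_of_nonneg_right ?_ (by positivity)
            linarith
        _ = (e (l.take k') * 2 ^ l[k']) * 2 ^ l[k] := by ring
        _ ≤ _ := mul_le_mul_of_nonneg_right h2.le (by positivity)
    exact_mod_cast h3

end Pool.Agent.H662.CK
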