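import Pool.Agent.H662.CK.Stm

/-!
# KD: drop of `K` in a successful round
-/

set_option autoImplicit false

namespace Pool.Agent.H662.CK

open Pool.Agent.H662.TR (Str strs)

namespace XKD

theorem arith {m S d e : ℕ} (he : e ≤ m) (h : (m + 1) * (S + 1) ≤ (m + 1) * d + e) : S + 1 ≤ d := by
  by_contra hcon
  have h1 : d ≤ S := by omega
  have h2 : (m + 1) * d ≤ (m + 1) * S := Nat.mul_le_mul_left _ h1
  have h3 : (m + 1) * (S + 1) = (m + 1) * S + (m + 1) := by ring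
  omega

end XKD

theorem t_KD (hLST : S_LST) : S_KD := by
  intro c W V hyp a s z A B inv _ ht x hx
  have hT : TT c.m a = (c.m + 1) * (SS a + 1) := rfl
  have hpos : 1 ≤ zt z := by
    rw [ht, hT]
    exact Nat.mul_pos (Nat.succ_pos _) (Nat.succ_pos _)
  have h1 := inv.K1 x hx hpos
  have h2 := inv.K2 x hx
  obtain ⟨b, hb⟩ : ∃ b, b = uu c.m a (zr z) (zi z) + oo a := ⟨_, rfl⟩
  rw [← hb] at h1 h2 ⊢
  obtain ⟨h3, -, h4, -⟩ := hLST c.PV hyp.monoV b x s
  have h5 := h4 h1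
  obtain ⟨k, hk⟩ : ∃ k, k = lst c.PV b x s := ⟨_, rfl⟩
  rw [← hk] at h2 h3 h5
  have h6 : (((c.lam ((x, k), s)).toFinset.filter
      (fun v => gg c.m a (zr z) (zt z) < v)).card) ≤ c.m :=
    (Finset.card_filter_le _ _).trans (hyp.lcard (x, k) s)
  rw [ht, hT] at h2
  rw [ht, hT] at h6
  have h7 := XKD.arith h6 h2
  exact hyp.monoV k (b - SS a) x s s (by omega) le_rfl h5

end Pool.Agent.H662.CK
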