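import Pool.Agent.H662.CK.Stm

/-!
# Kraft inequality
-/

set_option autoImplicit false

namespace Pool.Agent.H662.CK

open Pool.Agent.H662.TR (Str strs)

namespace XKRF

/-- the extensions of `p` of length `N` -/
def ext (N : ℕ) (p : Str) : List Str := (strs (N - p.length)).map (fun σ => p ++ σ)

lemma ext_nodup (N : ℕ) (p : Str) : (ext N p).Nodup :=
  (Pool.Agent.H662.TR.nodup_strs _).map (List.append_right_injective p)

lemma ext_length (N : ℕ) (p : Str) : (ext N p).length = 2 ^ (N - p.length) := by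
  unfold ext
  rw [List.length_map, Pool.Agent.H662.TR.length_strs]

lemma ext_pre {N : ℕ} {p q : Str} (h : q ∈ ext N p) : p <+: q := by
  unfold ext at h
  rw [List.mem_map] at h
  obtain ⟨σ, -, rfl⟩ := h
  exact List.prefix_append p σ

lemma ext_sub {N : ℕ} {p q : Str} (hp : p.length ≤ N) (h : q ∈ ext N p) : q ∈ strs N := by
  unfold ext at h
  rw [List.mem_map] at h
  obtain ⟨σ, hσ, rfl⟩ := h
  rw [Pool.Agent.H662.TR.mem_strs] at hσ ⊢
  rw [List.length_append, hσ]
  omega

end XKRF

theorem t_KRF : S_KRF := by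
  classical
  intro V hV F k h
  choose! p hp using h
  set N := F.sup k with hN
  have hk : ∀ x ∈ F, k x ≤ N := fun x hx => Finset.le_sup hx
  have hpN : ∀ x ∈ F, (p x).length ≤ N := fun x hx => (hp x hx).1.trans (hk x hx)
  have hinj : ∀ x ∈ F, ∀ y ∈ F, p x <+: p y → x = y := by
    intro x hx y hy hxy
    have h1 := hV (p x) (p y) (Part.dom_iff_mem.2 ⟨x, (hp x hx).2⟩)
      (Part.dom_iff_mem.2 ⟨y, (hp y hy).2⟩) hxy
    have h2 := (hp x hx).2
    rw [h1] at h2
    exact Part.mem_unique h2 (hp y hy).2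
  have hdis : ∀ x ∈ F, ∀ y ∈ F, x ≠ y →
      Disjoint (XKRF.ext N (p x)).toFinset (XKRF.ext N (p y)).toFinset := by
    intro x hx y hy hxy
    rw [Finset.disjoint_left]
    intro q hq1 hq2
    rw [List.mem_toFinset] at hq1 hq2
    rcases List.prefix_or_prefix_of_prefix (XKRF.ext_pre hq1) (XKRF.ext_pre hq2) with h1 | h1
    · exact hxy (hinj x hx y hy h1)
    · exact hxy (hinj y hy x hx h1).symm
  have hcard : (F.biUnion fun x => (XKRF.ext N (p x)).toFinset).card ≤ 2 ^ N := by
    have h1 : (F.biUnion fun x => (XKRF.ext N (p x)).toFinset) ⊆ (strs N).toFinset := by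
      intro q hq
      rw [Finset.mem_biUnion] at hq
      obtain ⟨x, hx, hq⟩ := hq
      rw [List.mem_toFinset] at hq ⊢
      exact XKRF.ext_sub (hpN x hx) hq
    refine (Finset.card_le_card h1).trans ((List.toFinset_card_le _).trans ?_)
    rw [Pool.Agent.H662.TR.length_strs]
  rw [Finset.card_biUnion hdis] at hcard
  have hc : ∀ x ∈ F, (XKRF.ext N (p x)).toFinset.card = 2 ^ (N - (p x).length) := by
    intro x _
    rw [List.toFinset_card_of_nodup (XKRF.ext_nodup _ _), XKRF.ext_length]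
  rw [Finset.sum_congr rfl hc] at hcard
  have h1 : (∑ x ∈ F, ((2 : ℝ) ^ (N - (p x).length))) ≤ 2 ^ N := by exact_mod_cast hcard
  have h2 : ∑ x ∈ F, ((1 : ℝ) / 2) ^ k x ≤ ∑ x ∈ F, ((2 : ℝ) ^ (N - (p x).length)) / 2 ^ N := by
    apply Finset.sum_le_sum
    intro x hx
    have h3 : ((1 : ℝ) / 2) ^ k x ≤ ((1 : ℝ) / 2) ^ (p x).length :=
      pow_le_pow_of_le_one (by norm_num) (by norm_num) (hp x hx).1
    refine h3.trans (le_of_eq ?_)
    have h4 : (2 : ℝ) ^ N = 2 ^ (N - (p x).length) * 2 ^ (p x).length := by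
      rw [← pow_add]
      congr 1
      have := hpN x hx
      omega
    rw [h4, one_div, inv_pow]
    field_simp
  rw [← Finset.sum_div] at h2
  refine h2.trans ?_
  rw [div_le_one (by positivity)]
  exact h1

end Pool.Agent.H662.CK
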