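import Pool.Agent.H662.CK.Stm

/-!
# [CK LP] Lists from a partial recursive function (helper881 for helper662)
-/

set_option autoImplicit false

namespace Pool.Agent.H662.CK.XLP

open Pool.Agent.H662.TR (Str strs)
open Nat.Partrec (Code)

/-- the numbers at distance at most `d` from `w` -/
def wd (d w : ℕ) : List ℕ := (List.range (2 * d + 1)).map (fun i => w + i - d)

/-- the list -/
def lm (c : Code) (d : ℕ) (x : (Str × ℕ) × ℕ) : List ℕ :=
  Option.casesOn (motive := fun _ => List ℕ) (Code.evaln x.2 c (Encodable.encode x.1)) [] (wd d)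

theorem primrec_wd (d : ℕ) : Primrec (wd d) := by
  unfold wd
  refine Primrec.list_map (Primrec.const _) ?_
  exact Primrec.nat_sub.comp (Primrec.nat_add.comp Primrec.fst Primrec.snd) (Primrec.const d)

theorem primrec_lm (c : Code) (d : ℕ) : Primrec (lm c d) := by
  unfold lm
  refine Primrec.option_casesOn (Code.primrec_evaln.comp
    ((Primrec.snd.pair (Primrec.const c)).pair (Primrec.encode.comp Primrec.fst)))
    (Primrec.const []) ?_
  exact (primrec_wd d).comp Primrec.snd

theorem mem_wd {d w v : ℕ} (h1 : v ≤ w + d) (h2 : w ≤ v + d) : v ∈ wd d w := by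
  unfold wd
  rw [List.mem_map]
  exact ⟨v + d - w, List.mem_range.2 (by omega), by omega⟩

theorem lm_some {c : Code} {d s w : ℕ} {y : Str × ℕ}
    (h : Code.evaln s c (Encodable.encode y) = some w) : lm c d (y, s) = wd d w := by
  unfold lm
  simp only [h]

theorem lm_none {c : Code} {d s : ℕ} {y : Str × ℕ}
    (h : Code.evaln s c (Encodable.encode y) = none) : lm c d (y, s) = [] := by
  unfold lm
  simp only [h]

end Pool.Agent.H662.CK.XLP

namespace Pool.Agent.H662.CK

open Pool.Agent.H662.TR (Str strs)
open Nat.Partrec (Code)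
open XLP

theorem t_LP : S_LP := by
  intro ψ hψ d
  obtain ⟨c, hc⟩ := Code.exists_code.1 hψ
  refine ⟨lm c d, primrec_lm c d, ?_, ?_, ?_⟩
  · intro y s s' hs v hv
    cases h : Code.evaln s c (Encodable.encode y) with
    | none =>
      rw [lm_none h] at hv
      simp at hv
    | some w =>
      have h' : Code.evaln s' c (Encodable.encode y) = some w := Code.evaln_mono hs h
      rw [lm_some h] at hv
      rw [lm_some h']
      exact hv
  · intro y s
    refine (List.toFinset_card_le _).trans ?_
    cases h : Code.evaln s c (Encodable.encode y) with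
    | none =>
      rw [lm_none h]
      simp
    | some w =>
      rw [lm_some h]
      simp [wd]
  · intro y w v hw h1 h2
    have hm : w ∈ Code.eval c (Encodable.encode y) := by
      rw [hc]
      simpa using hw
    obtain ⟨s, hs⟩ := Code.evaln_complete.1 hm
    exact ⟨s, by rw [lm_some hs]; exact mem_wd h1 h2⟩

end Pool.Agent.H662.CK
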