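import Pool.Agent.H662.CK.Stm

/-!
# CK, LQ: lists from a conditional machine
-/

set_option autoImplicit false

namespace Pool.Agent.H662.CK

open Pool.Agent.H662.TR (Str strs)

namespace XLQ

/-- all strings of length at most `d` -/
def alls (d : ℕ) : List Str := (List.range (d + 1)).flatMap strs

theorem mem_alls {d : ℕ} {p : Str} (h : p.length ≤ d) : p ∈ alls d := by
  unfold alls
  rw [List.mem_flatMap]
  exact ⟨p.length, List.mem_range.mpr (by omega), Pool.Agent.H662.TR.mem_strs.mpr rfl⟩

theorem length_alls (d : ℕ) : (alls d).length + 1 = 2 ^ (d + 1) := by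
  induction d with
  | zero => simp [alls, Pool.Agent.H662.TR.length_strs]
  | succ d ih =>
    unfold alls at ih ⊢
    rw [List.range_succ, List.flatMap_append, List.length_append]
    simp only [List.flatMap_cons, List.flatMap_nil, List.append_nil,
      Pool.Agent.H662.TR.length_strs]
    rw [pow_succ 2 (d + 1)]
    omega

end XLQ

theorem t_LQ : S_LQ := by
  intro U hU d
  have hU' : Nat.Partrec fun n => Part.bind
      (Encodable.decode (α := Str × (Str × ℕ)) n : Part (Str × (Str × ℕ)))
      fun a => (U a.1 a.2).map Encodable.encode := hU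
  obtain ⟨c, hc⟩ := Nat.Partrec.Code.exists_code.1 hU'
  have hkey : ∀ (p : Str) (y : Str × ℕ),
      Nat.Partrec.Code.eval c (Encodable.encode (p, y)) = (U p y).map Encodable.encode := by
    intro p y
    rw [hc]
    simp
  refine ⟨fun z => (XLQ.alls d).filterMap
    (fun p => Nat.Partrec.Code.evaln z.2 c (Encodable.encode (p, z.1))), ?_, ?_, ?_, ?_⟩
  · refine Primrec.listFilterMap (Primrec.const _) ?_
    have h1 : Primrec (fun w : ((Str × ℕ) × ℕ) × Str => ((w.1.2, c), Encodable.encode (w.2, w.1.1))) :=
      Primrec.pair (Primrec.pair (Primrec.snd.comp Primrec.fst) (Primrec.const c))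
        (Primrec.encode.comp (Primrec.pair Primrec.snd (Primrec.fst.comp Primrec.fst)))
    exact Nat.Partrec.Code.primrec_evaln.comp h1
  · intro y s s' hs v hv
    simp only [List.mem_filterMap] at hv ⊢
    obtain ⟨p, hp, hv⟩ := hv
    exact ⟨p, hp, Nat.Partrec.Code.evaln_mono hs hv⟩
  · intro y s
    refine (List.toFinset_card_le _).trans ((List.length_filterMap_le _ _).trans ?_)
    have := XLQ.length_alls d
    omega
  · intro y v p hp hv
    have h1 : v ∈ Nat.Partrec.Code.eval c (Encodable.encode (p, y)) := by
      rw [hkey, Part.mem_map_iff]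
      exact ⟨v, hv, rfl⟩
    rw [Nat.Partrec.Code.evaln_complete] at h1
    obtain ⟨s, hs⟩ := h1
    refine ⟨s, ?_⟩
    simp only [List.mem_filterMap]
    exact ⟨p, XLQ.mem_alls hp, hs⟩

end Pool.Agent.H662.CK
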