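import Pool.Agent.H662.CK.Stm

/-!
# The least `n` approximation (proof of `S_LST`), helper134 for helper662
-/

set_option autoImplicit false

namespace Pool.Agent.H662.CK

open Pool.Agent.H662.TR (Str)

namespace XLST

/-- the filter of `List.range b` for a monotone predicate -/
theorem main (q : ℕ → Bool) (hq : ∀ n n', n ≤ n' → q n = true → q n' = true) (b : ℕ) :
    ((List.range b).filter (fun n => !(q n))).length ≤ b ∧
    (∀ n, n < ((List.range b).filter (fun n => !(q n))).length → q n = false) ∧
    (q b = true → q (((List.range b).filter (fun n => !(q n))).length) = true) ∧
    (q b = false → ((List.range b).filter (fun n => !(q n))).length = b) := by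
  induction b with
  | zero => simp
  | succ b ih =>
    obtain ⟨h1, h2, h3, h4⟩ := ih
    rw [List.range_succ, List.filter_append, List.length_append]
    cases hb : q b with
    | true =>
      have e : (List.filter (fun n => !(q n)) [b]).length = 0 := by
        simp [hb]
      rw [e, Nat.add_zero]
      refine ⟨by omega, h2, fun _ => h3 hb, ?_⟩
      intro h
      have := hq b (b + 1) (Nat.le_succ b) hb
      rw [h] at this
      exact absurd this Bool.false_ne_true
    | false =>
      have e : (List.filter (fun n => !(q n)) [b]).length = 1 := by
        simp [hb]
      rw [e, h4 hb]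
      refine ⟨le_refl _, ?_, fun h => h, fun _ => rfl⟩
      intro n hn
      cases hn' : q n with
      | false => rfl
      | true =>
        have := hq n b (by omega) hn'
        rw [hb] at this
        exact absurd this Bool.false_ne_true

end XLST

theorem t_LST : S_LST := by
  intro P hP b x s
  obtain ⟨h1, h2, h3, -⟩ := XLST.main (fun n => P ((n, x), s))
    (fun n n' h => hP n n' x s s h (le_refl s)) b
  refine ⟨h1, h2, h3, ?_⟩
  intro s' hs
  unfold lst
  rw [← List.countP_eq_length_filter, ← List.countP_eq_length_filter]
  apply List.countP_mono_left
  intro n _ hn
  simp only [Bool.not_eq_true'] at hn ⊢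
  cases h : P ((n, x), s) with
  | false => rfl
  | true =>
    have := hP n n x s s' (le_refl n) hs h
    rw [hn] at this
    exact absurd this Bool.false_ne_true

end Pool.Agent.H662.CK
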