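import Pool.Agent.H662.CK.Stm

/-!
# Bound for the plain requests (task MB of project CK, helper591 for helper662)
-/

set_option autoImplicit false

namespace Pool.Agent.H662.CK

/-- **Task MB.** Bound for the plain requests. -/
theorem t_MB (hII : S_II) (hCAP : S_CAP) (hNUM : S_NUM) : S_MB := by
  intro c W V hc a s n
  obtain ⟨A, B, hI⟩ := hII c W V hc a s
  obtain ⟨n1, n2, n3, n4, n5, n6, n7⟩ := hNUM c.m a
  rcases Nat.eq_zero_or_pos
    ((zM (st c a s)).filter (fun e => decide (e.1 = n))).length with h0 | h0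
  · rw [h0]
    exact Nat.zero_le _
  · obtain ⟨e, he⟩ := List.exists_mem_of_length_pos h0
    rw [List.mem_filter] at he
    obtain ⟨he1, he2⟩ := he
    have hen : e.1 = n := of_decide_eq_true he2
    obtain ⟨r, t, hr, ht, hrt⟩ := hI.M1 e he1
    have hn : n = gg c.m a r t - oo a := hen.symm.trans hrt
    have hM := hI.M2 r t ht
    rw [← hn] at hM
    refine hM.trans ?_
    have hind : (if r < zr (st c a s) ∨ r = zr (st c a s) ∧ t ≤ zt (st c a s) then 1 else 0) ≤ 1 := by
      split_ifs
      · exact le_rfl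
      · exact Nat.zero_le _
    obtain ⟨N, hN⟩ : ∃ N : ℕ, N =
      (A.filter (fun e => decide (e.1.1 = r ∧ t ≤ e.1.2.2))).length := ⟨_, rfl⟩
    rw [← hN]
    rcases Nat.lt_or_ge t (TT c.m a) with h1 | h1
    · have h2 := hCAP c W V hc a s A hI.A1 hI.A2 r t h1
      rw [← hN] at h2
      have h3 := n5 r t N h1 h2
      calc 2 ^ jj c.m a r * (N +
            (if r < zr (st c a s) ∨ r = zr (st c a s) ∧ t ≤ zt (st c a s) then 1 else 0)) ≤
            2 ^ jj c.m a r * (N + 1) :=
            Nat.mul_le_mul_left _ (Nat.add_le_add_left hind N)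
        _ ≤ 2 ^ jj c.m a r * 2 ^ (qq c.m a - t * LL c.m a - oo a) :=
            Nat.mul_le_mul_left _ h3
        _ = 2 ^ n := by rw [n6 r t ht, hn]
    · have h2 : N = 0 := by
        rw [hN, List.length_eq_zero_iff, List.filter_eq_nil_iff]
        intro x hx hd
        have h3 := of_decide_eq_true hd
        have h4 := (hI.A1 x hx).1
        omega
      rw [h2, Nat.zero_add]
      have h3 := (n2 r t ht).1
      calc 2 ^ jj c.m a r *
            (if r < zr (st c a s) ∨ r = zr (st c a s) ∧ t ≤ zt (st c a s) then 1 else 0) ≤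
            2 ^ jj c.m a r * 1 := Nat.mul_le_mul_left _ hind
        _ = 2 ^ jj c.m a r := Nat.mul_one _
        _ ≤ 2 ^ n := Nat.pow_le_pow_right (by norm_num) (by omega)

end Pool.Agent.H662.CK
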