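import Pool.Agent.H662.CK.Stm

set_option autoImplicit false

namespace Pool.Agent.H662.CK.XNB

theorem aux (R i Z : ℕ) (hi : i ≤ R) (hZ : Z ≤ 2 ^ (R + 3 - 2) + 2 ^ (i + 1)) :
    (Z : ℝ) / 2 ^ (R + 3) ≤ 1 / 2 := by
  have h1 : (2 : ℕ) ^ (i + 1) ≤ 2 ^ (R + 1) := Nat.pow_le_pow_right (by norm_num) (by omega)
  have h2 : R + 3 - 2 = R + 1 := by omega
  rw [h2] at hZ
  have h3 : Z ≤ 2 ^ (R + 2) := by
    calc Z ≤ 2 ^ (R + 1) + 2 ^ (R + 1) := by omega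
      _ = 2 ^ (R + 2) := by ring
  have h4 : (Z : ℝ) ≤ 2 ^ (R + 2) := by exact_mod_cast h3
  have h5 : (0 : ℝ) < 2 ^ (R + 3) := by positivity
  rw [div_le_iff₀ h5]
  calc (Z : ℝ) ≤ 2 ^ (R + 2) := h4
    _ = 1 / 2 * 2 ^ (R + 3) := by ring

end Pool.Agent.H662.CK.XNB

namespace Pool.Agent.H662.CK

theorem t_NB (hII : S_II) : S_NB := by
  intro c W V hyp a s
  obtain ⟨A, B, h⟩ := hII c W V hyp a s
  rw [h.N1]
  exact XNB.aux (RR c.m a) (zi (st c a s)) (zZ (st c a s)) h.iR h.Z2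

end Pool.Agent.H662.CK
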