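import Pool.Agent.H662.CK.Stm

/-!
# Arithmetic of the parameters
-/

set_option autoImplicit false

namespace Pool.Agent.H662.CK

namespace XNUM

theorem one (m a t : ℕ) (ht : t ≤ TT m a) : t * LL m a + oo a + 1 ≤ qq m a := by
  have h := Nat.mul_le_mul_right (LL m a) ht
  unfold qq
  omega

theorem TT_pos (m a : ℕ) : 0 < TT m a := by
  unfold TT
  exact Nat.mul_pos (Nat.succ_pos m) (Nat.succ_pos _)

theorem LL_eq (m a : ℕ) : LL m a = oo a + TT m a + 3 := rfl

theorem gg_eq (m a r t : ℕ) (ht : t ≤ TT m a) :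
    gg m a r t - oo a = jj m a r + (qq m a - t * LL m a - oo a) ∧ oo a ≤ gg m a r t ∧
      gg m a r t = jj m a r + (qq m a - t * LL m a) := by
  have h := one m a t ht
  unfold gg
  omega

/-- the bases of the modules are separated -/
theorem jj_lt (m a r r' : ℕ) (h : r < r') : jj m a r + (qq m a + 1) ≤ jj m a r' := by
  unfold jj
  have h1 : r + 1 + 1 ≤ r' + 1 := by omega
  have h2 := Nat.mul_le_mul_right (qq m a + 1) h1
  have h3 : (r + 1 + 1) * (qq m a + 1) = (r + 1) * (qq m a + 1) + (qq m a + 1) := by ring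
  omega

theorem inj_r (m a r t r' t' : ℕ) (ht : t ≤ TT m a) (ht' : t' ≤ TT m a)
    (h : gg m a r t - oo a = gg m a r' t' - oo a) : ¬ r < r' := by
  intro hlt
  have h1 := (gg_eq m a r t ht).1
  have h2 := (gg_eq m a r' t' ht').1
  have h3 := jj_lt m a r r' hlt
  omega

theorem five (m a r t N : ℕ) (ht : t < TT m a)
    (hN : N * 2 ^ jj m a r ≤ 2 * TT m a * 2 ^ (gg m a r (t + 1) + 1)) :
    N + 1 ≤ 2 ^ (qq m a - t * LL m a - oo a) := by
  have h1 := one m a (t + 1) ht
  have h2 := (gg_eq m a r (t + 1) ht).2.2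
  have h3 : (t + 1) * LL m a = t * LL m a + LL m a := by ring
  have h4 := LL_eq m a
  obtain ⟨X, hX⟩ : ∃ X : ℕ, X = 2 ^ (qq m a - (t + 1) * LL m a) := ⟨_, rfl⟩
  have hX1 : 1 ≤ X := by rw [hX]; exact Nat.one_le_two_pow
  have h5 : 2 ^ (qq m a - t * LL m a - oo a) = 8 * 2 ^ TT m a * X := by
    have e : qq m a - t * LL m a - oo a = 3 + TT m a + (qq m a - (t + 1) * LL m a) := by omega
    rw [e, pow_add, pow_add, ← hX]
    norm_num
  have h6 : 2 ^ (gg m a r (t + 1) + 1) = 2 * X * 2 ^ jj m a r := by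
    rw [h2, pow_succ, pow_add, ← hX]
    ring
  rw [h6] at hN
  have h7 : N * 2 ^ jj m a r ≤ (4 * TT m a * X) * 2 ^ jj m a r := by
    refine hN.trans (le_of_eq ?_)
    ring
  have h8 : N ≤ 4 * TT m a * X := Nat.le_of_mul_le_mul_right h7 (Nat.two_pow_pos _)
  have h9 : TT m a + 1 ≤ 2 ^ TT m a := Nat.lt_two_pow_self
  rw [h5]
  calc N + 1 ≤ 4 * TT m a * X + X := Nat.add_le_add h8 hX1
    _ = (4 * TT m a + 1) * X := by ring
    _ ≤ (8 * 2 ^ TT m a) * X := Nat.mul_le_mul_right X (by omega)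

end XNUM

open XNUM in
theorem t_NUM : S_NUM := by
  intro m a
  refine ⟨fun t ht => one m a t ht, fun r t ht => ?_, fun r t ht => ?_,
    fun r t r' t' ht ht' h => ?_, fun r t N ht hN => five m a r t N ht hN, fun r t ht => ?_,
    TT_pos m a⟩
  · have h1 := gg_eq m a r t ht
    have h2 := one m a t ht
    omega
  · have h1 := (gg_eq m a r t ht.le).2.2
    have h2 := (gg_eq m a r (t + 1) ht).2.2
    have h3 := one m a (t + 1) ht
    have h4 : (t + 1) * LL m a = t * LL m a + LL m a := by ring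
    have h5 := LL_eq m a
    omega
  · have hr : r = r' := by
      have h1 := inj_r m a r t r' t' ht ht' h
      have h2 := inj_r m a r' t' r t ht' ht h.symm
      omega
    refine ⟨hr, ?_⟩
    subst hr
    have h1 := (gg_eq m a r t ht).1
    have h2 := (gg_eq m a r t' ht').1
    have h3 := one m a t ht
    have h4 := one m a t' ht'
    have h5 : t * LL m a = t' * LL m a := by omega
    have h6 := LL_eq m a
    exact Nat.eq_of_mul_eq_mul_right (by omega) h5
  · rw [(gg_eq m a r t ht).1, pow_add]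

end Pool.Agent.H662.CK
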