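import Pool.Agent.H662.CK.Stm

/-!
Project CK (helper662), task PLN: plain machine from enumerated requests (by helper195).
-/

set_option autoImplicit false

namespace Pool.Agent.H662.CK

open Pool.Agent.H662.TR (Str strs)

namespace XPLN

/-- number of leading ones -/
def lead (p : Str) : ℕ := p.findIdx (fun b => !b)

/-- the part behind the first zero -/
def body (p : Str) : Str := p.drop (lead p + 1)

/-- position of a string among the strings of the same length -/
def pos (σ : Str) : ℕ := (strs σ.length).findIdx (fun τ => decide (τ = σ))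

/-- the machine at stage `s` -/
def gm (req : ℕ × ℕ → List (ℕ × Str)) (p : Str) (s : ℕ) : Option Str :=
  (((req (lead p, s)).filter (fun e => decide (e.1 = (body p).length)))[pos (body p)]?).map
    Prod.snd

theorem p_strs : Primrec strs := by
  have h : Primrec (fun n : ℕ => Nat.rec (motive := fun _ => List Str) [[]]
      (fun _ (ih : List Str) => ih.map (fun σ => false :: σ) ++ ih.map (fun σ => true :: σ)) n) := by
    refine Primrec.nat_rec₁ (f := fun (_ : ℕ) (ih : List Str) =>
      ih.map (fun σ => false :: σ) ++ ih.map (fun σ => true :: σ)) [[]] ?_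
    refine Primrec.list_append.comp ?_ ?_
    · refine Primrec.list_map Primrec.snd ?_
      exact Primrec.list_cons.comp (Primrec.const false) Primrec.snd
    · refine Primrec.list_map Primrec.snd ?_
      exact Primrec.list_cons.comp (Primrec.const true) Primrec.snd
  refine h.of_eq fun n => ?_
  induction n with
  | zero => rfl
  | succ n ih =>
    simp only [strs]
    rw [← ih]

theorem p_lead : Primrec lead :=
  Primrec.list_findIdx (f := fun p : Str => p) (p := fun _ b => !b) Primrec.id
    (Primrec.not.comp Primrec.snd).to₂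

theorem p_body : Primrec body :=
  Primrec.list_drop.comp (Primrec.succ.comp p_lead) Primrec.id

theorem p_pos : Primrec pos :=
  Primrec.list_findIdx (f := fun σ : Str => strs σ.length) (p := fun σ τ => decide (τ = σ))
    (p_strs.comp Primrec.list_length)
    ((Primrec.eq.comp Primrec.snd Primrec.fst).decide).to₂

theorem p_gm (req : ℕ × ℕ → List (ℕ × Str)) (h : Primrec req) :
    Primrec (fun z : Str × ℕ => gm req z.1 z.2) := by
  have hR : PrimrecRel (fun (e : ℕ × Str) (n : ℕ) => e.1 = n) :=
    Primrec.eq.comp (Primrec.fst.comp Primrec.fst) Primrec.snd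
  have h1 : Primrec (fun z : Str × ℕ => req (lead z.1, z.2)) :=
    h.comp (Primrec.pair (p_lead.comp Primrec.fst) Primrec.snd)
  have h2 : Primrec (fun z : Str × ℕ => (body z.1).length) :=
    Primrec.list_length.comp (p_body.comp Primrec.fst)
  have h3 : Primrec (fun z : Str × ℕ =>
      (req (lead z.1, z.2)).filter (fun e => decide (e.1 = (body z.1).length))) :=
    (PrimrecRel.listFilter hR).comp h1 h2
  have h4 : Primrec (fun z : Str × ℕ => pos (body z.1)) := p_pos.comp (p_body.comp Primrec.fst)
  exact Primrec.option_map (Primrec.list_getElem?.comp h3 h4) (Primrec.snd.comp Primrec.snd).to₂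

theorem lead_eq (a : ℕ) (σ : Str) : lead (List.replicate a true ++ false :: σ) = a := by
  unfold lead
  induction a with
  | zero => simp [List.findIdx_cons]
  | succ a ih =>
    rw [List.replicate_succ, List.cons_append, List.findIdx_cons, ih]
    rfl

theorem body_eq (a : ℕ) (σ : Str) : body (List.replicate a true ++ false :: σ) = σ := by
  unfold body
  rw [lead_eq]
  have h1 : List.replicate a true ++ false :: σ = (List.replicate a true ++ [false]) ++ σ := by
    simp
  have h2 : (List.replicate a true ++ [false]).length = a + 1 := by simp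
  rw [h1, ← h2, List.drop_left]

theorem pos_eq (n i : ℕ) (hi : i < (strs n).length) : pos (strs n)[i] = i := by
  have h1 : ((strs n)[i]).length = n := Pool.Agent.H662.TR.mem_strs.1 (List.getElem_mem hi)
  unfold pos
  rw [h1, List.findIdx_eq hi]
  refine ⟨decide_eq_true rfl, fun j hj => decide_eq_false fun h => ?_⟩
  have := (List.Nodup.getElem_inj_iff (Pool.Agent.H662.TR.nodup_strs n)).1 h
  omega

theorem pre_mono {req : ℕ × ℕ → List (ℕ × Str)} (h : ∀ a s, req (a, s) <+: req (a, s + 1))
    (a s t : ℕ) (hst : s ≤ t) : req (a, s) <+: req (a, t) := by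
  induction t, hst using Nat.le_induction with
  | base => exact List.prefix_refl _
  | succ t _ ih => exact ih.trans (h a t)

theorem gm_mono {req : ℕ × ℕ → List (ℕ × Str)} (h : ∀ a s, req (a, s) <+: req (a, s + 1))
    (p x : Str) {s t : ℕ} (hst : s ≤ t) (hx : x ∈ gm req p s) : x ∈ gm req p t := by
  have h1 := (pre_mono h (lead p) s t hst).filter
    (fun e => decide (e.1 = (body p).length))
  unfold gm at hx ⊢
  obtain ⟨r, hr⟩ := h1
  rw [← hr]
  rw [Option.mem_def, Option.map_eq_some_iff] at hx ⊢
  obtain ⟨e, he, hex⟩ := hx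
  refine ⟨e, ?_, hex⟩
  obtain ⟨hlt, _⟩ := List.getElem?_eq_some_iff.1 he
  rw [List.getElem?_append_left hlt]
  exact he

end XPLN

open XPLN in
theorem t_PLN : S_PLN := by
  intro W hW req hreq hpre hlen
  have hM : Partrec (fun p : Str => Nat.rfindOpt (gm req p)) :=
    Partrec.rfindOpt (f := gm req) (p_gm req hreq).to_comp
  obtain ⟨c, hc⟩ := hW _ hM
  refine ⟨c + 1, fun a s n x hx => ?_⟩
  have hF : (n, x) ∈ (req (a, s)).filter (fun e => decide (e.1 = n)) :=
    List.mem_filter.2 ⟨hx, decide_eq_true rfl⟩
  obtain ⟨i, hi, hie⟩ := List.getElem_of_mem hF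
  have hi2 : i < (strs n).length := by
    rw [Pool.Agent.H662.TR.length_strs]
    exact lt_of_lt_of_le hi (hlen a s n)
  obtain ⟨σ, hσ⟩ : ∃ σ : Str, σ = (strs n)[i] := ⟨_, rfl⟩
  have hσl : σ.length = n := by
    rw [hσ]
    exact Pool.Agent.H662.TR.mem_strs.1 (List.getElem_mem hi2)
  have hσp : pos σ = i := by
    rw [hσ]
    exact pos_eq n i hi2
  have hg : x ∈ gm req (List.replicate a true ++ false :: σ) s := by
    unfold gm
    rw [lead_eq, body_eq, hσl, hσp, Option.mem_def, Option.map_eq_some_iff]
    exact ⟨(n, x), List.getElem?_eq_some_iff.2 ⟨hi, hie⟩, rfl⟩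
  have hx2 : x ∈ Nat.rfindOpt (gm req (List.replicate a true ++ false :: σ)) :=
    (Nat.rfindOpt_mono fun {b m k} hmk hb => gm_mono hpre _ b hmk hb).2 ⟨s, hg⟩
  obtain ⟨q, hq1, hq2⟩ := hc _ x hx2
  refine ⟨q, ?_, hq2⟩
  rw [List.length_append, List.length_replicate, List.length_cons, hσl] at hq1
  omega

end Pool.Agent.H662.CK
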