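import Pool.Agent.H662.CK.Stm

/-!
# PR: the process is primitive recursive
-/

set_option autoImplicit false

namespace Pool.Agent.H662.CK

open Pool.Agent.H662.TR (Str strs)

namespace XPR

theorem p_strs : Primrec strs := by
  have h : Primrec (fun n : ℕ => Nat.rec (motive := fun _ => List Str) [[]]
      (fun _ (ih : List Str) => ih.map (fun σ => false :: σ) ++ ih.map (fun σ => true :: σ)) n) := by
    refine Primrec.nat_rec₁ (f := fun (_ : ℕ) (ih : List Str) =>
      ih.map (fun σ => false :: σ) ++ ih.map (fun σ => true :: σ)) [[]] ?_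
    refine Primrec.list_append.comp ?_ ?_
    · refine Primrec.list_map Primrec.snd ?_
      exact Primrec.list_cons.comp (Primrec.const false) Primrec.snd
    · refine Primrec.list_map Primrec.snd ?_
      exact Primrec.list_cons.comp (Primrec.const true) Primrec.snd
  refine h.of_eq fun n => ?_
  induction n with
  | zero => rfl
  | succ n ih =>
    simp only [strs]
    rw [← ih]

section
variable {α β : Type} [Primcodable α] [Primcodable β]

theorem padd {f g : α → ℕ} (hf : Primrec f) (hg : Primrec g) : Primrec (fun x => f x + g x) :=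
  Primrec.nat_add.comp hf hg

theorem pmul {f g : α → ℕ} (hf : Primrec f) (hg : Primrec g) : Primrec (fun x => f x * g x) :=
  Primrec.nat_mul.comp hf hg

theorem psub {f g : α → ℕ} (hf : Primrec f) (hg : Primrec g) : Primrec (fun x => f x - g x) :=
  Primrec.nat_sub.comp hf hg

theorem pc (n : ℕ) : Primrec (fun _ : α => n) := Primrec.const n

theorem ppow {f : α → ℕ} (hf : Primrec f) : Primrec (fun x => 2 ^ f x) := by
  have h : Primrec (fun n : ℕ => 2 ^ n) := by
    have h1 : Primrec (fun n : ℕ => Nat.rec (motive := fun _ => ℕ) 1 (fun _ ih => ih * 2) n) :=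
      Primrec.nat_rec₁ (f := fun (_ : ℕ) (ih : ℕ) => ih * 2) 1
        (Primrec.nat_mul.comp Primrec.snd (Primrec.const 2))
    refine h1.of_eq fun n => ?_
    induction n with
    | zero => rfl
    | succ n ih => rw [pow_succ, ← ih]
  exact h.comp hf

theorem p_filter {l : α → List β} {q : α → β → Bool}
    (hl : Primrec l) (hq : Primrec (fun x : α × β => q x.1 x.2)) :
    Primrec (fun a => (l a).filter (q a)) := by
  have h : PrimrecRel (fun (b : β) (a : α) => q a b = true) :=
    Primrec.eq.comp (hq.comp (Primrec.pair Primrec.snd Primrec.fst)) (Primrec.const true)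
  have h2 := (PrimrecRel.listFilter h).comp hl Primrec.id
  refine h2.of_eq fun a => ?_
  simp only [id, Bool.decide_eq_true]

theorem p_all {l : α → List β} {q : α → β → Bool}
    (hl : Primrec l) (hq : Primrec (fun x : α × β => q x.1 x.2)) :
    Primrec (fun a => (l a).all (q a)) := by
  have h1 : Primrec (fun a => (l a).filter (fun b => !(q a b))) :=
    p_filter (q := fun a b => !(q a b)) hl (Primrec.not.comp hq)
  have h2 : Primrec (fun a => decide (((l a).filter (fun b => !(q a b))).length = 0)) :=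
    (Primrec.eq.comp (Primrec.list_length.comp h1) (Primrec.const 0)).decide
  refine h2.of_eq fun a => ?_
  rw [Bool.eq_iff_iff, decide_eq_true_iff, List.length_eq_zero_iff, List.filter_eq_nil_iff,
    List.all_eq_true]
  simp

theorem p_mem {l : α → List ℕ} {v : α → ℕ} (hl : Primrec l) (hv : Primrec v) :
    Primrec (fun a => decide (v a ∈ l a)) := by
  have h1 : Primrec (fun a => (l a).all (fun b => !(decide (b = v a)))) :=
    p_all (q := fun a b => !(decide (b = v a))) hl
      (Primrec.not.comp (Primrec.eq.comp Primrec.snd (hv.comp Primrec.fst)).decide)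
  refine (Primrec.not.comp h1).of_eq fun a => ?_
  rw [Bool.eq_iff_iff, decide_eq_true_iff, Bool.not_eq_true', ← Bool.not_eq_true,
    List.all_eq_true]
  simp

theorem p_rep {f : α → ℕ} (hf : Primrec f) : Primrec (fun a => List.replicate (f a) false) := by
  have h : Primrec (fun a => (List.range (f a)).map (fun _ => false)) :=
    Primrec.list_map (Primrec.list_range.comp hf) (Primrec.const false).to₂
  refine h.of_eq fun a => ?_
  rw [List.map_const', List.length_range]

/-! ### parameters -/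

theorem p_oo {f : α → ℕ} (hf : Primrec f) : Primrec (fun x => oo (f x)) :=
  padd (pmul (pc 2) hf) (pc 2)

theorem p_SS {f : α → ℕ} (hf : Primrec f) : Primrec (fun x => SS (f x)) :=
  padd (p_oo hf) (pc 5)

theorem p_TT (m : ℕ) {f : α → ℕ} (hf : Primrec f) : Primrec (fun x => TT m (f x)) :=
  pmul (pc (m + 1)) (padd (p_SS hf) (pc 1))

theorem p_LL (m : ℕ) {f : α → ℕ} (hf : Primrec f) : Primrec (fun x => LL m (f x)) :=
  padd (padd (p_oo hf) (p_TT m hf)) (pc 3)

theorem p_qq (m : ℕ) {f : α → ℕ} (hf : Primrec f) : Primrec (fun x => qq m (f x)) :=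
  padd (padd (pmul (p_TT m hf) (p_LL m hf)) (p_oo hf)) (pc 1)

theorem p_RR (m : ℕ) {f : α → ℕ} (hf : Primrec f) : Primrec (fun x => RR m (f x)) :=
  ppow (p_qq m hf)

theorem p_L0 (m : ℕ) {f : α → ℕ} (hf : Primrec f) : Primrec (fun x => L0 m (f x)) :=
  padd (p_RR m hf) (pc 3)

theorem p_jj (m : ℕ) {f r : α → ℕ} (hf : Primrec f) (hr : Primrec r) :
    Primrec (fun x => jj m (f x) (r x)) :=
  pmul (padd hr (pc 1)) (padd (p_qq m hf) (pc 1))

theorem p_gg (m : ℕ) {f r t : α → ℕ} (hf : Primrec f) (hr : Primrec r) (ht : Primrec t) :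
    Primrec (fun x => gg m (f x) (r x) (t x)) :=
  psub (padd (p_jj m hf hr) (p_qq m hf)) (pmul ht (p_LL m hf))

theorem p_uu (m : ℕ) {f r i : α → ℕ} (hf : Primrec f) (hr : Primrec r) (hi : Primrec i) :
    Primrec (fun x => uu m (f x) (r x) (i x)) :=
  psub (padd (p_jj m hf hr) (p_L0 m hf)) hi

theorem p_Gp (m : ℕ) {f r i : α → ℕ} (hf : Primrec f) (hr : Primrec r) (hi : Primrec i) :
    Primrec (fun x => Gp m (f x) (r x) (i x)) := by
  unfold Gp
  refine Primrec.list_map (p_strs.comp (p_jj m hf hr)) ?_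
  refine Primrec.list_append.comp Primrec.snd ?_
  exact p_rep (padd (pmul (hr.comp Primrec.fst) (padd (p_RR m (hf.comp Primrec.fst)) (pc 1)))
    (hi.comp Primrec.fst))

theorem p_newr (m : ℕ) {f r i Z : α → ℕ} {M N : α → List (ℕ × Str)} (hf : Primrec f)
    (hr : Primrec r) (hi : Primrec i) (hM : Primrec M) (hN : Primrec N) (hZ : Primrec Z) :
    Primrec (fun x => newr m (f x) (r x) (i x) (M x) (N x) (Z x)) := by
  unfold newr
  have hG := p_Gp m hf hr hi
  refine Primrec.pair (Primrec.pair hr (Primrec.pair hi (Primrec.const 0))) ?_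
  refine Primrec.pair hG (Primrec.pair (Primrec.pair ?_ ?_) (padd hZ (ppow hi)))
  · refine Primrec.list_append.comp hM (Primrec.list_map hG ?_)
    refine Primrec.pair ?_ Primrec.snd
    exact psub (p_gg m (hf.comp Primrec.fst) (hr.comp Primrec.fst) (pc 0))
      (p_oo (hf.comp Primrec.fst))
  · refine Primrec.list_append.comp hN (Primrec.list_map hG ?_)
    refine Primrec.pair ?_ Primrec.snd
    exact p_uu m (hf.comp Primrec.fst) (hr.comp Primrec.fst) (hi.comp Primrec.fst)

theorem p_lst {P : (ℕ × Str) × ℕ → Bool} (hP : Primrec P) {b s : α → ℕ} {x : α → Str}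
    (hb : Primrec b) (hx : Primrec x) (hs : Primrec s) :
    Primrec (fun a => lst P (b a) (x a) (s a)) := by
  unfold lst
  refine Primrec.list_length.comp ?_
  refine p_filter (q := fun a n => !(P ((n, x a), s a))) (Primrec.list_range.comp hb) ?_
  exact Primrec.not.comp (hP.comp (Primrec.pair (Primrec.pair Primrec.snd (hx.comp Primrec.fst))
    (hs.comp Primrec.fst)))

variable {c : Ctx} (hW : Primrec c.PW) (hV : Primrec c.PV) (hl : Primrec c.lam)

include hW in
theorem p_PW {n s : α → ℕ} {x : α → Str} (hn : Primrec n) (hx : Primrec x) (hs : Primrec s) :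
    Primrec (fun a => c.PW ((n a, x a), s a)) :=
  hW.comp (Primrec.pair (Primrec.pair hn hx) hs)

include hW hV hl in
theorem p_rdy1 {f r i t s : α → ℕ} {x : α → Str} (hf : Primrec f) (hr : Primrec r)
    (hi : Primrec i) (ht : Primrec t) (hs : Primrec s) (hx : Primrec x) :
    Primrec (fun a => rdy1 c (f a) (r a) (i a) (t a) (s a) (x a)) := by
  unfold rdy1
  have hg := p_gg c.m hf hr ht
  have hu : Primrec (fun a => uu c.m (f a) (r a) (i a) + oo (f a)) :=
    padd (p_uu c.m hf hr hi) (p_oo hf)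
  refine Primrec.and.comp (p_PW hW hg hx hs) (Primrec.and.comp ?_ ?_)
  · exact hV.comp (Primrec.pair (Primrec.pair hu hx) hs)
  · refine p_mem (l := fun a => c.lam ((x a, lst c.PV (uu c.m (f a) (r a) (i a) + oo (f a)) (x a)
      (s a)), s a)) (v := fun a => lst c.PW (gg c.m (f a) (r a) (t a)) (x a) (s a)) ?_ ?_
    · exact hl.comp (Primrec.pair (Primrec.pair hx (p_lst hV hu hx hs)) hs)
    · exact p_lst hW hg hx hs

/-! ### the state -/

theorem p_zr {z : α → Stt} (hz : Primrec z) : Primrec (fun a => zr (z a)) :=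
  Primrec.fst.comp (Primrec.fst.comp hz)

theorem p_zi {z : α → Stt} (hz : Primrec z) : Primrec (fun a => zi (z a)) :=
  Primrec.fst.comp (Primrec.snd.comp (Primrec.fst.comp hz))

theorem p_zt {z : α → Stt} (hz : Primrec z) : Primrec (fun a => zt (z a)) :=
  Primrec.snd.comp (Primrec.snd.comp (Primrec.fst.comp hz))

theorem p_zact {z : α → Stt} (hz : Primrec z) : Primrec (fun a => zact (z a)) :=
  Primrec.fst.comp (Primrec.snd.comp hz)

theorem p_zM {z : α → Stt} (hz : Primrec z) : Primrec (fun a => zM (z a)) :=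
  Primrec.fst.comp (Primrec.fst.comp (Primrec.snd.comp (Primrec.snd.comp hz)))

theorem p_zN {z : α → Stt} (hz : Primrec z) : Primrec (fun a => zN (z a)) :=
  Primrec.snd.comp (Primrec.fst.comp (Primrec.snd.comp (Primrec.snd.comp hz)))

theorem p_zZ {z : α → Stt} (hz : Primrec z) : Primrec (fun a => zZ (z a)) :=
  Primrec.snd.comp (Primrec.snd.comp (Primrec.snd.comp hz))

include hW hV hl in
theorem p_rdy {f s : α → ℕ} {z : α → Stt} (hf : Primrec f) (hs : Primrec s) (hz : Primrec z) :
    Primrec (fun a => rdy c (f a) (s a) (z a)) := by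
  unfold rdy
  refine p_all (q := fun a x => rdy1 c (f a) (zr (z a)) (zi (z a)) (zt (z a)) (s a) x)
    (p_zact hz) ?_
  have hz' : Primrec (fun x : α × Str => z x.1) := hz.comp Primrec.fst
  exact p_rdy1 hW hV hl (hf.comp Primrec.fst) (p_zr hz') (p_zi hz') (p_zt hz')
    (hs.comp Primrec.fst) Primrec.snd

include hW in
theorem p_lps {f s : α → ℕ} {z : α → Stt} (hf : Primrec f) (hs : Primrec s) (hz : Primrec z) :
    Primrec (fun a => lps c (f a) (s a) (z a)) := by
  unfold lps
  have hz' : Primrec (fun x : α × Str => z x.1) := hz.comp Primrec.fst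
  refine p_filter (q := fun a x => c.PW ((gg c.m (f a) (zr (z a)) (zt (z a) + 1), x), s a))
    (p_zact hz) ?_
  exact p_PW hW (p_gg c.m (hf.comp Primrec.fst) (p_zr hz') (padd (p_zt hz') (pc 1)))
    Primrec.snd (hs.comp Primrec.fst)

include hW in
theorem p_kps {f s : α → ℕ} {z : α → Stt} (hf : Primrec f) (hs : Primrec s) (hz : Primrec z) :
    Primrec (fun a => kps c (f a) (s a) (z a)) := by
  unfold kps
  have hz' : Primrec (fun x : α × Str => z x.1) := hz.comp Primrec.fst
  refine p_filter (q := fun a x => !(c.PW ((gg c.m (f a) (zr (z a)) (zt (z a) + 1), x), s a)))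
    (p_zact hz) ?_
  exact Primrec.not.comp (p_PW hW (p_gg c.m (hf.comp Primrec.fst) (p_zr hz')
    (padd (p_zt hz') (pc 1))) Primrec.snd (hs.comp Primrec.fst))

include hW in
theorem p_adv {f s : α → ℕ} {z : α → Stt} (hf : Primrec f) (hs : Primrec s) (hz : Primrec z) :
    Primrec (fun a => adv c (f a) (s a) (z a)) := by
  unfold adv
  have hk := p_kps hW hf hs hz
  have hz' : Primrec (fun x : α × Str => z x.1) := hz.comp Primrec.fst
  refine Primrec.pair (Primrec.pair (p_zr hz) (Primrec.pair (p_zi hz) (padd (p_zt hz) (pc 1)))) ?_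
  refine Primrec.pair hk (Primrec.pair (Primrec.pair ?_ (p_zN hz)) (p_zZ hz))
  refine Primrec.list_append.comp (p_zM hz) (Primrec.list_map hk ?_)
  refine Primrec.pair ?_ Primrec.snd
  exact psub (p_gg c.m (hf.comp Primrec.fst) (p_zr hz') (padd (p_zt hz') (pc 1)))
    (p_oo (hf.comp Primrec.fst))

include hW hV hl in
theorem p_nxt {f s : α → ℕ} {z : α → Stt} (hf : Primrec f) (hs : Primrec s) (hz : Primrec z) :
    Primrec (fun a => nxt c (f a) (s a) (z a)) := by
  unfold nxt
  refine Primrec.ite (Primrec.eq.comp (p_rdy hW hV hl hf hs hz) (Primrec.const true)) ?_ hz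
  refine Primrec.ite (Primrec.nat_lt.comp (p_zt hz) (p_TT c.m hf)) ?_ ?_
  · refine Primrec.ite (Primrec.nat_le.comp (ppow (p_jj c.m hf (p_zr hz)))
      (pmul (Primrec.list_length.comp (p_lps hW hf hs hz)) (pmul (pc 2) (p_TT c.m hf)))) ?_ ?_
    · exact p_newr c.m hf (p_zr hz) (padd (p_zi hz) (pc 1)) (p_zM hz) (p_zN hz) (p_zZ hz)
    · exact p_adv hW hf hs hz
  · refine Primrec.ite (Primrec.nat_le.comp (ppow (psub (p_L0 c.m hf) (pc 2))) (p_zZ hz)) hz ?_
    exact p_newr c.m hf (padd (p_zr hz) (pc 1)) (pc 0) (p_zM hz) (p_zN hz) (p_zZ hz)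

end

end XPR

theorem t_PR : S_PR := by
  intro c hW hV hl
  have h0 : Primrec (fun a : ℕ => newr c.m a 0 0 [] [] 0) :=
    XPR.p_newr c.m Primrec.id (XPR.pc 0) (XPR.pc 0) (Primrec.const []) (Primrec.const [])
      (XPR.pc 0)
  have h1 : Primrec₂ (fun (a : ℕ) (p : ℕ × Stt) => nxt c a p.1 p.2) :=
    XPR.p_nxt hW hV hl Primrec.fst (Primrec.fst.comp Primrec.snd) (Primrec.snd.comp Primrec.snd)
  have h2 : Primrec₂ (fun (a : ℕ) (n : ℕ) => Nat.rec (motive := fun _ => Stt)
      (newr c.m a 0 0 [] [] 0) (fun n ih => nxt c a n ih) n) := Primrec.nat_rec h0 h1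
  refine Primrec.of_eq (f := fun x : ℕ × ℕ => Nat.rec (motive := fun _ => Stt)
      (newr c.m x.1 0 0 [] [] 0) (fun n ih => nxt c x.1 n ih) x.2) h2 fun x => ?_
  obtain ⟨a, n⟩ := x
  simp only
  induction n with
  | zero => rfl
  | succ n ih =>
    simp only [st]
    rw [← ih]

end Pool.Agent.H662.CK
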