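import Pool.Agent.H662.CK.Stm

/-! # Project CK, task PX (helper840): requests only grow -/

set_option autoImplicit false

namespace Pool.Agent.H662.CK

namespace XPX

theorem newr_M (m a r i : ℕ) (M N : List (ℕ × TR.Str)) (Z : ℕ) : M <+: zM (newr m a r i M N Z) :=
  List.prefix_append _ _

theorem newr_N (m a r i : ℕ) (M N : List (ℕ × TR.Str)) (Z : ℕ) : N <+: zN (newr m a r i M N Z) :=
  List.prefix_append _ _

theorem adv_M (c : Ctx) (a s : ℕ) (z : Stt) : zM z <+: zM (adv c a s z) :=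
  List.prefix_append _ _

theorem adv_N (c : Ctx) (a s : ℕ) (z : Stt) : zN z <+: zN (adv c a s z) :=
  List.prefix_rfl

theorem nxt_pre (c : Ctx) (a s : ℕ) (z : Stt) :
    zM z <+: zM (nxt c a s z) ∧ zN z <+: zN (nxt c a s z) := by
  unfold nxt
  split_ifs
  · exact ⟨newr_M _ _ _ _ _ _ _, newr_N _ _ _ _ _ _ _⟩
  · exact ⟨adv_M _ _ _ _, adv_N _ _ _ _⟩
  · exact ⟨List.prefix_rfl, List.prefix_rfl⟩
  · exact ⟨newr_M _ _ _ _ _ _ _, newr_N _ _ _ _ _ _ _⟩
  · exact ⟨List.prefix_rfl, List.prefix_rfl⟩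

end XPX

theorem t_PX : S_PX := fun c a s => XPX.nxt_pre c a s (st c a s)

end Pool.Agent.H662.CK
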