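import Pool.Agent.H662.CK.Stm

/-!
# CK R1: the frozen statement S14350 from the core theorem (helper628)
-/

set_option autoImplicit false

namespace Pool.Agent.H662.CK

namespace XR1

open Pool.Agent.H662.TR (Str)

theorem Cx_eq (W : Str →. Str) (x : Str) :
    Cx W x = sInf (List.length '' {p : List Bool | x ∈ W p}) := by
  unfold Cx
  congr 1
  ext n
  constructor
  · rintro ⟨p, hp, hx⟩
    exact ⟨p, hx, hp⟩
  · rintro ⟨p, hx, hp⟩
    exact ⟨p, hp, hx⟩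

end XR1

theorem t_R1 (hCORE : S_CORE) (hLP : S_LP) : S_R1 := by
  rintro ⟨U, V, hU, hUo, hV, hPF, hVo, ψ, hψ, c, h⟩
  have oU : OptP U := by
    intro M hM
    obtain ⟨c, hc⟩ := hUo M hM
    refine ⟨c, fun p z hz => ?_⟩
    obtain ⟨q, hq1, hq2⟩ := hc z p hz
    exact ⟨q, hq2, hq1⟩
  have oV : OptF V := by
    intro M hM hMp
    obtain ⟨c, hc⟩ := hVo M hM hMp
    refine ⟨c, fun p z hz => ?_⟩
    obtain ⟨q, hq1, hq2⟩ := hc z p hz
    exact ⟨q, hq2, hq1⟩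
  obtain ⟨lam, hlam, mono, card, hmem⟩ := hLP ψ hψ c
  obtain ⟨x, hx⟩ := hCORE U V hU oU hV hPF oV lam (2 * c + 1) hlam mono card
  obtain ⟨y, hy, h1, h2⟩ := h x
  rw [← XR1.Cx_eq V x] at hy
  rw [← XR1.Cx_eq U x] at h1 h2
  obtain ⟨s, hs⟩ := hmem (x, Cx V x) y (Cx U x) hy h1 h2
  exact hx s hs

end Pool.Agent.H662.CK
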