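import Pool.Agent.H662.CK.Stm

/-!
# Leaf R2: the frozen statement S14944 from the core theorem
-/

set_option autoImplicit false

namespace Pool.Agent.H662.CK.XR2

open Pool.Agent.H662.CK

/-- the machine which outputs the length of the program -/
theorem lenMachine : Partrec₂ (fun (p : List Bool) (_ : List Bool × ℕ) => Part.some p.length) :=
  (Primrec.list_length.comp Primrec.fst).to_comp.partrec

end Pool.Agent.H662.CK.XR2

namespace Pool.Agent.H662.CK

theorem t_R2 (hCORE : S_CORE) (hLQ : S_LQ) (hEXP : S_EXP) (hEXF : S_EXF) (hEXC : S_EXC) : S_R2 := by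
  intro h
  obtain ⟨W, hW, hOW⟩ := hEXP
  obtain ⟨V, hV, hPV, hOV⟩ := hEXF
  obtain ⟨U, hU, hOU⟩ := hEXC
  obtain ⟨c, hc⟩ := h W V U hW hOW hV hPV hOV hU hOU
  obtain ⟨lam, hlam, hmono, hcard, hout⟩ := hLQ U hU c
  obtain ⟨x, hx⟩ := hCORE W V hW hOW hV hPV hOV lam (2 ^ (c + 1)) hlam hmono hcard
  have hcx : sInf {n : ℕ | ∃ p : List Bool, p.length = n ∧ Cx W x ∈ U p (x, Cx V x)} ≤ c := hc x
  have hne : {n : ℕ | ∃ p : List Bool, p.length = n ∧ Cx W x ∈ U p (x, Cx V x)}.Nonempty := by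
    obtain ⟨d, hd⟩ := hOU _ XR2.lenMachine
    obtain ⟨q, _, hq⟩ := hd (List.replicate (Cx W x) false) (x, Cx V x) (Cx W x)
      (Part.mem_some_iff.2 (List.length_replicate).symm)
    exact ⟨q.length, q, rfl, hq⟩
  obtain ⟨p, hp, hpU⟩ := Nat.sInf_mem hne
  obtain ⟨s, hs⟩ := hout (x, Cx V x) (Cx W x) p (by rw [hp]; exact hcx) hpU
  exact hx s hs

end Pool.Agent.H662.CK
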