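import Pool.Agent.H662.CK.Stm

/-!
# RD: eventually ready
-/

set_option autoImplicit false

namespace Pool.Agent.H662.CK

open Pool.Agent.H662.TR (Str strs)

namespace XRD

theorem lst_eq (hLST : S_LST) (P : (ℕ × Str) × ℕ → Bool) (W : Str →. Str)
    (hmono : ∀ n n' x s s', n ≤ n' → s ≤ s' → P ((n, x), s) = true → P ((n', x), s') = true)
    (hiff : ∀ n x, (∃ s, P ((n, x), s) = true) ↔ ∃ p : Str, p.length ≤ n ∧ x ∈ W p)
    (b : ℕ) (x : Str) (hq : ∃ q : Str, q.length ≤ b ∧ x ∈ W q) :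
    ∃ s0, ∀ s', s0 ≤ s' → P ((b, x), s') = true ∧ lst P b x s' = Cx W x := by
  obtain ⟨q, hq1, hq2⟩ := hq
  have hne : {n : ℕ | ∃ p : Str, p.length = n ∧ x ∈ W p}.Nonempty := ⟨q.length, q, rfl, hq2⟩
  obtain ⟨p, hp1, hp2⟩ := Nat.sInf_mem hne
  have hk : Cx W x ≤ q.length := Nat.sInf_le ⟨q, rfl, hq2⟩
  have hp1' : p.length = Cx W x := hp1
  obtain ⟨s2, hs2⟩ := (hiff (Cx W x) x).2 ⟨p, hp1'.le, hp2⟩
  refine ⟨s2, fun s' hs' => ?_⟩
  have h1 : P ((Cx W x, x), s') = true := hmono _ _ _ _ _ le_rfl hs' hs2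
  have h2 : P ((b, x), s') = true := hmono _ _ _ _ _ (hk.trans hq1) le_rfl h1
  refine ⟨h2, ?_⟩
  obtain ⟨_, h4, h5, _⟩ := hLST P hmono b x s'
  apply le_antisymm
  · by_contra hlt
    rw [not_le] at hlt
    have h6 := h4 _ hlt
    rw [h1] at h6
    exact absurd h6 (by simp)
  · obtain ⟨p', hp', hp''⟩ := (hiff _ x).1 ⟨s', h5 h2⟩
    exact (Nat.sInf_le ⟨p', rfl, hp''⟩ : Cx W x ≤ p'.length).trans hp'

theorem all_ev (l : List Str) (p : Str → ℕ → Prop) (h : ∀ x ∈ l, ∃ s0, ∀ s', s0 ≤ s' → p x s') :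
    ∃ s0, ∀ s', s0 ≤ s' → ∀ x ∈ l, p x s' := by
  induction l with
  | nil => exact ⟨0, fun _ _ x hx => absurd hx (List.not_mem_nil)⟩
  | cons y l ih =>
    obtain ⟨s1, h1⟩ := h y List.mem_cons_self
    obtain ⟨s2, h2⟩ := ih (fun x hx => h x (List.mem_cons_of_mem y hx))
    refine ⟨max s1 s2, fun s' hs' x hx => ?_⟩
    rcases List.mem_cons.1 hx with rfl | hx
    · exact h1 s' ((le_max_left _ _).trans hs')
    · exact h2 s' ((le_max_right _ _).trans hs') x hx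

end XRD

open XRD in
/-- **RD** -/
theorem t_RD (hLST : S_LST) (hNUM : S_NUM) (hII : S_II) : S_RD := by
  intro c W V hyp a hval hlam s
  obtain ⟨A, B, inv⟩ := hII c W V hyp a s
  have hone : ∀ x ∈ zact (st c a s), ∃ s0, ∀ s', s0 ≤ s' →
      rdy1 c a (zr (st c a s)) (zi (st c a s)) (zt (st c a s)) s' x = true := by
    intro x hx
    obtain ⟨hM, hN⟩ := inv.R1 x hx
    have hg : oo a ≤ gg c.m a (zr (st c a s)) (zt (st c a s)) :=
      ((hNUM c.m a).2.1 (zr (st c a s)) (zt (st c a s)) inv.tT).2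
    obtain ⟨q1, hq1, hq1'⟩ := hval.1 s _ x hM
    obtain ⟨q2, hq2, hq2'⟩ := hval.2 s _ x hN
    rw [Nat.sub_add_cancel hg] at hq1
    obtain ⟨s1, h1⟩ := lst_eq hLST c.PW W hyp.monoW hyp.iffW _ x ⟨q1, hq1, hq1'⟩
    obtain ⟨s2, h2⟩ := lst_eq hLST c.PV V hyp.monoV hyp.iffV _ x ⟨q2, hq2, hq2'⟩
    obtain ⟨s3, h3⟩ := hlam x
    refine ⟨max s1 (max s2 s3), fun s' hs' => ?_⟩
    obtain ⟨a1, a2⟩ := h1 s' ((le_max_left _ _).trans hs')
    obtain ⟨b1, b2⟩ := h2 s' (((le_max_left _ _).trans (le_max_right _ _)).trans hs')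
    have h4 := hyp.lmono _ s3 s' (((le_max_right _ _).trans (le_max_right _ _)).trans hs') _ h3
    unfold rdy1
    rw [a1, b1, a2, b2, Bool.true_and, Bool.true_and]
    exact decide_eq_true h4
  obtain ⟨s0, h0⟩ := all_ev _ _ hone
  refine ⟨s0, fun s' hs' => ?_⟩
  unfold rdy
  rw [List.all_eq_true]
  exact fun x hx => h0 s' hs' x hx

end Pool.Agent.H662.CK
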