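import Pool.Agent.H662.CK.APX
import Pool.Agent.H662.CK.CAP
import Pool.Agent.H662.CK.CNT
import Pool.Agent.H662.CK.CORE
import Pool.Agent.H662.CK.EXC
import Pool.Agent.H662.CK.EXF
import Pool.Agent.H662.CK.EXP
import Pool.Agent.H662.CK.FC
import Pool.Agent.H662.CK.FZ
import Pool.Agent.H662.CK.GRP
import Pool.Agent.H662.CK.I0
import Pool.Agent.H662.CK.IA
import Pool.Agent.H662.CK.IB
import Pool.Agent.H662.CK.IC
import Pool.Agent.H662.CK.II
import Pool.Agent.H662.CK.IW
import Pool.Agent.H662.CK.KC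
import Pool.Agent.H662.CK.KC1
import Pool.Agent.H662.CK.KD
import Pool.Agent.H662.CK.KRF
import Pool.Agent.H662.CK.LP
import Pool.Agent.H662.CK.LQ
import Pool.Agent.H662.CK.LST
import Pool.Agent.H662.CK.MB
import Pool.Agent.H662.CK.NB
import Pool.Agent.H662.CK.NUM
import Pool.Agent.H662.CK.PLN
import Pool.Agent.H662.CK.PR
import Pool.Agent.H662.CK.PX
import Pool.Agent.H662.CK.R1
import Pool.Agent.H662.CK.R2
import Pool.Agent.H662.CK.RD

/-! # Assembly of the proofs of S14350 and S14944 -/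

set_option autoImplicit false

namespace Pool.Agent.H662.CK

theorem all_CORE : S_CORE := by
  have hCNT := t_CNT
  have hGRP := t_GRP
  have hNUM := t_NUM
  have hLST := t_LST
  have hCAP := t_CAP hCNT hGRP
  have hI0 := t_I0 hGRP hNUM
  have hIW := t_IW hLST
  have hIA := t_IA hGRP hNUM hLST
  have hIB := t_IB hGRP hNUM hCAP
  have hKD := t_KD hLST
  have hIC := t_IC hGRP hNUM hKD
  have hII := t_II hI0 hIW hIA hIB hIC
  have hMB := t_MB hII hCAP hNUM
  have hNB := t_NB hII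
  have hRD := t_RD hLST hNUM hII
  have hFZ := t_FZ hRD hII
  have hFC := t_FC hII hKD t_KRF hGRP
  exact t_CORE t_APX t_PLN (t_KC t_KC1) t_PR t_PX hMB hNB hFZ hFC

theorem main1 : S_R1 := t_R1 all_CORE t_LP

theorem main2 : S_R2 := t_R2 all_CORE t_LQ t_EXP t_EXF t_EXC

end Pool.Agent.H662.CK
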