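import Pool.Agent.H662.CK.Stm

set_option autoImplicit false

/-! Prefix-free machine from requests (Kraft-Chaitin). -/

namespace Pool.Agent.H662.CK

open Pool.Agent.H662.TR (Str strs)

namespace XKC

/-- the `n` bits of `v`, most significant first -/
def bt (n v : ℕ) : Str := (List.range n).map (fun i => decide (v / 2 ^ (n - 1 - i) % 2 = 1))

/-- code word -/
def cw (a n v : ℕ) : Str := List.replicate a true ++ (false :: bt n v)

theorem length_bt (n v : ℕ) : (bt n v).length = n := by simp [bt]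

theorem length_cw (a n v : ℕ) : (cw a n v).length = n + a + 1 := by
  unfold cw
  rw [List.length_append, List.length_replicate, List.length_cons, length_bt]
  omega

theorem pow_prim : Primrec₂ (fun a b : ℕ => a ^ b) := Primrec₂.unpaired'.1 Nat.Primrec.pow

theorem bt_prim : Primrec₂ bt := by
  have h1 : Primrec (fun q : (ℕ × ℕ) × ℕ => q.1.2 / 2 ^ (q.1.1 - 1 - q.2) % 2) :=
    Primrec.nat_mod.comp (Primrec.nat_div.comp (Primrec.snd.comp Primrec.fst)
      (pow_prim.comp (Primrec.const 2) (Primrec.nat_sub.comp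
        (Primrec.nat_sub.comp (Primrec.fst.comp Primrec.fst) (Primrec.const 1)) Primrec.snd)))
      (Primrec.const 2)
  have h2 : Primrec (fun q : (ℕ × ℕ) × ℕ => decide (q.1.2 / 2 ^ (q.1.1 - 1 - q.2) % 2 = 1)) :=
    (Primrec.ite (Primrec.eq.comp h1 (Primrec.const 1)) (Primrec.const true) (Primrec.const false)).of_eq
      (fun q => by
        by_cases h : q.1.2 / 2 ^ (q.1.1 - 1 - q.2) % 2 = 1
        · rw [if_pos h, decide_eq_true h]
        · rw [if_neg h, decide_eq_false h])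
  have h3 : Primrec₂ (fun (q : ℕ × ℕ) (i : ℕ) => decide (q.2 / 2 ^ (q.1 - 1 - i) % 2 = 1)) := h2
  exact Primrec.list_map (Primrec.list_range.comp Primrec.fst) h3

theorem cw_prim : Primrec (fun q : ℕ × (ℕ × ℕ) => cw q.1 q.2.1 q.2.2) := by
  have h1 : Primrec (fun q : ℕ × (ℕ × ℕ) => (List.range q.1).map (fun _ => true)) :=
    Primrec.list_map (Primrec.list_range.comp Primrec.fst) (Primrec.const true).to₂
  have h2 : Primrec (fun q : ℕ × (ℕ × ℕ) => false :: bt q.2.1 q.2.2) :=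
    Primrec.list_cons.comp (Primrec.const false) (bt_prim.comp (Primrec.fst.comp Primrec.snd)
      (Primrec.snd.comp Primrec.snd))
  refine (Primrec.list_append.comp h1 h2).of_eq (fun q => ?_)
  unfold cw
  simp

theorem alst_prim : Primrec alst := by
  have h1 : Primrec (fun q : List ℕ × ((ℕ × ℕ) × ℕ) => q.2.1.1) :=
    Primrec.fst.comp (Primrec.fst.comp Primrec.snd)
  have h2 : Primrec (fun q : List ℕ × ((ℕ × ℕ) × ℕ) => q.2.1.2) :=
    Primrec.snd.comp (Primrec.fst.comp Primrec.snd)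
  have h3 : Primrec (fun q : List ℕ × ((ℕ × ℕ) × ℕ) => q.2.2) := Primrec.snd.comp Primrec.snd
  have hE : Primrec (fun q : List ℕ × ((ℕ × ℕ) × ℕ) => max q.2.1.2 q.2.2) := Primrec.nat_max.comp h2 h3
  have hA : Primrec (fun q : List ℕ × ((ℕ × ℕ) × ℕ) => q.2.1.1 * 2 ^ (max q.2.1.2 q.2.2 - q.2.1.2)) :=
    Primrec.nat_mul.comp h1 (pow_prim.comp (Primrec.const 2) (Primrec.nat_sub.comp hE h2))
  have hP : Primrec (fun q : List ℕ × ((ℕ × ℕ) × ℕ) => 2 ^ (max q.2.1.2 q.2.2 - q.2.2)) :=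
    pow_prim.comp (Primrec.const 2) (Primrec.nat_sub.comp hE h3)
  have hh : Primrec₂ (fun (_ : List ℕ) (x : (ℕ × ℕ) × ℕ) =>
      (((x.1.1 * 2 ^ (max x.1.2 x.2 - x.1.2)) / 2 ^ (max x.1.2 x.2 - x.2) + 2) * 2 ^ (max x.1.2 x.2 - x.2),
        max x.1.2 x.2)) :=
    Primrec.pair (Primrec.nat_mul.comp (Primrec.nat_add.comp (Primrec.nat_div.comp hA hP) (Primrec.const 2)) hP) hE
  exact Primrec.list_foldl (f := fun l : List ℕ => l) (g := fun _ => ((0, 0) : ℕ × ℕ)) Primrec.id
    (Primrec.const (0, 0)) hh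

theorem alidx_prim : Primrec₂ alidx := by
  have h1 : Primrec (fun q : List ℕ × ℕ => (alst q.1).1) := Primrec.fst.comp (alst_prim.comp Primrec.fst)
  have h2 : Primrec (fun q : List ℕ × ℕ => (alst q.1).2) := Primrec.snd.comp (alst_prim.comp Primrec.fst)
  have h3 : Primrec (fun q : List ℕ × ℕ => q.2) := Primrec.snd
  have hE := Primrec.nat_max.comp h2 h3
  exact Primrec.nat_add.comp (Primrec.nat_div.comp (Primrec.nat_mul.comp h1
    (pow_prim.comp (Primrec.const 2) (Primrec.nat_sub.comp hE h2)))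
    (pow_prim.comp (Primrec.const 2) (Primrec.nat_sub.comp hE h3))) (Primrec.const 1)

/-- one trial -/
def trial (req : ℕ × ℕ → List (ℕ × Str)) (p : Str) (t : ℕ) : Option Str :=
  ((req (t.unpair.1, t.unpair.2.unpair.1))[t.unpair.2.unpair.2]?).bind (fun e =>
    if cw t.unpair.1 e.1 (alidx (((req (t.unpair.1, t.unpair.2.unpair.1)).map Prod.fst).take
      t.unpair.2.unpair.2) e.1) = p then some e.2 else none)

theorem trial_prim {req : ℕ × ℕ → List (ℕ × Str)} (hr : Primrec req) : Primrec₂ (trial req) := by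
  have ha : Primrec (fun x : Str × ℕ => x.2.unpair.1) := Primrec.fst.comp (Primrec.unpair.comp Primrec.snd)
  have hb : Primrec (fun x : Str × ℕ => x.2.unpair.2) := Primrec.snd.comp (Primrec.unpair.comp Primrec.snd)
  have hs : Primrec (fun x : Str × ℕ => x.2.unpair.2.unpair.1) := Primrec.fst.comp (Primrec.unpair.comp hb)
  have hk : Primrec (fun x : Str × ℕ => x.2.unpair.2.unpair.2) := Primrec.snd.comp (Primrec.unpair.comp hb)
  have hl : Primrec (fun x : Str × ℕ => req (x.2.unpair.1, x.2.unpair.2.unpair.1)) :=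
    hr.comp (Primrec.pair ha hs)
  have hm : Primrec (fun x : Str × ℕ => ((req (x.2.unpair.1, x.2.unpair.2.unpair.1)).map Prod.fst).take
      x.2.unpair.2.unpair.2) :=
    Primrec.list_take.comp hk (Primrec.list_map hl (Primrec.fst.comp Primrec.snd).to₂)
  have he1 : Primrec (fun y : (Str × ℕ) × (ℕ × Str) => y.2.1) := Primrec.fst.comp Primrec.snd
  have he2 : Primrec (fun y : (Str × ℕ) × (ℕ × Str) => y.2.2) := Primrec.snd.comp Primrec.snd
  have hc : Primrec (fun y : (Str × ℕ) × (ℕ × Str) => cw y.1.2.unpair.1 y.2.1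
      (alidx (((req (y.1.2.unpair.1, y.1.2.unpair.2.unpair.1)).map Prod.fst).take
      y.1.2.unpair.2.unpair.2) y.2.1)) :=
    cw_prim.comp (Primrec.pair (ha.comp Primrec.fst) (Primrec.pair he1
      (alidx_prim.comp (hm.comp Primrec.fst) he1)))
  have hg : Primrec₂ (fun (x : Str × ℕ) (e : ℕ × Str) =>
      if cw x.2.unpair.1 e.1 (alidx (((req (x.2.unpair.1, x.2.unpair.2.unpair.1)).map Prod.fst).take
        x.2.unpair.2.unpair.2) e.1) = x.1 then some e.2 else none) :=
    Primrec.ite (Primrec.eq.comp hc (Primrec.fst.comp Primrec.fst)) (Primrec.option_some.comp he2)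
      (Primrec.const none)
  exact Primrec.option_bind (Primrec.list_getElem?.comp hl hk) hg

/-- the `k`-th request at stage `s` is `(n, x)` and it gets the number `v` -/
def isReq (req : ℕ × ℕ → List (ℕ × Str)) (a s k n v : ℕ) (x : Str) : Prop :=
  (req (a, s))[k]? = some (n, x) ∧ alidx (((req (a, s)).map Prod.fst).take k) n = v

theorem trial_iff {req : ℕ × ℕ → List (ℕ × Str)} {p x : Str} {t : ℕ} (h : x ∈ trial req p t) :
    ∃ n v, isReq req t.unpair.1 t.unpair.2.unpair.1 t.unpair.2.unpair.2 n v x ∧ cw t.unpair.1 n v = p := by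
  unfold trial at h
  rw [Option.mem_def, Option.bind_eq_some_iff] at h
  obtain ⟨⟨n, y⟩, h1, h2⟩ := h
  dsimp only at h2
  split_ifs at h2 with h3
  rw [Option.some_inj] at h2
  subst h2
  exact ⟨n, _, ⟨h1, rfl⟩, h3⟩

theorem mem_trial {req : ℕ × ℕ → List (ℕ × Str)} {a s k n v : ℕ} {x : Str} (h : isReq req a s k n v x) :
    x ∈ trial req (cw a n v) (Nat.pair a (Nat.pair s k)) := by
  unfold trial
  simp only [Nat.unpair_pair]
  rw [h.1]
  simp only [Option.bind_some, h.2, if_true]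
  rfl

theorem mono_pre {req : ℕ × ℕ → List (ℕ × Str)} (hpre : ∀ a s, req (a, s) <+: req (a, s + 1)) (a : ℕ)
    {s s' : ℕ} (h : s ≤ s') : req (a, s) <+: req (a, s') := by
  induction s', h using Nat.le_induction with
  | base => exact List.prefix_refl _
  | succ s' _ ih => exact ih.trans (hpre a s')

theorem isReq_mono {req : ℕ × ℕ → List (ℕ × Str)} (hpre : ∀ a s, req (a, s) <+: req (a, s + 1))
    {a s k n v : ℕ} {x : Str} (h : isReq req a s k n v x) {s' : ℕ} (hs : s ≤ s') : isReq req a s' k n v x := by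
  obtain ⟨h1, h2⟩ := h
  obtain ⟨l, hl⟩ := mono_pre hpre a hs
  obtain ⟨hk, -⟩ := List.getElem?_eq_some_iff.mp h1
  unfold isReq
  rw [← hl, List.getElem?_append_left hk, List.map_append, List.take_append_of_le_length
    (by rw [List.length_map]; exact hk.le)]
  exact ⟨h1, h2⟩

theorem key (hKC1 : S_KC1) {req : ℕ × ℕ → List (ℕ × Str)}
    (hsum : ∀ a s, ((req (a, s)).map (fun e => ((1:ℝ) / 2) ^ e.1)).sum ≤ 1 / 2)
    {a s k n v : ℕ} {x : Str} (h : isReq req a s k n v x) :
    v < 2 ^ n ∧ ∀ {k' n' v' : ℕ} {x' : Str}, isReq req a s k' n' v' x' → k < k' →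
      (v + 1) * 2 ^ n' ≤ v' * 2 ^ n := by
  have hl := hKC1 ((req (a, s)).map Prod.fst) (by rw [List.map_map]; exact hsum a s)
  obtain ⟨h1, h2⟩ := h
  obtain ⟨hk, hlk⟩ := List.getElem?_eq_some_iff.mp h1
  have hk2 : k < ((req (a, s)).map Prod.fst).length := by rw [List.length_map]; exact hk
  have hlk2 : ((req (a, s)).map Prod.fst)[k] = n := by rw [List.getElem_map, hlk]
  refine ⟨?_, ?_⟩
  · have h3 := hl.1 k hk2
    rw [hlk2, h2] at h3
    exact h3
  · intro k' n' v' x' h' hkk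
    obtain ⟨h1', h2'⟩ := h'
    obtain ⟨hk', hlk'⟩ := List.getElem?_eq_some_iff.mp h1'
    have hk2' : k' < ((req (a, s)).map Prod.fst).length := by rw [List.length_map]; exact hk'
    have hlk2' : ((req (a, s)).map Prod.fst)[k'] = n' := by rw [List.getElem_map, hlk']
    have h3 := hl.2 k k' hk2 hk2' hkk
    rw [hlk2, hlk2', h2, h2'] at h3
    exact h3

theorem bt_get {n v i : ℕ} (hi : i < n) : (bt n v)[i]? = some (decide (v / 2 ^ (n - 1 - i) % 2 = 1)) := by
  unfold bt
  rw [List.getElem?_map, List.getElem?_range hi]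
  rfl

theorem bt_prefix {n v n' v' : ℕ} (hv : v < 2 ^ n) (hv' : v' < 2 ^ n') (h : bt n v <+: bt n' v') :
    n ≤ n' ∧ v = v' / 2 ^ (n' - n) := by
  have hn : n ≤ n' := by
    have := h.length_le
    rwa [length_bt, length_bt] at this
  refine ⟨hn, ?_⟩
  have hlt : v' / 2 ^ (n' - n) < 2 ^ n := by
    rw [Nat.div_lt_iff_lt_mul (by positivity), ← pow_add]
    rwa [show n + (n' - n) = n' by omega]
  apply Nat.eq_of_testBit_eq
  intro j
  by_cases hj : j < n
  · obtain ⟨t, ht⟩ := h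
    have hi : n - 1 - j < n := by omega
    have e1 := bt_get (v := v) hi
    have e2 : (bt n' v')[n - 1 - j]? = some (decide (v' / 2 ^ (n' - 1 - (n - 1 - j)) % 2 = 1)) :=
      bt_get (by omega)
    rw [← ht, List.getElem?_append_left (by rw [length_bt]; exact hi), e1, Option.some_inj] at e2
    rw [Nat.testBit_eq_decide_div_mod_eq, Nat.testBit_eq_decide_div_mod_eq, Nat.div_div_eq_div_mul, ← pow_add]
    rw [show n - 1 - (n - 1 - j) = j by omega, show n' - 1 - (n - 1 - j) = n' - n + j by omega] at e2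
    exact e2
  · have hjn : 2 ^ n ≤ 2 ^ j := Nat.pow_le_pow_right (by norm_num) (by omega)
    rw [Nat.testBit_eq_false_of_lt (hv.trans_le hjn), Nat.testBit_eq_false_of_lt (hlt.trans_le hjn)]

theorem cw_prefix {n v n' v' : ℕ} : ∀ {a a' : ℕ}, cw a n v <+: cw a' n' v' → a = a' ∧ bt n v <+: bt n' v'
  | 0, 0, h => by
    unfold cw at h
    simp only [List.replicate_zero, List.nil_append, List.cons_prefix_cons, true_and] at h
    exact ⟨rfl, h⟩
  | 0, a' + 1, h => by
    unfold cw at h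
    simp [List.replicate_succ, List.cons_prefix_cons] at h
  | a + 1, 0, h => by
    unfold cw at h
    simp [List.replicate_succ, List.cons_prefix_cons] at h
  | a + 1, a' + 1, h => by
    unfold cw at h
    rw [List.replicate_succ, List.replicate_succ, List.cons_append, List.cons_append,
      List.cons_prefix_cons] at h
    obtain ⟨h1, h2⟩ := cw_prefix (a := a) (a' := a') h.2
    exact ⟨by rw [h1], h2⟩

theorem uniq (hKC1 : S_KC1) {req : ℕ × ℕ → List (ℕ × Str)}
    (hpre : ∀ a s, req (a, s) <+: req (a, s + 1))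
    (hsum : ∀ a s, ((req (a, s)).map (fun e => ((1:ℝ) / 2) ^ e.1)).sum ≤ 1 / 2)
    {a s k n v s' k' n' v' : ℕ} {x x' : Str} (h : isReq req a s k n v x) (h' : isReq req a s' k' n' v' x')
    (hp : bt n v <+: bt n' v') : n = n' ∧ v = v' ∧ x = x' := by
  have g := isReq_mono hpre h (le_max_left s s')
  have g' := isReq_mono hpre h' (le_max_right s s')
  obtain ⟨a1, a2⟩ := key hKC1 hsum g
  obtain ⟨b1, b2⟩ := key hKC1 hsum g'
  obtain ⟨c1, c2⟩ := bt_prefix a1 b1 hp
  obtain ⟨d, rfl⟩ := Nat.exists_eq_add_of_le c1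
  rw [Nat.add_sub_cancel_left] at c2
  have p1 : 0 < 2 ^ n := by positivity
  have p2 : 0 < 2 ^ d := by positivity
  rcases lt_trichotomy k k' with hk | hk | hk
  · exfalso
    have e1 := a2 g' hk
    have e2 : (v + 1) * 2 ^ d ≤ v' := by
      apply Nat.le_of_mul_le_mul_right _ p1
      rw [pow_add] at e1
      calc (v + 1) * 2 ^ d * 2 ^ n = (v + 1) * (2 ^ n * 2 ^ d) := by ring
        _ ≤ v' * 2 ^ n := e1
    have e3 : v' < (v + 1) * 2 ^ d := by
      rw [← Nat.div_lt_iff_lt_mul p2, ← c2]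
      exact Nat.lt_succ_self v
    omega
  · subst hk
    have e1 : some (n, x) = some (n + d, x') := g.1.symm.trans g'.1
    rw [Option.some_inj, Prod.mk.injEq] at e1
    obtain ⟨e1, e2⟩ := e1
    refine ⟨e1, ?_, e2⟩
    have hd : d = 0 := by omega
    subst hd
    rw [c2]
    simp
  · exfalso
    have e1 := b2 g hk
    have e2 : v' + 1 ≤ v * 2 ^ d := by
      apply Nat.le_of_mul_le_mul_right _ p1
      rw [pow_add] at e1
      calc (v' + 1) * 2 ^ n ≤ v * (2 ^ n * 2 ^ d) := e1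
        _ = v * 2 ^ d * 2 ^ n := by ring
    have e3 : v * 2 ^ d ≤ v' := by
      rw [c2]
      exact Nat.div_mul_le_self _ _
    omega

end XKC

open XKC in
theorem t_KC (hKC1 : S_KC1) : S_KC := by
  intro V hV req hr hpre hsum
  have hN : Partrec (fun p : Str => Nat.rfindOpt (trial req p)) :=
    Partrec.rfindOpt (trial_prim hr).to_comp
  have hPF : PF (fun p : Str => Nat.rfindOpt (trial req p)) := by
    intro p q hp hq hpq
    obtain ⟨t, x, hx⟩ := Nat.rfindOpt_dom.mp hp
    obtain ⟨t', x', hx'⟩ := Nat.rfindOpt_dom.mp hq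
    obtain ⟨n, v, h1, h2⟩ := trial_iff hx
    obtain ⟨n', v', h1', h2'⟩ := trial_iff hx'
    rw [← h2, ← h2'] at hpq ⊢
    obtain ⟨e1, e2⟩ := cw_prefix hpq
    rw [← e1] at h1'
    obtain ⟨f1, f2, -⟩ := uniq hKC1 hpre hsum h1 h1' e2
    rw [← e1, f1, f2]
  obtain ⟨c, hc⟩ := hV _ hN hPF
  refine ⟨c + 1, fun a s n x hx => ?_⟩
  obtain ⟨k, hk⟩ := List.mem_iff_getElem?.mp hx
  have h0 : isReq req a s k n (alidx (((req (a, s)).map Prod.fst).take k) n) x := ⟨hk, rfl⟩
  have hdom : (Nat.rfindOpt (trial req (cw a n (alidx (((req (a, s)).map Prod.fst).take k) n)))).Dom :=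
    Nat.rfindOpt_dom.mpr ⟨_, x, mem_trial h0⟩
  obtain ⟨y, hy⟩ := Part.dom_iff_mem.mp hdom
  obtain ⟨t, ht⟩ := Nat.rfindOpt_spec hy
  obtain ⟨n', v', h1, h2⟩ := trial_iff ht
  have hpq : cw t.unpair.1 n' v' <+: cw a n (alidx (((req (a, s)).map Prod.fst).take k) n) := by
    rw [h2]
  obtain ⟨e1, e2⟩ := cw_prefix hpq
  rw [e1] at h1
  obtain ⟨-, -, f3⟩ := uniq hKC1 hpre hsum h1 h0 e2
  rw [f3] at hy
  obtain ⟨q, hq1, hq2⟩ := hc _ x hy
  refine ⟨q, ?_, hq2⟩
  rw [length_cw] at hq1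
  omega

end Pool.Agent.H662.CK
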