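import Pool.Agent.H662.TR.Stm

/-!
# Definitions and statements for S14944 (MP_7c40ec_lc) and S14350 (MP_09b933_lc), negative answers

Plain complexity `C(x)` is not determined up to bounded information by `x` and `K(x)`.

The adversary argument. Suppose that `C(x) ∈ lam(x, K(x))` where `lam(x,k)` is an enumerable list with at
most `m` elements. We build a plain machine and a prefix-free machine with overhead `o`. For a level base
`j` a round takes a group of `2^j` fresh strings, gives them prefix complexity at most `u + o`, and then in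
`T+1` steps pushes their plain complexity below `g 0 > g 1 > ... > g T`, waiting at each step until the current
approximations satisfy `C_s(x) ∈ lam_s(x, K_s(x))`. Strings whose complexity jumps below the next target
(leapers) are dropped; if at a step too many strings of the group leap, the round is abandoned: this can
happen only a bounded number of times (not depending on `j`), as there are few strings of small plain
complexity. In a successful round at least half of the group makes `T+1` true drops of `C`, and so at least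
`S` drops of `K`. The weights of the rounds double, so that the successful round has half of the weight
spent. Adding up over many level bases, the weight of `K` is multiplied by `2^(S-o-2)`; contradiction.
-/

set_option autoImplicit false

namespace Pool.Agent.H662.CK

open Pool.Agent.H662.TR (Str strs)

/-- complexity with respect to a machine -/
noncomputable def Cx (W : Str →. Str) (x : Str) : ℕ := sInf {n : ℕ | ∃ p : Str, p.length = n ∧ x ∈ W p}

/-- optimal plain machine -/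
def OptP (W : Str →. Str) : Prop := ∀ M : Str →. Str, Partrec M →
  ∃ c : ℕ, ∀ (p z : Str), z ∈ M p → ∃ q : Str, q.length ≤ p.length + c ∧ z ∈ W q

/-- prefix-free machine -/
def PF (V : Str →. Str) : Prop := ∀ p q : Str, (V p).Dom → (V q).Dom → p <+: q → p = q

/-- optimal among the prefix-free machines -/
def OptF (V : Str →. Str) : Prop := ∀ M : Str →. Str, Partrec M → PF M →
  ∃ c : ℕ, ∀ (p z : Str), z ∈ M p → ∃ q : Str, q.length ≤ p.length + c ∧ z ∈ V q

/-- data: approximations `PW ((n,x),s)` of '`C(x) ≤ n`', `PV` of '`K(x) ≤ n`', the lists `lam`, their size -/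
structure Ctx where
  PW : (ℕ × Str) × ℕ → Bool
  PV : (ℕ × Str) × ℕ → Bool
  lam : (Str × ℕ) × ℕ → List ℕ
  m : ℕ

/-- assumptions on the data -/
structure Hyp (c : Ctx) (W V : Str →. Str) : Prop where
  monoW : ∀ n n' x s s', n ≤ n' → s ≤ s' → c.PW ((n, x), s) = true → c.PW ((n', x), s') = true
  monoV : ∀ n n' x s s', n ≤ n' → s ≤ s' → c.PV ((n, x), s) = true → c.PV ((n', x), s') = true
  iffW : ∀ n x, (∃ s, c.PW ((n, x), s) = true) ↔ ∃ p : Str, p.length ≤ n ∧ x ∈ W p
  iffV : ∀ n x, (∃ s, c.PV ((n, x), s) = true) ↔ ∃ p : Str, p.length ≤ n ∧ x ∈ V p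
  lmono : ∀ y s s', s ≤ s' → ∀ v ∈ c.lam (y, s), v ∈ c.lam (y, s')
  lcard : ∀ y s, (c.lam (y, s)).toFinset.card ≤ c.m

/-! ## Parameters (`m` the size of the lists, `a` the index of the machines) -/

/-- overhead -/
def oo (a : ℕ) : ℕ := 2 * a + 2
/-- number of drops of `K` wanted -/
def SS (a : ℕ) : ℕ := oo a + 5
/-- number of steps -/
def TT (m a : ℕ) : ℕ := (m + 1) * (SS a + 1)
/-- distance of consecutive targets -/
def LL (m a : ℕ) : ℕ := oo a + TT m a + 3
/-- number of levels used above a base -/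
def qq (m a : ℕ) : ℕ := TT m a * LL m a + oo a + 1
/-- bound for the number of rounds -/
def RR (m a : ℕ) : ℕ := 2 ^ qq m a
/-- the group of round `i` has weight `2^i / 2^L0` -/
def L0 (m a : ℕ) : ℕ := RR m a + 3
/-- base of module `r` -/
def jj (m a r : ℕ) : ℕ := (r + 1) * (qq m a + 1)
/-- target at step `t` in module `r` -/
def gg (m a r t : ℕ) : ℕ := jj m a r + qq m a - t * LL m a
/-- length of the prefix-free requests in module `r`, round `i` -/
def uu (m a r i : ℕ) : ℕ := jj m a r + L0 m a - i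
/-- the group of module `r`, round `i` -/
def Gp (m a r i : ℕ) : List Str :=
  (strs (jj m a r)).map (fun σ => σ ++ List.replicate (r * (RR m a + 1) + i) false)

/-! ## The process -/

/-- state: `(r, i, t)` module, round, step; active strings; requests of the plain machine and of the
prefix-free machine; counter of the weight spent -/
abbrev Stt := (ℕ × ℕ × ℕ) × (List Str × ((List (ℕ × Str) × List (ℕ × Str)) × ℕ))

/-- module -/
def zr (z : Stt) : ℕ := z.1.1
/-- round -/
def zi (z : Stt) : ℕ := z.1.2.1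
/-- step -/
def zt (z : Stt) : ℕ := z.1.2.2
/-- active strings -/
def zact (z : Stt) : List Str := z.2.1
/-- plain requests -/
def zM (z : Stt) : List (ℕ × Str) := z.2.2.1.1
/-- prefix-free requests -/
def zN (z : Stt) : List (ℕ × Str) := z.2.2.1.2
/-- weight counter -/
def zZ (z : Stt) : ℕ := z.2.2.2

/-- start of round `i` of module `r` -/
def newr (m a r i : ℕ) (M N : List (ℕ × Str)) (Z : ℕ) : Stt :=
  ((r, i, 0), (Gp m a r i, ((M ++ (Gp m a r i).map (fun x => (gg m a r 0 - oo a, x)),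
    N ++ (Gp m a r i).map (fun x => (uu m a r i, x))), Z + 2 ^ i)))

/-- the least `n` with `P ((n,x),s)` if it is at most `b` (for monotone `P`), else `b` -/
def lst (P : (ℕ × Str) × ℕ → Bool) (b : ℕ) (x : Str) (s : ℕ) : ℕ :=
  ((List.range b).filter (fun n => !(P ((n, x), s)))).length

/-- `x` is ready at stage `s` -/
def rdy1 (c : Ctx) (a r i t s : ℕ) (x : Str) : Bool :=
  c.PW ((gg c.m a r t, x), s) && (c.PV ((uu c.m a r i + oo a, x), s) &&
    decide (lst c.PW (gg c.m a r t) x s ∈ c.lam ((x, lst c.PV (uu c.m a r i + oo a) x s), s)))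

/-- all active strings are ready -/
def rdy (c : Ctx) (a s : ℕ) (z : Stt) : Bool :=
  (zact z).all (fun x => rdy1 c a (zr z) (zi z) (zt z) s x)

/-- leapers -/
def lps (c : Ctx) (a s : ℕ) (z : Stt) : List Str :=
  (zact z).filter (fun x => c.PW ((gg c.m a (zr z) (zt z + 1), x), s))

/-- the strings which stay active -/
def kps (c : Ctx) (a s : ℕ) (z : Stt) : List Str :=
  (zact z).filter (fun x => !(c.PW ((gg c.m a (zr z) (zt z + 1), x), s)))

/-- next step in the same round -/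
def adv (c : Ctx) (a s : ℕ) (z : Stt) : Stt :=
  ((zr z, zi z, zt z + 1), (kps c a s z,
    ((zM z ++ (kps c a s z).map (fun x => (gg c.m a (zr z) (zt z + 1) - oo a, x)), zN z), zZ z)))

/-- transition at stage `s` -/
def nxt (c : Ctx) (a s : ℕ) (z : Stt) : Stt :=
  if rdy c a s z = true then
    (if zt z < TT c.m a then
      (if 2 ^ jj c.m a (zr z) ≤ (lps c a s z).length * (2 * TT c.m a) then
        newr c.m a (zr z) (zi z + 1) (zM z) (zN z) (zZ z)
      else adv c a s z)
    else (if 2 ^ (L0 c.m a - 2) ≤ zZ z then z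
      else newr c.m a (zr z + 1) 0 (zM z) (zN z) (zZ z)))
  else z

/-- the process -/
def st (c : Ctx) (a : ℕ) : ℕ → Stt
  | 0 => newr c.m a 0 0 [] [] 0
  | s + 1 => nxt c a s (st c a s)

/-- Invariant. `A` is the list of the abandoned rounds `((r,i,t), leapers)`, `B` the list of the
successful rounds `((r,i), active strings at the end)`. -/
structure Inv (c : Ctx) (a s : ℕ) (z : Stt) (A : List ((ℕ × ℕ × ℕ) × List Str))
    (B : List ((ℕ × ℕ) × List Str)) : Prop where
  iR : zi z ≤ RR c.m a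
  tT : zt z ≤ TT c.m a
  asub : (zact z).Sublist (Gp c.m a (zr z) (zi z))
  abig : 2 * TT c.m a * 2 ^ jj c.m a (zr z) ≤
    2 * TT c.m a * (zact z).length + zt z * 2 ^ jj c.m a (zr z)
  A1 : ∀ e ∈ A, e.1.2.2 < TT c.m a ∧ e.1.2.1 ≤ RR c.m a ∧ e.2.Sublist (Gp c.m a e.1.1 e.1.2.1) ∧
    2 ^ jj c.m a e.1.1 ≤ e.2.length * (2 * TT c.m a) ∧
    (∀ x ∈ e.2, c.PW ((gg c.m a e.1.1 (e.1.2.2 + 1), x), s) = true)
  A4 : ∀ e ∈ A, e.1.1 < zr z ∨ e.1.1 = zr z ∧ e.1.2.1 < zi z
  A2 : (A.map (fun e => (e.1.1, e.1.2.1))).Nodup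
  A3 : (A.filter (fun e => decide (e.1.1 = zr z))).length = zi z
  B1 : ∀ e ∈ B, e.1.1 < zr z ∧ e.1.2 ≤ RR c.m a ∧ e.2.Sublist (Gp c.m a e.1.1 e.1.2) ∧
    2 ^ jj c.m a e.1.1 ≤ 2 * e.2.length ∧
    (∀ x ∈ e.2, c.PV ((uu c.m a e.1.1 e.1.2 + oo a - SS a, x), s) = true)
  B2 : (B.map (fun e => e.1)).Nodup
  Z1 : zZ z ≤ (B.map (fun e => 2 ^ (e.1.2 + 1))).sum + 2 ^ (zi z + 1)
  Z2 : zZ z ≤ 2 ^ (L0 c.m a - 2) + 2 ^ (zi z + 1)
  K1 : ∀ x ∈ zact z, 1 ≤ zt z → c.PV ((uu c.m a (zr z) (zi z) + oo a, x), s) = true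
  K2 : ∀ x ∈ zact z, zt z ≤ (c.m + 1) * (uu c.m a (zr z) (zi z) + oo a -
      lst c.PV (uu c.m a (zr z) (zi z) + oo a) x s) +
    ((c.lam ((x, lst c.PV (uu c.m a (zr z) (zi z) + oo a) x s), s)).toFinset.filter
      (fun v => gg c.m a (zr z) (zt z) < v)).card
  M1 : ∀ e ∈ zM z, ∃ r t, r ≤ zr z ∧ t ≤ TT c.m a ∧ e.1 = gg c.m a r t - oo a
  M2 : ∀ r t, t ≤ TT c.m a →
    ((zM z).filter (fun e => decide (e.1 = gg c.m a r t - oo a))).length ≤ 2 ^ jj c.m a r *
      ((A.filter (fun e => decide (e.1.1 = r ∧ t ≤ e.1.2.2))).length +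
        (if r < zr z ∨ r = zr z ∧ t ≤ zt z then 1 else 0))
  N1 : ((zN z).map (fun e => ((1:ℝ) / 2) ^ e.1)).sum = (zZ z : ℝ) / 2 ^ L0 c.m a
  R1 : ∀ x ∈ zact z, (gg c.m a (zr z) (zt z) - oo a, x) ∈ zM z ∧ (uu c.m a (zr z) (zi z), x) ∈ zN z

/-! ## Statements: general facts -/

/-- APX. Proof: code of `W` through encodings (`Nat.Partrec.Code`), `P ((n,x),s)` iff there is `p` with
`p.length ≤ n` and `evaln s code (encode p) = some (encode x)` (bounded quantifier over the lists
`strs i`, `i ≤ n`). -/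
def S_APX : Prop := ∀ W : Str →. Str, Partrec W → ∃ P : (ℕ × Str) × ℕ → Bool, Primrec P ∧
  (∀ n n' x s s', n ≤ n' → s ≤ s' → P ((n, x), s) = true → P ((n', x), s') = true) ∧
  (∀ n x, (∃ s, P ((n, x), s) = true) ↔ ∃ p : Str, p.length ≤ n ∧ x ∈ W p)

/-- CNT. Proof: choose programs; they are distinct and there are `2^(n+1) - 1` strings of length `≤ n`. -/
def S_CNT : Prop := ∀ (W : Str →. Str) (n : ℕ) (F : Finset Str),
  (∀ x ∈ F, ∃ p : Str, p.length ≤ n ∧ x ∈ W p) → F.card < 2 ^ (n + 1)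

/-- KRF. Kraft inequality. Proof: choose programs `p x` (distinct, pairwise incomparable, length `≤ k x`);
count extensions in `strs N` for large `N`. -/
def S_KRF : Prop := ∀ V : Str →. Str, PF V → ∀ (F : Finset Str) (k : Str → ℕ),
  (∀ x ∈ F, ∃ p : Str, p.length ≤ k x ∧ x ∈ V p) → ∑ x ∈ F, ((1:ℝ) / 2) ^ k x ≤ 1

/-- PLN. Plain machine from requests. Proof: machine `M`: the input `true^a false σ` with `n = σ.length`
waits for a stage `s` where the filtered list `(req (a,s)).filter (·.1 = n)` has an entry with index the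
value of `σ` (position of `σ` in `strs n`), and outputs its string (`Partrec` by `Nat.rfindOpt` of a
primitive recursive function). Then `(n,x) ∈ req (a,s)` gives a program of length `n + a + 1`; apply `OptP`. -/
def S_PLN : Prop := ∀ W : Str →. Str, OptP W → ∀ req : ℕ × ℕ → List (ℕ × Str), Primrec req →
  (∀ a s, req (a, s) <+: req (a, s + 1)) →
  (∀ a s n, ((req (a, s)).filter (fun e => decide (e.1 = n))).length ≤ 2 ^ n) →
  ∃ c0 : ℕ, ∀ a s n x, (n, x) ∈ req (a, s) → ∃ q : Str, q.length ≤ n + a + c0 ∧ x ∈ W q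

/-- allocation for KC: `al l` is the list of the numbers `idx` for the requests of lengths `l`
(in the order of `l`), where the `k`-th request gets the `n_k` bit binary string with value `idx_k`;
state `(A, E)` means that `A/2^E` is the right end of the last interval -/
def alst : List ℕ → ℕ × ℕ
  | l => l.foldl (fun (st : ℕ × ℕ) n =>
      let E := max st.2 n
      let A := st.1 * 2 ^ (E - st.2)
      ((A / 2 ^ (E - n) + 2) * 2 ^ (E - n), E)) (0, 0)

/-- index given to a request of length `n` when the earlier requests are `l` -/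
def alidx (l : List ℕ) (n : ℕ) : ℕ :=
  ((alst l).1 * 2 ^ (max (alst l).2 n - (alst l).2)) / 2 ^ (max (alst l).2 n - n) + 1

/-- KC1. Online allocation with loss of a factor 2: the `k`-th request `n` gets the dyadic interval
`[idx/2^n, (idx+1)/2^n)` with `idx = ⌊e * 2^n⌋ + 1`, `e` the previous right end. Proof: the right ends
`e_k = (alst (l.take k)).1 / 2^(alst (l.take k)).2` satisfy `e_{k+1} = (idx_k+1)/2^n ≤ e_k + 2/2^n`, so
`e_k ≤ 2 Σ 2^{-n} ≤ 1`, the intervals are disjoint (`idx_k/2^n > e_k`), and so `idx + 1 ≤ 2^n`. For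
`k < k'`, `n = l[k]`, `n' = l[k']`: `(idx_k + 1)/2^n ≤ idx_{k'}/2^{n'}`. -/
def S_KC1 : Prop := ∀ l : List ℕ, (l.map (fun n => ((1:ℝ) / 2) ^ n)).sum ≤ 1 / 2 →
  (∀ k (hk : k < l.length), alidx (l.take k) l[k] < 2 ^ l[k]) ∧
  (∀ k k' (hk : k < l.length) (hk' : k' < l.length), k < k' →
    (alidx (l.take k) l[k] + 1) * 2 ^ l[k'] ≤ alidx (l.take k') l[k'] * 2 ^ l[k])

/-- KC (from S_KC1). Prefix-free machine from requests. Proof: machine `N`: input `true^a false σ`, with
`n = σ.length`, `v` the value of `σ` (most significant bit first); wait for a stage `s` and `k` such that the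
`k`-th entry of `req (a,s)` is `(n, x)` and `alidx` of the previous lengths and `n` is `v`; output `x`. It is
prefix-free: if `σ <+: σ'` are both in the domain (for the same `a`), the dyadic intervals are nested, hence
the same request by S_KC1 (all in a common large stage). Then `(n,x) ∈ req (a,s)` gives a program of length
`n + a + 1`; apply `OptF`. -/
def S_KC : Prop := ∀ V : Str →. Str, OptF V → ∀ req : ℕ × ℕ → List (ℕ × Str), Primrec req →
  (∀ a s, req (a, s) <+: req (a, s + 1)) →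
  (∀ a s, ((req (a, s)).map (fun e => ((1:ℝ) / 2) ^ e.1)).sum ≤ 1 / 2) →
  ∃ c0 : ℕ, ∀ a s n x, (n, x) ∈ req (a, s) → ∃ q : Str, q.length ≤ n + a + c0 ∧ x ∈ V q

/-- LST. Proof: by monotonicity in `n`, the filter is `List.range` of the least `n` with `P` (or of `b`). -/
def S_LST : Prop := ∀ P : (ℕ × Str) × ℕ → Bool,
  (∀ n n' x s s', n ≤ n' → s ≤ s' → P ((n, x), s) = true → P ((n', x), s') = true) → ∀ b x s,
  lst P b x s ≤ b ∧ (∀ n, n < lst P b x s → P ((n, x), s) = false) ∧
  (P ((b, x), s) = true → P ((lst P b x s, x), s) = true) ∧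
  (∀ s', s ≤ s' → lst P b x s' ≤ lst P b x s)

/-- GRP. Proof: `j r + r*(R+1) + i` (the length of the strings in the group) is injective for `i ≤ R`. -/
def S_GRP : Prop := ∀ m a,
  (∀ r i, (Gp m a r i).Nodup ∧ (Gp m a r i).length = 2 ^ jj m a r) ∧
  (∀ r i r' i', i ≤ RR m a → i' ≤ RR m a → ∀ x, x ∈ Gp m a r i → x ∈ Gp m a r' i' → r = r' ∧ i = i')

/-- NUM. Arithmetic of the parameters. -/
def S_NUM : Prop := ∀ m a,
  (∀ t, t ≤ TT m a → t * LL m a + oo a + 1 ≤ qq m a) ∧
  (∀ r t, t ≤ TT m a → jj m a r + 1 ≤ gg m a r t - oo a ∧ oo a ≤ gg m a r t) ∧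
  (∀ r t, t < TT m a → gg m a r (t + 1) < gg m a r t) ∧
  (∀ r t r' t', t ≤ TT m a → t' ≤ TT m a → gg m a r t - oo a = gg m a r' t' - oo a → r = r' ∧ t = t') ∧
  (∀ r t N, t < TT m a → N * 2 ^ jj m a r ≤ 2 * TT m a * 2 ^ (gg m a r (t + 1) + 1) →
    N + 1 ≤ 2 ^ (qq m a - t * LL m a - oo a)) ∧
  (∀ r t, t ≤ TT m a → 2 ^ jj m a r * 2 ^ (qq m a - t * LL m a - oo a) = 2 ^ (gg m a r t - oo a)) ∧
  0 < TT m a

/-- CAP (from S_CNT, S_GRP). Proof: the leapers of the abandoned rounds of module `r` with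
`t ≤ e.1.2.2` are pairwise different strings (different rounds: disjoint groups by S_GRP) with plain
complexity at most `gg (e.1.2.2 + 1) ≤ gg (t+1)`, so their number is `< 2^(gg (t+1) + 1)` by S_CNT and
`iffW`; each round has at least `2^j / (2T)` of them. -/
def S_CAP : Prop := ∀ c W V, Hyp c W V → ∀ a s (A : List ((ℕ × ℕ × ℕ) × List Str)),
  (∀ e ∈ A, e.1.2.2 < TT c.m a ∧ e.1.2.1 ≤ RR c.m a ∧ e.2.Sublist (Gp c.m a e.1.1 e.1.2.1) ∧
    2 ^ jj c.m a e.1.1 ≤ e.2.length * (2 * TT c.m a) ∧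
    (∀ x ∈ e.2, c.PW ((gg c.m a e.1.1 (e.1.2.2 + 1), x), s) = true)) →
  (A.map (fun e => (e.1.1, e.1.2.1))).Nodup → ∀ r t, t < TT c.m a →
  (A.filter (fun e => decide (e.1.1 = r ∧ t ≤ e.1.2.2))).length * 2 ^ jj c.m a r ≤
    2 * TT c.m a * 2 ^ (gg c.m a r (t + 1) + 1)

/-! ## Statements: the invariant -/

/-- I0 (from S_GRP, S_NUM). Initial state, `A = B = []`. -/
def S_I0 : Prop := ∀ c W V, Hyp c W V → ∀ a, Inv c a 0 (st c a 0) [] []

/-- IW (from S_LST). Waiting. Proof: only `A1, B1, K1, K2` depend on `s`; for K2 let `b = uu + oo`,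
`k = lst .. s`, `k' = lst .. (s+1) ≤ k`; if `k' = k` the list grows (`lmono`); if `k' < k ≤ b` then
`(m+1)*(b-k') ≥ (m+1)*(b-k) + m + 1` and the card is at most `m`. -/
def S_IW : Prop := ∀ c W V, Hyp c W V → ∀ a s z A B, Inv c a s z A B → Inv c a (s + 1) z A B

/-- IA (from S_GRP, S_NUM, S_LST). Advance. Proof: same `A`, `B`. K2: for `x ∈ kps`, by `rdy`,
`v = lst PW (gg t) x s ∈ lam ((x, k), s)`, `gg (t+1) < v ≤ gg t` (as `PW ((gg (t+1), x), s)` is false and
`PW ((v,x),s)` is true), so the filter for `gg (t+1)` contains the one for `gg t` and also `v`. `abig`: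
`lps.length + kps.length = act.length` and `lps.length * (2T) < 2^j`. M2: only the count of
`(r, t+1)` increases, by `kps.length ≤ 2^j`, and its indicator changes from 0 to 1 (S_NUM: the numbers
`gg r t - oo` are distinct). -/
def S_IA : Prop := ∀ c W V, Hyp c W V → ∀ a s z A B, Inv c a s z A B → rdy c a s z = true →
  zt z < TT c.m a → ¬ 2 ^ jj c.m a (zr z) ≤ (lps c a s z).length * (2 * TT c.m a) →
  Inv c a s (adv c a s z) A B

/-- IB (from S_GRP, S_NUM, S_CAP). Abandon. Proof: `A' = ((r,i,t), lps) :: A`, `B' = B`. `iR`: apply S_CAP to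
`A'` with `t = 0` and S_NUM: `(i+1) + 1 ≤ 2^(qq - oo) ≤ RR`. M2: see the computation: for `t' ≤ t` the number of
entries of `A'` grows by one, compensating the loss of the indicator; for `t' = 0` the new indicator
compensates the new group. N1: the group has weight `2^j * 2^(-u) = 2^i / 2^L0`. Z1, Z2: `2^(i+1) + 2^(i+1) =
2^(i+2)`. -/
def S_IB : Prop := ∀ c W V, Hyp c W V → ∀ a s z A B, Inv c a s z A B → rdy c a s z = true →
  zt z < TT c.m a → 2 ^ jj c.m a (zr z) ≤ (lps c a s z).length * (2 * TT c.m a) →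
  Inv c a s (newr c.m a (zr z) (zi z + 1) (zM z) (zN z) (zZ z))
    (((zr z, zi z, zt z), lps c a s z) :: A) B

/-- KD (from S_LST, S_NUM). Drop of `K` in a successful round. Proof: with `b = uu + oo`, `k = lst PV b x s`,
K2 gives `T ≤ (m+1)*(b-k) + m`, `T = (m+1)*(S+1)`, hence `k + S + 1 ≤ b`; `PV ((k,x),s)` by S_LST and monotone. -/
def S_KD : Prop := ∀ c W V, Hyp c W V → ∀ a s z A B, Inv c a s z A B → rdy c a s z = true →
  zt z = TT c.m a → ∀ x ∈ zact z, c.PV ((uu c.m a (zr z) (zi z) + oo a - SS a, x), s) = true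

/-- IC (from S_GRP, S_NUM, S_KD). Success and next module. Proof: `A' = A`, `B' = ((r,i), act) :: B`.
`2^j ≤ 2 * act.length` from `abig` with `t = T > 0`. -/
def S_IC : Prop := ∀ c W V, Hyp c W V → ∀ a s z A B, Inv c a s z A B → rdy c a s z = true →
  zt z = TT c.m a → ¬ 2 ^ (L0 c.m a - 2) ≤ zZ z →
  Inv c a s (newr c.m a (zr z + 1) 0 (zM z) (zN z) (zZ z)) A (((zr z, zi z), zact z) :: B)

/-- II (from S_I0, S_IW, S_IA, S_IB, S_IC). Induction on `s`, cases of `nxt`, then S_IW. -/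
def S_II : Prop := ∀ c W V, Hyp c W V → ∀ a s, ∃ A B, Inv c a s (st c a s) A B

/-- MB (from S_II, S_CAP, S_NUM). Bound for the plain requests. Proof: if `n` is the length of an entry,
`n = gg r t - oo` (M1); M2; for `t < T` S_CAP and S_NUM give `N + 1 ≤ 2^(qq - t*LL - oo)`; for `t = T` no `e ∈ A`
has `T ≤ e.1.2.2`, and `2^j ≤ 2^n`. -/
def S_MB : Prop := ∀ c W V, Hyp c W V → ∀ a s n,
  ((zM (st c a s)).filter (fun e => decide (e.1 = n))).length ≤ 2 ^ n

/-- NB (from S_II). Proof: N1, Z2, iR: `Z ≤ 2^(L0-2) + 2^(R+1) = 2^(L0-1)`. -/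
def S_NB : Prop := ∀ c W V, Hyp c W V → ∀ a s,
  ((zN (st c a s)).map (fun e => ((1:ℝ) / 2) ^ e.1)).sum ≤ 1 / 2

/-- PX. Proof: by cases of `nxt` (`List.prefix_append`). -/
def S_PX : Prop := ∀ c a s, zM (st c a s) <+: zM (st c a (s + 1)) ∧ zN (st c a s) <+: zN (st c a (s + 1))

/-- requests come true with overhead `oo a` -/
def Valid (c : Ctx) (W V : Str →. Str) (a : ℕ) : Prop :=
  (∀ s n x, (n, x) ∈ zM (st c a s) → ∃ q : Str, q.length ≤ n + oo a ∧ x ∈ W q) ∧
  (∀ s n x, (n, x) ∈ zN (st c a s) → ∃ q : Str, q.length ≤ n + oo a ∧ x ∈ V q)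

/-- RD (from S_LST, S_NUM, S_II). Eventually ready. Proof: for `x` active, R1 and Valid give programs of
length `≤ gg t` and `≤ uu + oo`, so for large `s'` both `PW` and `PV` hold and `lst` is the true value: `lst PW
(gg t) x s' = Cx W x`, `lst PV (uu+oo) x s' = Cx V x` (`iffW`, `iffV`, finitely many `n`), and
`Cx W x ∈ lam ((x, Cx V x), s')` for large `s'`. Finitely many `x`. -/
def S_RD : Prop := ∀ c W V, Hyp c W V → ∀ a, Valid c W V a →
  (∀ x, ∃ s, Cx W x ∈ c.lam ((x, Cx V x), s)) → ∀ s, ∃ s0, ∀ s', s0 ≤ s' →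
  rdy c a s' (st c a s) = true

/-- FZ (from S_RD, S_II). The process stops. Proof: if not, then from every stage there is a later one
where the state changes (if `st` is constant from `s` on, at a late stage it is ready, and `nxt` changes it
unless `zt = T` and `2^(L0-2) ≤ Z`). Each change increases `Z * (T+1) + t` (or use the lexicographic order),
which is bounded by `Z ≤ 2^(L0-1)`, `t ≤ T` (Z2, iR, tT). -/
def S_FZ : Prop := ∀ c W V, Hyp c W V → ∀ a, Valid c W V a →
  (∀ x, ∃ s, Cx W x ∈ c.lam ((x, Cx V x), s)) →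
  ∃ s, rdy c a s (st c a s) = true ∧ zt (st c a s) = TT c.m a ∧ 2 ^ (L0 c.m a - 2) ≤ zZ (st c a s)

/-- FC (from S_II, S_KD, S_KRF, S_GRP, S_NUM). Contradiction. Proof: with `B' = ((r,i), act) :: B` all entries
`((r',i'), ac)` have `2^j' ≤ 2 * ac.length`, `PV ((u'+o-S, x), s)` for `x ∈ ac`; the sets are disjoint
(S_GRP). Total weight `Σ ac.length * 2^(-(u'+o-S)) ≥ Σ 2^(j'-1) * 2^(-(j'+L0-i'+o-S)) = Σ 2^(i'+1) * 2^(S-o-2-L0)
≥ Z * 2^(S-o-2-L0) ≥ 2^(S-o-4) = 2 > 1` by Z1 (`S = o + 5`), against S_KRF. -/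
def S_FC : Prop := ∀ c W V, Hyp c W V → PF V → ∀ a s, rdy c a s (st c a s) = true →
  zt (st c a s) = TT c.m a → 2 ^ (L0 c.m a - 2) ≤ zZ (st c a s) → False

/-- PR (may use `TR.S_PR1` for `Primrec strs`). Primitive recursiveness of the process. -/
def S_PR : Prop := ∀ c : Ctx, Primrec c.PW → Primrec c.PV → Primrec c.lam →
  Primrec (fun x : ℕ × ℕ => st c x.1 x.2)

/-- CORE (from S_APX, S_PLN, S_KC, S_PR, S_PX, S_MB, S_NB, S_FZ, S_FC). Proof: suppose
`∀ x, ∃ s, Cx W x ∈ lam ((x, Cx V x), s)`. Take `PW`, `PV` from S_APX, `c = ⟨PW, PV, lam, m⟩`, `c1`, `c2` from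
S_PLN, S_KC applied to `zM (st c a s)`, `zN (st c a s)`; for `a = max c1 c2`, `Valid c W V a` because
`a + c1 ≤ 2a + 2`. Then S_FZ and S_FC. -/
def S_CORE : Prop := ∀ W V : Str →. Str, Partrec W → OptP W → Partrec V → PF V → OptF V →
  ∀ (lam : (Str × ℕ) × ℕ → List ℕ) (m : ℕ), Primrec lam →
  (∀ y s s', s ≤ s' → ∀ v ∈ lam (y, s), v ∈ lam (y, s')) →
  (∀ y s, (lam (y, s)).toFinset.card ≤ m) → ∃ x, ∀ s, Cx W x ∉ lam ((x, Cx V x), s)

/-! ## Statements: applications -/

/-- LP. Lists from a partial recursive function. Proof: code of `ψ`, `evaln`. -/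
def S_LP : Prop := ∀ ψ : Str × ℕ →. ℕ, Partrec ψ → ∀ d : ℕ, ∃ lam : (Str × ℕ) × ℕ → List ℕ, Primrec lam ∧
  (∀ y s s', s ≤ s' → ∀ v ∈ lam (y, s), v ∈ lam (y, s')) ∧
  (∀ y s, (lam (y, s)).toFinset.card ≤ 2 * d + 1) ∧
  (∀ y w v, w ∈ ψ y → v ≤ w + d → w ≤ v + d → ∃ s, v ∈ lam (y, s))

/-- LQ. Lists from a conditional machine: outputs of the programs of length at most `d`. -/
def S_LQ : Prop := ∀ U : Str → (Str × ℕ →. ℕ), Partrec₂ U → ∀ d : ℕ,
  ∃ lam : (Str × ℕ) × ℕ → List ℕ, Primrec lam ∧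
  (∀ y s s', s ≤ s' → ∀ v ∈ lam (y, s), v ∈ lam (y, s')) ∧
  (∀ y s, (lam (y, s)).toFinset.card ≤ 2 ^ (d + 1)) ∧
  (∀ y v p, p.length ≤ d → v ∈ U p y → ∃ s, v ∈ lam (y, s))

/-- EXP. Optimal plain machine: input `true^e false p` runs the `e`-th code on `p`. -/
def S_EXP : Prop := ∃ W : Str →. Str, Partrec W ∧ OptP W

/-- EXF. Optimal prefix-free machine. Proof: for a code `e` let `M_e` be the partial function on strings;
`M'_e (p)` runs all inputs and is defined iff `M_e p` halts (stage `s`, i.e. at the least `(s, p)` in some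
fixed order of pairs) and no `q` comparable with `p` (and different) is found halting before in this order;
`V (true^e false p) = M'_e p`. -/
def S_EXF : Prop := ∃ V : Str →. Str, Partrec V ∧ PF V ∧ OptF V

/-- EXC. Optimal conditional machine. -/
def S_EXC : Prop := ∃ U : Str → (Str × ℕ →. ℕ), Partrec₂ U ∧ ∀ M : Str → (Str × ℕ →. ℕ), Partrec₂ M →
  ∃ c : ℕ, ∀ (p : Str) (y : Str × ℕ) (z : ℕ), z ∈ M p y → ∃ q : Str, q.length ≤ p.length + c ∧ z ∈ U q y

/-- R1 (from S_CORE, S_LP): the frozen statement S14350. -/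
def S_R1 : Prop :=
    ¬ (∃ U V : List Bool →. List Bool,
      Partrec U ∧
      (∀ M : List Bool →. List Bool, Partrec M →
        ∃ c : ℕ, ∀ (x p : List Bool), x ∈ M p →
          ∃ q : List Bool, x ∈ U q ∧ q.length ≤ p.length + c) ∧
      Partrec V ∧
      (∀ p q : List Bool, (V p).Dom → (V q).Dom → p <+: q → p = q) ∧
      (∀ M : List Bool →. List Bool, Partrec M →
        (∀ p q : List Bool, (M p).Dom → (M q).Dom → p <+: q → p = q) →
        ∃ c : ℕ, ∀ (x p : List Bool), x ∈ M p →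
          ∃ q : List Bool, x ∈ V q ∧ q.length ≤ p.length + c) ∧
      ∃ ψ : List Bool × ℕ →. ℕ, Partrec ψ ∧
        ∃ c : ℕ, ∀ x : List Bool,
          ∃ y : ℕ, y ∈ ψ (x, sInf (List.length '' {p : List Bool | x ∈ V p})) ∧
            sInf (List.length '' {p : List Bool | x ∈ U p}) ≤ y + c ∧
            y ≤ sInf (List.length '' {p : List Bool | x ∈ U p}) + c)

/-- R2 (from S_CORE, S_LQ, S_EXP, S_EXF, S_EXC): the frozen statement S14944. The set in the outer `sInf` is
nonempty because `U` is optimal (compare with the machine `M p y = p.length`), so by `Nat.sInf_mem` there is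
`p` with `p.length ≤ c` and `Cx W x ∈ U p (x, Cx V x)`. -/
def S_R2 : Prop :=
    ¬ (∀ (W : List Bool →. List Bool) (V : List Bool →. List Bool)
    (U : List Bool → (List Bool × ℕ →. ℕ)),
    Partrec W →
    (∀ M : List Bool →. List Bool, Partrec M →
      ∃ c : ℕ, ∀ (p : List Bool) (z : List Bool), z ∈ M p →
        ∃ q : List Bool, q.length ≤ p.length + c ∧ z ∈ W q) →
    Partrec V →
    (∀ p q : List Bool, (V p).Dom → (V q).Dom → p <+: q → p = q) →
    (∀ M : List Bool →. List Bool, Partrec M →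
      (∀ p q : List Bool, (M p).Dom → (M q).Dom → p <+: q → p = q) →
      ∃ c : ℕ, ∀ (p : List Bool) (z : List Bool), z ∈ M p →
        ∃ q : List Bool, q.length ≤ p.length + c ∧ z ∈ V q) →
    Partrec₂ U →
    (∀ M : List Bool → (List Bool × ℕ →. ℕ), Partrec₂ M →
      ∃ c : ℕ, ∀ (p : List Bool) (y : List Bool × ℕ) (z : ℕ), z ∈ M p y →
        ∃ q : List Bool, q.length ≤ p.length + c ∧ z ∈ U q y) →
    ∃ c : ℕ, ∀ x : List Bool,
      sInf {n : ℕ | ∃ p : List Bool, p.length = n ∧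
        sInf {m : ℕ | ∃ q : List Bool, q.length = m ∧ x ∈ W q} ∈
          U p (x, sInf {m : ℕ | ∃ q : List Bool, q.length = m ∧ x ∈ V q})} ≤ c)

end Pool.Agent.H662.CK
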